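import Mathlib

open Filter Topology Set
open scoped ENNReal

noncomputable section

namespace MP4ea76a

/-- `ℓ∞(ι)`: bounded real functions on the set `ι`, with the supremum norm. -/
abbrev Linf (ι : Type) : Type := lp (fun _ : ι => ℝ) ∞

/-- `c₀`: the sequences in `ℓ∞` which converge to `0`. -/
def c0 : Submodule ℝ (Linf ℕ) where
  carrier := {f | Tendsto (fun n => f n) atTop (𝓝 0)}
  add_mem' := by
    intro f g hf hg
    have := Tendsto.add (f := fun n => f n) (g := fun n => g n) hf hg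
    simpa using this
  zero_mem' := by
    simp
  smul_mem' := by
    intro c f hf
    have := Tendsto.const_mul (f := fun n => f n) c hf
    simpa using this

theorem mem_c0 {f : Linf ℕ} : f ∈ c0 ↔ Tendsto (fun n => f n) atTop (𝓝 0) := Iff.rfl

theorem mem_c0' {f : Linf ℕ} : f ∈ c0 ↔ ∀ ε > 0, ∃ N, ∀ n ≥ N, |f n| ≤ ε := by
  rw [mem_c0, Metric.tendsto_atTop]
  constructor
  · intro h ε hε
    obtain ⟨N, hN⟩ := h ε hε
    refine ⟨N, fun n hn => ?_⟩
    have := hN n hn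
    rw [Real.dist_eq, sub_zero] at this
    exact this.le
  · intro h ε hε
    obtain ⟨N, hN⟩ := h (ε / 2) (by linarith)
    refine ⟨N, fun n hn => ?_⟩
    have := hN n hn
    rw [Real.dist_eq, sub_zero]
    linarith

theorem abs_apply_le {ι : Type} (f : Linf ι) (i : ι) : |f i| ≤ ‖f‖ :=
  lp.norm_apply_le_norm (by simp) f i

theorem norm_le_of {ι : Type} {f : Linf ι} {C : ℝ} (hC : 0 ≤ C) (h : ∀ i, |f i| ≤ C) :
    ‖f‖ ≤ C :=
  lp.norm_le_of_forall_le hC h

instance isClosed_c0 : IsClosed (c0 : Set (Linf ℕ)) := by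
  rw [← closure_subset_iff_isClosed]
  intro f hf
  rw [SetLike.mem_coe, mem_c0']
  intro ε hε
  rw [Metric.mem_closure_iff] at hf
  obtain ⟨g, hg, hfg⟩ := hf (ε / 2) (by linarith)
  obtain ⟨N, hN⟩ := mem_c0'.1 hg (ε / 2) (by linarith)
  refine ⟨N, fun n hn => ?_⟩
  have h1 := hN n hn
  have h2 : |(f - g) n| ≤ ‖f - g‖ := abs_apply_le _ n
  rw [dist_eq_norm] at hfg
  have h3 : f n = (f - g) n + g n := by simp
  rw [h3]
  calc |(f - g) n + g n| ≤ |(f - g) n| + |g n| := abs_add_le _ _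
    _ ≤ ε := by linarith

/-- The Banach space `ℓ∞/c₀`. -/
abbrev Q : Type := Linf ℕ ⧸ c0

example : CompleteSpace Q := inferInstance
example : NormedSpace ℝ Q := inferInstance

/-- The quotient map `ℓ∞ → ℓ∞/c₀`. -/
def qmap : Linf ℕ →L[ℝ] Q := c0.mkQL

theorem qmap_surj (q : Q) : ∃ f, qmap f = q := by
  obtain ⟨f, hf⟩ := Submodule.Quotient.mk_surjective _ q
  exact ⟨f, hf⟩

theorem qmap_eq_zero {f : Linf ℕ} : qmap f = 0 ↔ f ∈ c0 := by
  unfold qmap
  simp

theorem qmap_eq_iff {f g : Linf ℕ} : qmap f = qmap g ↔ f - g ∈ c0 := by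
  rw [← qmap_eq_zero, map_sub, sub_eq_zero]

/-- build an element of `ℓ∞` -/
def mkInf {ι : Type} (f : ι → ℝ) (C : ℝ) (h : ∀ i, |f i| ≤ C) : Linf ι :=
  ⟨f, memℓp_infty ⟨C, by rintro _ ⟨i, rfl⟩; exact h i⟩⟩

@[simp] theorem mkInf_apply {ι : Type} (f : ι → ℝ) (C : ℝ) (h : ∀ i, |f i| ≤ C) (i : ι) :
    mkInf f C h i = f i := rfl

/-- norm in the quotient: upper bound -/
theorem norm_qmap_le {f : Linf ℕ} {r : ℝ} (hr : 0 ≤ r) (h : ∀ ε > 0, ∃ N, ∀ n ≥ N, |f n| ≤ r + ε) :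
    ‖qmap f‖ ≤ r := by
  refine le_of_forall_pos_le_add ?_
  intro ε hε
  obtain ⟨N, hN⟩ := h ε hε
  -- cut off the first N coordinates
  let g : Linf ℕ := mkInf (fun n => if n < N then 0 else f n) (r + ε) (by
    intro n
    dsimp only
    split_ifs with hn
    · simp; linarith
    · exact hN n (by omega))
  have hg : qmap f = qmap g := by
    rw [qmap_eq_iff, mem_c0']
    intro δ hδ
    refine ⟨N, fun n hn => ?_⟩
    have : (f - g) n = 0 := by
      simp only [lp.coeFn_sub, Pi.sub_apply, g, mkInf_apply]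
      rw [if_neg (by omega)]; simp
    rw [this]; simpa using hδ.le
  rw [hg]
  refine le_trans (Submodule.Quotient.norm_mk_le c0 g) ?_
  refine norm_le_of (by linarith) ?_
  intro n
  simp only [g, mkInf_apply]
  split_ifs with hn
  · simp; linarith
  · exact hN n (by omega)

/-- norm in the quotient: lower bound -/
theorem eventually_le_of_norm_qmap_lt {f : Linf ℕ} {r : ℝ} (h : ‖qmap f‖ < r) :
    ∃ N, ∀ n ≥ N, |f n| ≤ r := by
  obtain ⟨g, hg, hgn⟩ := Submodule.Quotient.norm_mk_lt (S := c0) (qmap f) (ε := r - ‖qmap f‖) (by linarith)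
  have hgr : ‖g‖ < r := by linarith
  have hg' : qmap f = qmap g := hg.symm
  rw [qmap_eq_iff, mem_c0'] at hg'
  obtain ⟨N, hN⟩ := hg' (r - ‖g‖) (by linarith)
  refine ⟨N, fun n hn => ?_⟩
  have h1 := hN n hn
  have h2 := abs_apply_le g n
  have h3 : f n = (f - g) n + g n := by simp
  rw [h3]
  calc |(f - g) n + g n| ≤ |(f - g) n| + |g n| := abs_add_le _ _
    _ ≤ r := by linarith

/-- assemble functionals into an operator into `ℓ∞(ι)` -/
def assemble {ι Y : Type} [NormedAddCommGroup Y] [NormedSpace ℝ Y] (g : ι → Y →ₗ[ℝ] ℝ) (M : ℝ)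
    (h : ∀ i y, |g i y| ≤ M * ‖y‖) : Y →L[ℝ] Linf ι :=
  LinearMap.mkContinuous
    { toFun := fun y => mkInf (fun i => g i y) (M * ‖y‖) (fun i => h i y)
      map_add' := by
        intro x y
        ext i
        simp
      map_smul' := by
        intro c x
        ext i
        simp } (max M 0) (by
        intro y
        refine norm_le_of (by positivity) ?_
        intro i
        refine le_trans (h i y) ?_
        gcongr
        exact le_max_left _ _)

@[simp] theorem assemble_apply {ι Y : Type} [NormedAddCommGroup Y] [NormedSpace ℝ Y]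
    (g : ι → Y →ₗ[ℝ] ℝ) (M : ℝ) (h : ∀ i y, |g i y| ≤ M * ‖y‖) (y : Y) (i : ι) :
    assemble g M h y i = g i y := rfl

/-- A Banach space `I` is injective if every bounded operator into `I` extends along every
isomorphic embedding of Banach spaces. -/
def IsInjectiveSpace (I : Type) [NormedAddCommGroup I] [NormedSpace ℝ I] : Prop :=
  ∀ (X Y : Type) [NormedAddCommGroup X] [NormedSpace ℝ X] [CompleteSpace X]
    [NormedAddCommGroup Y] [NormedSpace ℝ Y] [CompleteSpace Y] (j : X →L[ℝ] Y),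
    (∃ c > 0, ∀ x, c * ‖x‖ ≤ ‖j x‖) → ∀ u : X →L[ℝ] I, ∃ v : Y →L[ℝ] I, v ∘L j = u

/-- Hahn-Banach along an isomorphic embedding -/
theorem hb_ext {X Y : Type} [NormedAddCommGroup X] [NormedSpace ℝ X]
    [NormedAddCommGroup Y] [NormedSpace ℝ Y] (j : X →L[ℝ] Y) (c : ℝ) (hc : 0 < c)
    (hj : ∀ x, c * ‖x‖ ≤ ‖j x‖) (φ : X →ₗ[ℝ] ℝ) (M : ℝ) (hM : 0 ≤ M) (hφ : ∀ x, |φ x| ≤ M * ‖x‖) :
    ∃ ψ : Y →ₗ[ℝ] ℝ, (∀ x, ψ (j x) = φ x) ∧ ∀ y, |ψ y| ≤ (M / c) * ‖y‖ := by
  have hinj : Function.Injective (j : X →ₗ[ℝ] Y) := by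
    rw [← LinearMap.ker_eq_bot, LinearMap.ker_eq_bot']
    intro x hx
    have h1 := hj x
    have h2 : j x = 0 := hx
    rw [h2, norm_zero] at h1
    have : ‖x‖ ≤ 0 := by
      by_contra hcon
      push Not at hcon
      have := mul_pos hc hcon
      linarith
    simpa using this
  let e := LinearEquiv.ofInjective (j : X →ₗ[ℝ] Y) hinj
  let f : Y →ₗ.[ℝ] ℝ := ⟨LinearMap.range (j : X →ₗ[ℝ] Y), φ ∘ₗ (e.symm : _ →ₗ[ℝ] X)⟩
  obtain ⟨g, hg, hgN⟩ := exists_extension_of_le_sublinear f (fun y => (M / c) * ‖y‖)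
    (by intro a ha y; simp only [norm_smul, Real.norm_eq_abs, abs_of_pos ha]; ring)
    (by intro x y; rw [← mul_add]; gcongr; exact norm_add_le _ _)
    (by
      rintro ⟨y, hy⟩
      obtain ⟨x, rfl⟩ := hy
      have h1 : f ⟨(j : X →ₗ[ℝ] Y) x, ⟨x, rfl⟩⟩ = φ x := by
        show φ (e.symm _) = φ x
        congr 1
        have : e x = ⟨(j : X →ₗ[ℝ] Y) x, ⟨x, rfl⟩⟩ := rfl
        rw [← this]; simp
      rw [h1]
      have h2 := hφ x
      have h3 := hj x
      have h4 : ‖x‖ ≤ ‖j x‖ / c := by rw [le_div_iff₀ hc]; linarith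
      calc φ x ≤ |φ x| := le_abs_self _
        _ ≤ M * ‖x‖ := h2
        _ ≤ M * (‖j x‖ / c) := by gcongr
        _ = (M / c) * ‖j x‖ := by ring)
  refine ⟨g, fun x => ?_, fun y => ?_⟩
  · have := hg ⟨(j : X →ₗ[ℝ] Y) x, ⟨x, rfl⟩⟩
    have h1 : f ⟨(j : X →ₗ[ℝ] Y) x, ⟨x, rfl⟩⟩ = φ x := by
      show φ (e.symm _) = φ x
      congr 1
      have : e x = ⟨(j : X →ₗ[ℝ] Y) x, ⟨x, rfl⟩⟩ := rfl
      rw [← this]; simp
    rw [h1] at this
    exact this
  · rw [abs_le]
    constructor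
    · have := hgN (-y)
      simp only [map_neg, norm_neg] at this
      linarith
    · exact hgN y

theorem injective_Linf (ι : Type) : IsInjectiveSpace (Linf ι) := by
  intro X Y _ _ _ _ _ _ j ⟨c, hc, hj⟩ u
  have key : ∀ i : ι, ∃ ψ : Y →ₗ[ℝ] ℝ, (∀ x, ψ (j x) = u x i) ∧ ∀ y, |ψ y| ≤ (‖u‖ / c) * ‖y‖ := by
    intro i
    let φ : X →ₗ[ℝ] ℝ :=
      { toFun := fun x => u x i
        map_add' := by intro x y; simp
        map_smul' := by intro a x; simp }
    exact hb_ext j c hc hj φ ‖u‖ (norm_nonneg _) (fun x =>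
      le_trans (abs_apply_le (u x) i) (u.le_opNorm x))
  choose ψ h1 h2 using key
  refine ⟨assemble ψ _ h2, ?_⟩
  ext x i
  simp [h1]

theorem injective_prod {I J : Type} [NormedAddCommGroup I] [NormedSpace ℝ I]
    [NormedAddCommGroup J] [NormedSpace ℝ J] (hI : IsInjectiveSpace I) (hJ : IsInjectiveSpace J) :
    IsInjectiveSpace (I × J) := by
  intro X Y _ _ _ _ _ _ j hj u
  obtain ⟨v1, hv1⟩ := hI X Y j hj ((ContinuousLinearMap.fst ℝ I J) ∘L u)
  obtain ⟨v2, hv2⟩ := hJ X Y j hj ((ContinuousLinearMap.snd ℝ I J) ∘L u)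
  refine ⟨v1.prod v2, ?_⟩
  ext x
  · exact congrArg (fun w => w x) hv1
  · exact congrArg (fun w => w x) hv2

end MP4ea76a
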