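import Pool.Agent.Lib.MP_4ea76a_an.Compl

open Filter Topology Set
open scoped ENNReal

noncomputable section

namespace MP4ea76a

/-- `J` is an ideal of subsets of `ℕ` which contains the finite sets and whose quotient Boolean
algebra `P(ℕ)/J` satisfies the countable chain condition. -/
structure IsCCCIdeal (J : Set (Set ℕ)) : Prop where
  fin : ∀ A : Set ℕ, A.Finite → A ∈ J
  down : ∀ A B : Set ℕ, A ⊆ B → B ∈ J → A ∈ J
  union : ∀ A B : Set ℕ, A ∈ J → B ∈ J → A ∪ B ∈ J
  ccc : ∀ 𝒜 : Set (Set ℕ), (∀ A ∈ 𝒜, A ∉ J) → (∀ A ∈ 𝒜, ∀ B ∈ 𝒜, A ≠ B → A ∩ B ∈ J) →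
    𝒜.Countable

/-- limit of a bounded sequence along an ultrafilter -/
theorem exists_ulim {ι : Type} (U : Ultrafilter ι) (f : Linf ι) :
    ∃ x : ℝ, |x| ≤ ‖f‖ ∧ Tendsto (fun i => f i) U (𝓝 x) := by
  have h1 : IsCompact (Icc (-‖f‖) ‖f‖) := isCompact_Icc
  obtain ⟨x, hx, hle⟩ := h1.ultrafilter_le_nhds (U.map (fun i => f i)) (by
    rw [le_principal_iff]
    show {i | f i ∈ Icc (-‖f‖) ‖f‖} ∈ (U : Filter ι)
    filter_upwards with i
    exact abs_le.1 (abs_apply_le f i))
  exact ⟨x, abs_le.2 hx, hle⟩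

def ulim {ι : Type} (U : Ultrafilter ι) (f : Linf ι) : ℝ := Classical.choose (exists_ulim U f)

theorem abs_ulim_le {ι : Type} (U : Ultrafilter ι) (f : Linf ι) : |ulim U f| ≤ ‖f‖ :=
  (Classical.choose_spec (exists_ulim U f)).1

theorem tendsto_ulim {ι : Type} (U : Ultrafilter ι) (f : Linf ι) :
    Tendsto (fun i => f i) U (𝓝 (ulim U f)) :=
  (Classical.choose_spec (exists_ulim U f)).2

theorem ulim_eq {ι : Type} {U : Ultrafilter ι} {f : Linf ι} {x : ℝ}
    (h : Tendsto (fun i => f i) U (𝓝 x)) : ulim U f = x :=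
  tendsto_nhds_unique (tendsto_ulim U f) h

theorem ulim_add {ι : Type} (U : Ultrafilter ι) (f g : Linf ι) :
    ulim U (f + g) = ulim U f + ulim U g :=
  ulim_eq ((tendsto_ulim U f).add (tendsto_ulim U g))

theorem ulim_smul {ι : Type} (U : Ultrafilter ι) (c : ℝ) (f : Linf ι) :
    ulim U (c • f) = c * ulim U f :=
  ulim_eq ((tendsto_ulim U f).const_mul c)

theorem ulim_near {ι : Type} (U : Ultrafilter ι) (f : Linf ι) (x ε : ℝ)
    (h : {i | |f i - x| ≤ ε} ∈ U) : |ulim U f - x| ≤ ε := by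
  have h1 : Tendsto (fun i => |f i - x|) U (𝓝 |ulim U f - x|) :=
    ((tendsto_ulim U f).sub_const x).abs
  exact le_of_tendsto h1 h

theorem mem_near {ι : Type} (U : Ultrafilter ι) (f : Linf ι) (ε : ℝ) (hε : 0 < ε) :
    {i | |f i - ulim U f| ≤ ε} ∈ U := by
  have h1 := (Metric.tendsto_nhds.1 (tendsto_ulim U f)) ε hε
  filter_upwards [h1] with i hi
  rw [Real.dist_eq] at hi
  exact hi.le

theorem continuous_ulim {ι : Type} (f : Linf ι) : Continuous (fun U : Ultrafilter ι => ulim U f) := by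
  rw [continuous_iff_continuousAt]
  intro U
  rw [ContinuousAt, Metric.tendsto_nhds]
  intro ε hε
  have h1 : IsOpen {V : Ultrafilter ι | {i | |f i - ulim U f| ≤ ε / 2} ∈ V} :=
    ultrafilter_isOpen_basic _
  filter_upwards [h1.mem_nhds (mem_near U f (ε / 2) (by linarith))] with V hV
  rw [Real.dist_eq]
  have := ulim_near V f _ _ hV
  linarith

/-- the closed set of ultrafilters attached to `J` -/
def FJ (J : Set (Set ℕ)) : Set (Ultrafilter ℕ) := {U | ∀ A ∈ J, A ∉ U}

theorem isClosed_FJ (J : Set (Set ℕ)) : IsClosed (FJ J) := by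
  have : FJ J = ⋂ A ∈ J, {U : Ultrafilter ℕ | Aᶜ ∈ U} := by
    ext U
    simp only [FJ, mem_ofPred_eq, mem_iInter, Ultrafilter.compl_mem_iff_notMem]
  rw [this]
  exact isClosed_biInter (fun A _ => ultrafilter_isClosed_basic _)

instance (J : Set (Set ℕ)) : CompactSpace (FJ J) :=
  isCompact_iff_compactSpace.1 (isClosed_FJ J).isCompact

variable {J : Set (Set ℕ)}

theorem exists_mem_FJ (hJ : IsCCCIdeal J) (A : Set ℕ) (hA : A ∉ J) : ∃ U ∈ FJ J, A ∈ U := by
  let 𝓕 : Filter ℕ :=
    { sets := {B | A \ B ∈ J}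
      univ_sets := by
        show A \ univ ∈ J
        rw [sdiff_univ]
        exact hJ.fin _ finite_empty
      sets_of_superset := by
        intro B C hB hBC
        exact hJ.down _ _ (sdiff_subset_sdiff_right hBC) hB
      inter_sets := by
        intro B C hB hC
        show A \ (B ∩ C) ∈ J
        rw [sdiff_inter]
        exact hJ.union _ _ hB hC }
  have hne : 𝓕.NeBot := by
    rw [neBot_iff]
    intro h
    have h1 : (∅ : Set ℕ) ∈ 𝓕 := by rw [h]; exact mem_bot
    have h2 : A \ ∅ ∈ J := h1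
    rw [sdiff_empty] at h2
    exact hA h2
  have hA' : A ∈ 𝓕 := by
    show A \ A ∈ J
    rw [sdiff_self]
    exact hJ.fin _ finite_empty
  refine ⟨Ultrafilter.of 𝓕, ?_, Ultrafilter.of_le 𝓕 hA'⟩
  intro B hB hBU
  have h1 : Bᶜ ∈ 𝓕 := by
    show A \ Bᶜ ∈ J
    exact hJ.down _ _ (fun x hx => by simpa using hx.2) hB
  have h2 : Bᶜ ∈ Ultrafilter.of 𝓕 := Ultrafilter.of_le 𝓕 h1
  exact Ultrafilter.compl_mem_iff_notMem.1 h2 hBU

/-- separation in `P(ℕ)/J` -/
theorem separate (hJ : IsCCCIdeal J) (a b : ℕ → Set ℕ) (h : ∀ n m, a n ∩ b m ∈ J) :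
    ∃ c : Set ℕ, (∀ n, a n \ c ∈ J) ∧ ∀ m, b m ∩ c ∈ J := by
  have hfin : ∀ (s : Finset ℕ) (t : ℕ → Set ℕ), (∀ i ∈ s, t i ∈ J) → (⋃ i ∈ s, t i) ∈ J := by
    classical
    intro s t
    induction s using Finset.induction_on with
    | empty => intro _; simpa using hJ.fin _ finite_empty
    | insert i s hi ih =>
      intro h
      rw [Finset.set_biUnion_insert]
      exact hJ.union _ _ (h i (Finset.mem_insert_self _ _))
        (ih (fun k hk => h k (Finset.mem_insert_of_mem hk)))
  refine ⟨⋃ n, a n \ (⋃ m ∈ Finset.range (n + 1), b m), fun n => ?_, fun m => ?_⟩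
  · apply hJ.down _ (⋃ m ∈ Finset.range (n + 1), (a n ∩ b m))
    · rintro x ⟨hx1, hx2⟩
      simp only [mem_iUnion, not_exists] at hx2
      have h1 := hx2 n
      simp only [Set.mem_sdiff, hx1, true_and, not_not] at h1
      simp only [mem_iUnion] at h1 ⊢
      obtain ⟨m, hm, hxm⟩ := h1
      exact ⟨m, hm, hx1, hxm⟩
    · exact hfin _ _ (fun m _ => h n m)
  · apply hJ.down _ (⋃ n ∈ Finset.range m, (a n ∩ b m))
    · rintro x ⟨hx1, hx2⟩
      simp only [mem_iUnion] at hx2
      obtain ⟨n, hxn, hxn2⟩ := hx2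
      simp only [mem_iUnion, not_exists] at hxn2
      simp only [mem_iUnion]
      refine ⟨n, ?_, hxn, hx1⟩
      by_contra hcon
      simp only [Finset.mem_range, not_lt] at hcon
      exact hxn2 m (Finset.mem_range.2 (by omega)) hx1
    · exact hfin _ _ (fun n _ => h n m)

/-- trace of a subset of `ℕ` -/
def tr (J : Set (Set ℕ)) (A : Set ℕ) : Set (FJ J) := {U | A ∈ (U : Ultrafilter ℕ)}

theorem isOpen_tr (A : Set ℕ) : IsOpen (tr J A) :=
  (ultrafilter_isOpen_basic A).preimage continuous_subtype_val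

theorem isClosed_tr (A : Set ℕ) : IsClosed (tr J A) :=
  (ultrafilter_isClosed_basic A).preimage continuous_subtype_val

theorem tr_basis {W : Set (FJ J)} (hW : IsOpen W) {U : FJ J} (hU : U ∈ W) :
    ∃ A : Set ℕ, U ∈ tr J A ∧ tr J A ⊆ W := by
  obtain ⟨W', hW', rfl⟩ := isOpen_induced_iff.1 hW
  obtain ⟨B, ⟨A, rfl⟩, hUB, hBW⟩ := ultrafilterBasis_is_basis.exists_subset_of_mem_open hU hW'
  exact ⟨A, hUB, fun V hV => hBW hV⟩

theorem tr_nonempty_iff (hJ : IsCCCIdeal J) (A : Set ℕ) : (tr J A).Nonempty ↔ A ∉ J := by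
  constructor
  · rintro ⟨U, hU⟩ hA
    exact U.2 A hA hU
  · intro hA
    obtain ⟨U, hU, hAU⟩ := exists_mem_FJ hJ A hA
    exact ⟨⟨U, hU⟩, hAU⟩

theorem tr_inter (A B : Set ℕ) : tr J (A ∩ B) = tr J A ∩ tr J B := by
  ext U
  exact Filter.inter_mem_iff

/-- in every open set there is a countable family of basic sets with dense union -/
theorem exists_dense_countable (hJ : IsCCCIdeal J) (W : Set (FJ J)) (hW : IsOpen W) :
    ∃ a : ℕ → Set ℕ, (∀ n, tr J (a n) ⊆ W) ∧ W ⊆ closure (⋃ n, tr J (a n)) := by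
  let 𝒮 : Set (Set (Set ℕ)) := {𝒜 | (∀ A ∈ 𝒜, A ∉ J ∧ tr J A ⊆ W) ∧
    ∀ A ∈ 𝒜, ∀ B ∈ 𝒜, A ≠ B → A ∩ B ∈ J}
  obtain ⟨𝒜, hmax⟩ := zorn_subset 𝒮 (by
    intro c hc hchain
    refine ⟨⋃₀ c, ⟨?_, ?_⟩, fun s hs => subset_sUnion_of_mem hs⟩
    · rintro A ⟨s, hs, hA⟩
      exact (hc hs).1 A hA
    · rintro A ⟨s, hs, hA⟩ B ⟨t, ht, hB⟩ hne
      rcases hchain.total hs ht with hst | hst
      · exact (hc ht).2 A (hst hA) B hB hne
      · exact (hc hs).2 A hA B (hst hB) hne)
  have hmem : 𝒜 ∈ 𝒮 := hmax.prop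
  have hcount : 𝒜.Countable := hJ.ccc 𝒜 (fun A hA => (hmem.1 A hA).1) hmem.2
  have hdense : W ⊆ closure (⋃ A ∈ 𝒜, tr J A) := by
    intro U hU
    by_contra hcon
    have ho : IsOpen (W ∩ (closure (⋃ A ∈ 𝒜, tr J A))ᶜ) := hW.inter isClosed_closure.isOpen_compl
    obtain ⟨B, hUB, hB⟩ := tr_basis ho ⟨hU, hcon⟩
    have hBJ : B ∉ J := (tr_nonempty_iff hJ B).1 ⟨U, hUB⟩
    have hdisj : ∀ A ∈ 𝒜, A ∩ B ∈ J := by
      intro A hA
      by_contra hAB
      obtain ⟨V, hV⟩ := (tr_nonempty_iff hJ (A ∩ B)).2 hAB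
      rw [tr_inter] at hV
      exact (hB hV.2).2 (subset_closure (mem_biUnion hA hV.1))
    have hins : insert B 𝒜 ∈ 𝒮 := by
      constructor
      · intro A hA
        rcases mem_insert_iff.1 hA with rfl | hA
        · exact ⟨hBJ, fun V hV => (hB hV).1⟩
        · exact hmem.1 A hA
      · intro A hA C hC hne
        rcases mem_insert_iff.1 hA with hA | hA <;> rcases mem_insert_iff.1 hC with hC | hC
        · exact absurd (hA.trans hC.symm) hne
        · rw [hA, inter_comm]; exact hdisj C hC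
        · rw [hC]; exact hdisj A hA
        · exact hmem.2 A hA C hC hne
    have hBA : B ∈ 𝒜 := hmax.le_of_ge hins (subset_insert _ _) (mem_insert _ _)
    exact (hB hUB).2 (subset_closure (mem_biUnion hBA hUB))
  by_cases hne : 𝒜.Nonempty
  · obtain ⟨a, ha⟩ := hcount.exists_eq_range hne
    refine ⟨a, fun n => (hmem.1 (a n) (by rw [ha]; exact ⟨n, rfl⟩)).2, ?_⟩
    rw [ha] at hdense
    simpa using hdense
  · rw [not_nonempty_iff_eq_empty] at hne
    refine ⟨fun _ => ∅, fun n => ?_, ?_⟩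
    · rintro U hU
      have h0 : (∅ : Set ℕ) ∈ (U : Ultrafilter ℕ) := hU
      exact absurd h0 Ultrafilter.empty_notMem
    · rw [hne] at hdense
      simp only [mem_empty_iff_false, iUnion_of_empty, iUnion_empty, closure_empty,
        subset_empty_iff] at hdense
      rw [hdense]
      exact empty_subset _

theorem extremallyDisconnected_FJ (hJ : IsCCCIdeal J) : ExtremallyDisconnected (FJ J) := by
  refine ⟨fun W hW => ?_⟩
  obtain ⟨a, ha1, ha2⟩ := exists_dense_countable hJ W hW
  obtain ⟨b, hb1, hb2⟩ := exists_dense_countable hJ (closure W)ᶜ isClosed_closure.isOpen_compl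
  have hab : ∀ n m, a n ∩ b m ∈ J := by
    intro n m
    by_contra hcon
    obtain ⟨V, hV⟩ := (tr_nonempty_iff hJ _).2 hcon
    rw [tr_inter] at hV
    exact hb1 m hV.2 (subset_closure (ha1 n hV.1))
  obtain ⟨c, hc1, hc2⟩ := separate hJ a b hab
  have h1 : closure W ⊆ tr J c := by
    apply closure_minimal _ (isClosed_tr c)
    refine subset_trans ha2 ?_
    apply closure_minimal _ (isClosed_tr c)
    apply iUnion_subset
    intro n U hU
    by_contra hcon
    have h2 : a n \ c ∈ (U : Ultrafilter ℕ) := by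
      rw [sdiff_eq]
      exact Filter.inter_mem hU (Ultrafilter.compl_mem_iff_notMem.2 hcon)
    exact U.2 _ (hc1 n) h2
  have h2 : tr J c ⊆ closure W := by
    intro U hU
    by_contra hcon
    have h3 : U ∈ closure (⋃ m, tr J (b m)) := hb2 hcon
    rw [mem_closure_iff] at h3
    obtain ⟨V, hV1, hV2⟩ := h3 (tr J c) (isOpen_tr c) hU
    simp only [mem_iUnion] at hV2
    obtain ⟨m, hm⟩ := hV2
    exact V.2 _ (hc2 m) (Filter.inter_mem hm hV1)
  rw [subset_antisymm h1 h2]
  exact isOpen_tr c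

/-- `C(K)` for an extremally disconnected compact Hausdorff space `K` is injective. -/
theorem injective_CK (K : Type) [TopologicalSpace K] [CompactSpace K] [T2Space K]
    [ExtremallyDisconnected K] : IsInjectiveSpace C(K, ℝ) := by
  -- a section of the Stone-Cech map
  have hproj : CompactT2.Projective K := CompactT2.ExtremallyDisconnected.projective
  obtain ⟨h, hh1, hh2⟩ := hproj (Y := Ultrafilter K) (Z := K) (f := id)
    (g := Ultrafilter.extend id) continuous_id (continuous_ultrafilter_extend id)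
    (by
      intro x
      refine ⟨pure x, ?_⟩
      have := congrFun (ultrafilter_extend_extends (id : K → K)) x
      exact this)
  intro X Y _ _ _ _ _ _ j hj u
  -- the inclusion of `C(K)` into `ℓ∞(K)`
  let inc : C(K, ℝ) →L[ℝ] Linf K := assemble (fun x =>
    { toFun := fun f => f x, map_add' := by simp, map_smul' := by simp }) 1
    (by intro x f; rw [one_mul]; exact ContinuousMap.norm_coe_le_norm f x)
  -- the retraction
  let ret : Linf K →L[ℝ] C(K, ℝ) := LinearMap.mkContinuous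
    { toFun := fun g => ⟨fun x => ulim (h x) g, (continuous_ulim g).comp hh1⟩
      map_add' := by
        intro f g
        ext x
        exact ulim_add _ _ _
      map_smul' := by
        intro c f
        ext x
        exact ulim_smul _ _ _ } 1 (by
      intro g
      rw [one_mul, ContinuousMap.norm_le _ (norm_nonneg _)]
      intro x
      exact abs_ulim_le _ _)
  have hret : ∀ f, ret (inc f) = f := by
    intro f
    ext x
    show ulim (h x) (inc f) = f x
    apply ulim_eq
    have h1 : Ultrafilter.extend id (h x) = x := congrFun hh2 x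
    have h2 : (↑(h x) : Filter K) ≤ 𝓝 x := by
      have := (ultrafilter_extend_eq_iff (f := (id : K → K)) (b := h x) (c := x)).1 h1
      simpa using this
    exact (f.continuous.tendsto x).mono_left h2
  obtain ⟨v, hv⟩ := injective_Linf K X Y j hj (inc ∘L u)
  refine ⟨ret ∘L v, ?_⟩
  ext1 x
  have h1 : v (j x) = inc (u x) := congrArg (fun w => w x) hv
  show ret (v (j x)) = u x
  rw [h1, hret]

/-- An operator vanishing on `J` factors through `C(FJ J)`. -/
theorem factor_of_vanish (hJ : IsCCCIdeal J) (S : Q →L[ℝ] Q)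
    (hS : ∀ A ∈ J, ∀ f : Linf ℕ, (∀ n ∉ A, f n = 0) → S (qmap f) = 0) :
    ∃ (α : Q →L[ℝ] C(FJ J, ℝ)) (β : C(FJ J, ℝ) →L[ℝ] Q), ∀ q, S q = β (α q) := by
  let αL : Linf ℕ →L[ℝ] C(FJ J, ℝ) := LinearMap.mkContinuous
    { toFun := fun f => ⟨fun U => ulim (U : Ultrafilter ℕ) f,
        (continuous_ulim f).comp continuous_subtype_val⟩
      map_add' := by
        intro f g
        ext x
        exact ulim_add _ _ _
      map_smul' := by
        intro c f
        ext x
        exact ulim_smul _ _ _ } 1 (by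
      intro g
      rw [one_mul, ContinuousMap.norm_le _ (norm_nonneg _)]
      intro x
      exact abs_ulim_le _ _)
  have hα : ∀ f (U : FJ J), αL f U = ulim (U : Ultrafilter ℕ) f := fun f U => rfl
  have hker : ∀ f, αL f = 0 → S (qmap f) = 0 := by
    intro f hf
    rw [← norm_le_zero_iff]
    refine le_of_forall_pos_le_add ?_
    intro ε hε
    rw [zero_add]
    classical
    let δ := ε / (‖S‖ + 1)
    have hδ : 0 < δ := by positivity
    let A : Set ℕ := {n | δ < |f n|}
    have hA : A ∈ J := by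
      by_contra hcon
      obtain ⟨U, hU, hAU⟩ := exists_mem_FJ hJ A hcon
      have h1 : ulim U f = 0 := by
        have := congrArg (fun g => g ⟨U, hU⟩) hf
        exact this
      have h2 := mem_near U f δ hδ
      rw [h1] at h2
      obtain ⟨n, hn1, hn2⟩ := U.nonempty_of_mem (Filter.inter_mem hAU h2)
      simp only [sub_zero, mem_ofPred_eq] at hn2
      have : δ < |f n| := hn1
      linarith
    let f1 : Linf ℕ := mkInf (fun n => if n ∈ A then f n else 0) ‖f‖ (by
      intro n
      split_ifs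
      · exact abs_apply_le f n
      · simp)
    have h1 : S (qmap f1) = 0 := hS A hA f1 (by
      intro n hn
      simp only [f1, mkInf_apply]
      rw [if_neg hn])
    have h2 : ‖f - f1‖ ≤ δ := by
      refine norm_le_of hδ.le (fun n => ?_)
      rw [sub_apply']
      simp only [f1, mkInf_apply]
      split_ifs with hn
      · rw [sub_self, abs_zero]; exact hδ.le
      · rw [sub_zero]
        exact not_lt.1 hn
    calc ‖S (qmap f)‖ = ‖S (qmap (f - f1))‖ := by rw [map_sub, map_sub, h1, sub_zero]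
      _ ≤ ‖S‖ * ‖qmap (f - f1)‖ := S.le_opNorm _
      _ ≤ ‖S‖ * δ := by
        gcongr
        exact le_trans (Submodule.Quotient.norm_mk_le c0 _) h2
      _ ≤ (‖S‖ + 1) * δ := by gcongr; linarith
      _ = ε := by simp only [δ]; field_simp
  have hext : ∀ g : C(FJ J, ℝ), ∃ f : Linf ℕ, ‖f‖ ≤ ‖g‖ ∧ αL f = g := by
    intro g
    obtain ⟨G, hG1, hG2⟩ := BoundedContinuousFunction.exists_extension_norm_eq_of_isClosedEmbedding
      (BoundedContinuousFunction.mkOfCompact g) (isClosed_FJ J).isClosedEmbedding_subtypeVal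
    refine ⟨mkInf (fun n => G (pure n)) ‖g‖ ?_, ?_, ?_⟩
    · intro n
      have := G.norm_coe_le_norm (pure n)
      rw [hG1] at this
      simpa using this
    · refine norm_le_of (norm_nonneg _) (fun n => ?_)
      have := G.norm_coe_le_norm (pure n)
      rw [hG1] at this
      simpa using this
    · ext U
      rw [hα]
      apply ulim_eq
      have h1 : Tendsto (fun n : ℕ => (pure n : Ultrafilter ℕ)) (U : Ultrafilter ℕ)
          (𝓝 (U : Ultrafilter ℕ)) := Ultrafilter.tendsto_pure_self (U : Ultrafilter ℕ)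
      have h2 := (G.continuous.tendsto (U : Ultrafilter ℕ)).comp h1
      have h3 : G (U : Ultrafilter ℕ) = g U := congrFun hG2 U
      rw [← h3]
      exact h2
  choose E hE1 hE2 using hext
  have hEeq : ∀ f g, αL f = αL g → S (qmap f) = S (qmap g) := by
    intro f g hfg
    have : αL (f - g) = 0 := by rw [map_sub, hfg, sub_self]
    have h1 := hker _ this
    rw [map_sub, map_sub, sub_eq_zero] at h1
    exact h1
  let β : C(FJ J, ℝ) →L[ℝ] Q := LinearMap.mkContinuous
    { toFun := fun g => S (qmap (E g))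
      map_add' := by
        intro f g
        rw [← map_add, ← map_add]
        apply hEeq
        rw [map_add, hE2, hE2, hE2]
      map_smul' := by
        intro c f
        rw [RingHom.id_apply, ← map_smul, ← map_smul]
        apply hEeq
        rw [map_smul, hE2, hE2] } ‖S‖ (by
      intro g
      show ‖S (qmap (E g))‖ ≤ _
      calc ‖S (qmap (E g))‖ ≤ ‖S‖ * ‖qmap (E g)‖ := S.le_opNorm _
        _ ≤ ‖S‖ * ‖g‖ := by
          gcongr
          exact le_trans (Submodule.Quotient.norm_mk_le c0 _) (hE1 g))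
  let α : Q →L[ℝ] C(FJ J, ℝ) := c0.liftQL αL (by
    intro f hf
    show αL f = 0
    ext U
    rw [hα]
    apply ulim_eq
    have h1 : (↑(U : Ultrafilter ℕ) : Filter ℕ) ≤ atTop := by
      rw [← Nat.cofinite_eq_atTop]
      intro s hs
      have h2 : sᶜ ∈ J := hJ.fin _ hs
      have h3 := U.2 _ h2
      by_contra hcon
      exact h3 (Ultrafilter.compl_mem_iff_notMem.2 hcon)
    exact Tendsto.mono_left (mem_c0.1 hf) h1)
  refine ⟨α, β, fun q => ?_⟩
  obtain ⟨f, rfl⟩ := qmap_surj q
  show S (qmap f) = S (qmap (E (αL f)))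
  exact hEeq _ _ (hE2 _).symm

end MP4ea76a
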