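import Pool.Agent.Lib.MP_4ea76a_an.NoFactor

open Filter Topology Set
open scoped ENNReal

noncomputable section

namespace MP4ea76a

theorem sub_apply' {ι : Type} (f g : Linf ι) (k : ι) : (f - g) k = f k - g k := rfl
theorem add_apply' {ι : Type} (f g : Linf ι) (k : ι) : (f + g) k = f k + g k := rfl
theorem smul_apply' {ι : Type} (s : ℝ) (g : Linf ι) (k : ι) : (s • g) k = s * g k := rfl

/-- finitely supported sequences vanishing before `n` -/
def FS (n : ℕ) : Submodule ℝ (Linf ℕ) where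
  carrier := {f | (∀ i < n, f i = 0) ∧ ∃ N, ∀ i ≥ N, f i = 0}
  add_mem' := by
    rintro f g ⟨hf1, N, hf2⟩ ⟨hg1, M, hg2⟩
    refine ⟨fun i hi => ?_, max N M, fun i hi => ?_⟩
    · rw [add_apply', hf1 i hi, hg1 i hi, add_zero]
    · rw [add_apply', hf2 i (le_trans (le_max_left _ _) hi), hg2 i (le_trans (le_max_right _ _) hi),
        add_zero]
  zero_mem' := ⟨fun i _ => rfl, 0, fun i _ => rfl⟩
  smul_mem' := by
    rintro c f ⟨hf1, N, hf2⟩
    refine ⟨fun i hi => ?_, N, fun i hi => ?_⟩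
    · rw [smul_apply', hf1 i hi, mul_zero]
    · rw [smul_apply', hf2 i hi, mul_zero]

theorem mem_FS {n : ℕ} {f : Linf ℕ} : f ∈ FS n ↔ (∀ i < n, f i = 0) ∧ ∃ N, ∀ i ≥ N, f i = 0 :=
  Iff.rfl

theorem FS_le_c0 {n : ℕ} {f : Linf ℕ} (h : f ∈ FS n) : f ∈ c0 := by
  obtain ⟨_, N, hN⟩ := mem_FS.1 h
  rw [mem_c0']
  intro ε hε
  exact ⟨N, fun i hi => by rw [hN i hi, abs_zero]; exact hε.le⟩

theorem ind_mem_FS {n i : ℕ} (h : n ≤ i) : ind {i} ∈ FS n := by
  refine ⟨fun k hk => ind_apply_notMem (by simp; omega), i + 1, fun k hk =>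
    ind_apply_notMem (by simp; omega)⟩

/-- cutting off the first `n` coordinates -/
def cut (n : ℕ) : Linf ℕ →L[ℝ] Linf ℕ :=
  assemble (fun i =>
    { toFun := fun f => if i < n then 0 else f i
      map_add' := by intro f g; split_ifs <;> simp
      map_smul' := by intro c f; split_ifs <;> simp }) 1
    (by
      intro i f
      rw [one_mul]
      show |if i < n then 0 else f i| ≤ ‖f‖
      split_ifs
      · simp
      · exact abs_apply_le f i)

theorem cut_apply (n : ℕ) (f : Linf ℕ) (i : ℕ) : cut n f i = if i < n then 0 else f i := rfl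

theorem norm_cut_le (n : ℕ) (f : Linf ℕ) : ‖cut n f‖ ≤ ‖f‖ := by
  refine norm_le_of (norm_nonneg _) (fun i => ?_)
  rw [cut_apply]
  split_ifs
  · simp
  · exact abs_apply_le f i

theorem kill_c0 {E : Type} [NormedAddCommGroup E] [NormedSpace ℝ E] (K : Linf ℕ →L[ℝ] E) (n : ℕ)
    (h : ∀ i ≥ n, K (ind {i}) = 0) (f : Linf ℕ) (hf : f ∈ c0) (hf0 : ∀ i < n, f i = 0) :
    K f = 0 := by
  rw [← norm_le_zero_iff]
  refine le_of_forall_pos_le_add ?_
  intro ε hε
  rw [zero_add]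
  obtain ⟨N, hN⟩ := mem_c0'.1 hf (ε / (‖K‖ + 1)) (by positivity)
  let g : Linf ℕ := ∑ i ∈ Finset.range N, f i • ind {i}
  have hg : K g = 0 := by
    simp only [g, map_sum]
    apply Finset.sum_eq_zero
    intro i _
    rw [map_smul]
    by_cases hi : i < n
    · rw [hf0 i hi, zero_smul]
    · rw [h i (by omega), smul_zero]
  have hgv : ∀ k, g k = if k < N then f k else 0 := by
    intro k
    have h1 : g k = ∑ i ∈ Finset.range N, f i * ind {i} k := by
      simp only [g]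
      rw [lp.coeFn_sum, Finset.sum_apply]
      rfl
    rw [h1]
    have h2 : ∀ i ∈ Finset.range N, f i * ind {i} k = if k = i then f i else 0 := by
      intro i _
      by_cases hk : k = i
      · rw [if_pos hk, ind_apply_mem (by simpa using hk), mul_one]
      · rw [if_neg hk, ind_apply_notMem (by simpa using hk), mul_zero]
    rw [Finset.sum_congr rfl h2, Finset.sum_ite_eq]
    simp
  have h1 : ‖f - g‖ ≤ ε / (‖K‖ + 1) := by
    refine norm_le_of (by positivity) (fun k => ?_)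
    rw [sub_apply', hgv]
    split_ifs with hk
    · rw [sub_self, abs_zero]; positivity
    · rw [sub_zero]; exact hN k (by omega)
  calc ‖K f‖ = ‖K (f - g)‖ := by rw [map_sub, hg, sub_zero]
    _ ≤ ‖K‖ * ‖f - g‖ := K.le_opNorm _
    _ ≤ (‖K‖ + 1) * (ε / (‖K‖ + 1)) := by gcongr; linarith
    _ = ε := by field_simp

/-- the coordinate functional -/
def evalL (i : ℕ) : Linf ℕ →L[ℝ] ℝ :=
  LinearMap.mkContinuous { toFun := fun f => f i, map_add' := by simp, map_smul' := by simp } 1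
    (by intro f; rw [one_mul]; exact abs_apply_le f i)

@[simp] theorem evalL_apply (i : ℕ) (f : Linf ℕ) : evalL i f = f i := rfl

theorem norm_evalL_le (i : ℕ) : ‖evalL i‖ ≤ 1 := LinearMap.mkContinuous_norm_le _ zero_le_one _

section Blocks

variable (L : Linf ℕ →L[ℝ] Linf ℕ) (hL : ∀ f ∈ c0, L f ∈ c0)

/-- If `L` is not bounded below on tails of `c₀`, then after composing with an isomorphic
embedding induced by a block sequence it becomes an operator extending from `c₀` into `c₀`. -/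
theorem exists_blocks (hL : ∀ f ∈ c0, L f ∈ c0)
    (H : ∀ n i : ℕ, ∃ f : Linf ℕ, ∃ N : ℕ, n < N ∧ (∀ k < n, f k = 0) ∧ (∀ k ≥ N, f k = 0) ∧
      ‖f‖ = 1 ∧ ‖L f‖ ≤ (1 / 2) ^ i) :
    ∃ (ι Λ : Linf ℕ →L[ℝ] Linf ℕ) (hι : ∀ f ∈ c0, ι f ∈ c0),
      (∀ q, (1 / 2) * ‖q‖ ≤ ‖indMap ι hι q‖) ∧ (∀ f, Λ f ∈ c0) ∧
        ∀ f ∈ c0, L (ι f) = Λ f := by
  choose F E hE hF1 hF2 hF3 hF4 using H
  let nn : ℕ → ℕ := fun i => Nat.rec (motive := fun _ => ℕ) 0 (fun i m => E m i) i
  have nn0 : nn 0 = 0 := rfl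
  have nn1 : ∀ i, nn (i + 1) = E (nn i) i := fun i => rfl
  have hnn : StrictMono nn := strictMono_nat_of_lt_succ (fun i => by rw [nn1]; exact hE _ _)
  let ff : ℕ → Linf ℕ := fun i => F (nn i) i
  let b : ℕ → ℕ := fun k => Nat.findGreatest (fun i => nn i ≤ k) k
  have hb1 : ∀ k, nn (b k) ≤ k := fun k =>
    Nat.findGreatest_spec (P := fun i => nn i ≤ k) (Nat.zero_le k) (by rw [nn0]; omega)
  have hb2 : ∀ k, k < nn (b k + 1) := by
    intro k
    by_contra hcon
    push Not at hcon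
    have h1 : b k + 1 ≤ k := le_trans hnn.le_apply hcon
    have h2 : b k + 1 ≤ b k := Nat.le_findGreatest h1 hcon
    omega
  have hb3 : ∀ k i, nn i ≤ k → i ≤ b k := by
    intro k i hi
    exact Nat.le_findGreatest (le_trans hnn.le_apply hi) hi
  have hb4 : ∀ k i, nn i ≤ k → k < nn (i + 1) → b k = i := by
    intro k i h1 h2
    apply le_antisymm
    · by_contra hcon
      push Not at hcon
      have : nn (i + 1) ≤ nn (b k) := hnn.monotone hcon
      have := hb1 k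
      omega
    · exact hb3 k i h1
  have hff0 : ∀ i k, b k ≠ i → ff i k = 0 := by
    intro i k hk
    by_cases h1 : k < nn i
    · exact hF1 _ _ k h1
    · by_cases h2 : k < nn (i + 1)
      · exact absurd (hb4 k i (by omega) h2) hk
      · exact hF2 _ _ k (by rw [← nn1]; omega)
  have hffn : ∀ i, ‖ff i‖ = 1 := fun i => hF3 _ _
  have hffc : ∀ i, ff i ∈ c0 := fun i => FS_le_c0 (n := nn i) ⟨hF1 _ _, _, hF2 _ _⟩
  -- the block embedding
  let ι : Linf ℕ →L[ℝ] Linf ℕ := assemble (fun k =>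
    { toFun := fun θ => θ (b k) * ff (b k) k
      map_add' := by intro x y; rw [add_apply']; ring
      map_smul' := by intro a x; rw [smul_apply']; simp only [smul_eq_mul, RingHom.id_apply]; ring }) 1
      (by
        intro k θ
        show |θ (b k) * ff (b k) k| ≤ _
        rw [abs_mul, mul_comm]
        gcongr
        · exact le_trans (abs_apply_le _ _) (hffn _).le
        · exact abs_apply_le _ _)
  have hιa : ∀ θ k, ι θ k = θ (b k) * ff (b k) k := fun θ k => rfl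
  have hι : ∀ f ∈ c0, ι f ∈ c0 := by
    intro f hf
    rw [mem_c0'] at hf ⊢
    intro ε hε
    obtain ⟨N, hN⟩ := hf ε hε
    refine ⟨nn N, fun k hk => ?_⟩
    rw [hιa, abs_mul]
    have h1 := hN (b k) (hb3 k N hk)
    have h2 : |ff (b k) k| ≤ 1 := le_trans (abs_apply_le _ _) (hffn _).le
    calc |f (b k)| * |ff (b k) k| ≤ ε * 1 := by gcongr
      _ = ε := mul_one _
  have hιe : ∀ i, ι (ind {i}) = ff i := by
    intro i
    ext k
    rw [hιa]
    by_cases hk : b k = i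
    · rw [ind_apply_mem (by simpa using hk), one_mul, hk]
    · rw [ind_apply_notMem (by simpa using hk), zero_mul, hff0 i k hk]
  -- the series operator
  let t : ℕ → (Linf ℕ →L[ℝ] Linf ℕ) := fun i => (evalL i).smulRight (L (ff i))
  have ht : ∀ i, ‖t i‖ ≤ (1 / 2) ^ i := by
    intro i
    rw [ContinuousLinearMap.norm_smulRight_apply]
    calc ‖evalL i‖ * ‖L (ff i)‖ ≤ 1 * (1 / 2) ^ i := by
          gcongr
          · exact norm_evalL_le i
          · exact hF4 _ _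
      _ = _ := one_mul _
  have hts : Summable t := Summable.of_norm_bounded (g := fun i : ℕ => ((1 : ℝ) / 2) ^ i)
    (summable_geometric_of_lt_one (by norm_num) (by norm_num)) ht
  have hsum : ∀ θ, HasSum (fun i => θ i • L (ff i)) ((∑' i, t i) θ) := by
    intro θ
    have h1 := (ContinuousLinearMap.apply ℝ (Linf ℕ) θ).hasSum hts.hasSum
    exact h1
  refine ⟨ι, ∑' i, t i, hι, ?_, ?_, ?_⟩
  · intro q
    obtain ⟨θ, rfl⟩ := qmap_surj q
    rw [indMap_qmap]
    refine le_of_forall_gt_imp_ge_of_dense ?_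
    intro r hr
    obtain ⟨N, hN⟩ := eventually_le_of_norm_qmap_lt hr
    have hr0 : 0 ≤ r := le_trans (norm_nonneg _) hr.le
    have h2 : ‖qmap θ‖ ≤ 2 * r := by
      refine norm_qmap_le (by linarith) ?_
      intro ε hε
      refine ⟨N, fun i hi => ?_⟩
      obtain ⟨k, hk⟩ : ∃ k, 1 / 2 < |ff i k| := by
        by_contra hcon
        push Not at hcon
        have := norm_le_of (f := ff i) (by norm_num) hcon
        rw [hffn] at this
        norm_num at this
      have hbk : b k = i := by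
        by_contra hcon
        rw [hff0 i k hcon, abs_zero] at hk
        norm_num at hk
      have hkN : N ≤ k := by
        have h3 := hb1 k
        rw [hbk] at h3
        exact le_trans hi (le_trans hnn.le_apply h3)
      have h4 := hN k hkN
      rw [hιa, hbk, abs_mul] at h4
      have h5 : |θ i| * (1 / 2) ≤ |θ i| * |ff i k| := by gcongr
      linarith
    linarith
  · intro θ
    have h1 := (hsum θ).tendsto_sum_nat
    refine isClosed_c0.mem_of_tendsto h1 (Eventually.of_forall (fun n => ?_))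
    exact c0.sum_mem (fun i _ => c0.smul_mem _ (hL _ (hffc i)))
  · intro f hf
    have h1 : ∀ i ≥ 0, (L ∘L ι - ∑' i, t i) (ind {i}) = 0 := by
      intro i _
      have h2 : (∑' i, t i) (ind {i}) = L (ff i) := by
        have h3 := hsum (ind {i})
        have h4 : HasSum (fun j => ind {i} j • L (ff j)) (L (ff i)) := by
          have h5 := hasSum_single (f := fun j => ind {i} j • L (ff j)) i (by
            intro j hj
            show ind {i} j • L (ff j) = 0
            rw [ind_apply_notMem (by simpa using hj), zero_smul])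
          have h6 : ind {i} i • L (ff i) = L (ff i) := by
            rw [ind_apply_mem (mem_singleton _), one_smul]
          rw [h6] at h5
          exact h5
        exact h3.unique h4
      show L (ι (ind {i})) - (∑' i, t i) (ind {i}) = 0
      rw [h2, hιe, sub_self]
    have h2 := kill_c0 (L ∘L ι - ∑' i, t i) 0 h1 f hf (by intro i hi; omega)
    have h3 : L (ι f) - (∑' i, t i) f = 0 := h2
    exact sub_eq_zero.1 h3

end Blocks

/-- A liftable operator whose sum with an operator factoring through an injective space is an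
isomorphic embedding is bounded below on the finitely supported sequences with large support. -/
theorem ess_bdd_below {I : Type} [NormedAddCommGroup I] [NormedSpace ℝ I] (hI : IsInjectiveSpace I)
    (T : Q →L[ℝ] Q) (c : ℝ) (hc : 0 < c) (hT : ∀ q, c * ‖q‖ ≤ ‖T q‖)
    (L : Linf ℕ →L[ℝ] Linf ℕ) (hL : ∀ f ∈ c0, L f ∈ c0) (α : Q →L[ℝ] I) (β : I →L[ℝ] Q)
    (h : ∀ f, T (qmap f) = qmap (L f) + β (α (qmap f))) :
    ∃ n : ℕ, ∃ δ > 0, ∀ f ∈ FS n, δ * ‖f‖ ≤ ‖L f‖ := by
  by_contra hcon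
  push Not at hcon
  have H : ∀ n i : ℕ, ∃ f : Linf ℕ, ∃ N : ℕ, n < N ∧ (∀ k < n, f k = 0) ∧ (∀ k ≥ N, f k = 0) ∧
      ‖f‖ = 1 ∧ ‖L f‖ ≤ (1 / 2) ^ i := by
    intro n i
    obtain ⟨f, hf, hlt⟩ := hcon n ((1 / 2) ^ i) (by positivity)
    have hfn : ‖f‖ ≠ 0 := by
      intro h0
      rw [h0, mul_zero] at hlt
      exact absurd (norm_nonneg (L f)) (by linarith)
    have hfp : 0 < ‖f‖ := lt_of_le_of_ne (norm_nonneg _) (Ne.symm hfn)
    obtain ⟨h1, N, h2⟩ := mem_FS.1 ((FS n).smul_mem (‖f‖⁻¹) hf)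
    refine ⟨‖f‖⁻¹ • f, max N (n + 1), by omega, h1, fun k hk => h2 k (le_trans (le_max_left _ _) hk),
      ?_, ?_⟩
    · rw [norm_smul, norm_inv, norm_norm]
      exact inv_mul_cancel₀ hfn
    · rw [map_smul, norm_smul, norm_inv, norm_norm, inv_mul_le_iff₀ hfp]
      linarith
  obtain ⟨ι, Λ, hι, h1, h2, h3⟩ := exists_blocks L hL H
  let K : Linf ℕ →L[ℝ] Linf ℕ := L ∘L ι - Λ
  let Kb : Q →L[ℝ] Linf ℕ := c0.liftQL K (by
    intro f hf
    show L (ι f) - Λ f = 0
    rw [h3 f hf, sub_self])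
  have hKb : ∀ f, Kb (qmap f) = L (ι f) - Λ f := fun f => rfl
  refine no_factor (injective_prod (injective_Linf ℕ) hI) (T ∘L indMap ι hι) (c * (1 / 2))
    (by positivity) ?_ (Kb.prod (α ∘L indMap ι hι))
    (qmap ∘L (ContinuousLinearMap.fst ℝ (Linf ℕ) I) + β ∘L (ContinuousLinearMap.snd ℝ (Linf ℕ) I)) ?_
  · intro q
    calc c * (1 / 2) * ‖q‖ = c * ((1 / 2) * ‖q‖) := by ring
      _ ≤ c * ‖indMap ι hι q‖ := by gcongr; exact h1 q
      _ ≤ ‖T (indMap ι hι q)‖ := hT _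
  · intro q
    obtain ⟨f, rfl⟩ := qmap_surj q
    show T (indMap ι hι (qmap f)) = qmap (Kb (qmap f)) + β (α (indMap ι hι (qmap f)))
    rw [indMap_qmap, h, hKb, map_sub, qmap_eq_zero.2 (h2 f), sub_zero]

/-- almost norming functionals away from the first coordinates -/
theorem star (L : Linf ℕ →L[ℝ] Linf ℕ) (n : ℕ) (δ : ℝ) (hδ : 0 < δ)
    (hL : ∀ f ∈ FS n, δ * ‖f‖ ≤ ‖L f‖) (m : ℕ) (ε : ℝ) (hε : 0 < ε) :
    ∀ᶠ j in atTop, ∀ f ∈ FS n, |f j| ≤ (4 / δ) * ‖cut m (L f)‖ + ε * ‖f‖ := by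
  by_contra hcon
  rw [not_eventually] at hcon
  -- normalized witnesses
  have hw : ∃ᶠ j in atTop, ∃ f ∈ FS n, f j = 1 ∧ (4 / δ) * ‖cut m (L f)‖ + ε * ‖f‖ < 1 := by
    refine hcon.mono ?_
    intro j hj
    push Not at hj
    obtain ⟨f, hf, hlt⟩ := hj
    have hpos : 0 < |f j| := lt_of_le_of_lt (by positivity) hlt
    refine ⟨(f j)⁻¹ • f, (FS n).smul_mem _ hf, ?_, ?_⟩
    · rw [smul_apply']
      exact inv_mul_cancel₀ (abs_pos.1 hpos)
    · rw [map_smul, map_smul, norm_smul, norm_smul, norm_inv, Real.norm_eq_abs]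
      have h1 : (4 / δ) * (|f j|⁻¹ * ‖cut m (L f)‖) + ε * (|f j|⁻¹ * ‖f‖) =
        |f j|⁻¹ * ((4 / δ) * ‖cut m (L f)‖ + ε * ‖f‖) := by ring
      rw [h1, inv_mul_lt_iff₀ hpos, mul_one]
      exact hlt
  obtain ⟨js, hjs, hex⟩ := extraction_of_frequently_atTop hw
  choose F hF1 hF2 hF3 using hex
  have hFn : ∀ s, ‖F s‖ ≤ 1 / ε := by
    intro s
    rw [le_div_iff₀ hε]
    have h1 := hF3 s
    have h2 : 0 ≤ (4 / δ) * ‖cut m (L (F s))‖ := by positivity
    linarith
  -- the initial coordinates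
  let v : ℕ → (Fin m → ℝ) := fun s i => L (F s) i
  have hv : ∀ s, v s ∈ Metric.closedBall (0 : Fin m → ℝ) (‖L‖ * (1 / ε)) := by
    intro s
    rw [mem_closedBall_zero_iff, pi_norm_le_iff_of_nonneg (by positivity)]
    intro i
    calc ‖v s i‖ ≤ ‖L (F s)‖ := abs_apply_le _ _
      _ ≤ ‖L‖ * ‖F s‖ := L.le_opNorm _
      _ ≤ ‖L‖ * (1 / ε) := by gcongr; exact hFn s
  obtain ⟨a, _, ψ, hψ, hlim⟩ := tendsto_subseq_of_bounded Metric.isBounded_closedBall hv
  have hcau := hlim.cauchySeq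
  obtain ⟨N, hN⟩ := Metric.cauchySeq_iff.1 hcau (δ / 2) (by positivity)
  -- choose a later index beyond the support
  obtain ⟨M, hM⟩ := (mem_FS.1 (hF1 (ψ N))).2
  let t := max N M
  have ht1 : N ≤ t := le_max_left _ _
  have ht2 : M ≤ js (ψ t) := le_trans (le_max_right _ _) (le_trans hψ.le_apply hjs.le_apply)
  let h := F (ψ t) - F (ψ N)
  have hh : h ∈ FS n := (FS n).sub_mem (hF1 _) (hF1 _)
  have hh1 : h (js (ψ t)) = 1 := by
    show F (ψ t) (js (ψ t)) - F (ψ N) (js (ψ t)) = 1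
    rw [hF2, hM _ ht2, sub_zero]
  have hh2 : 1 ≤ ‖h‖ := by
    have := abs_apply_le h (js (ψ t))
    rw [hh1, abs_one] at this
    exact this
  have hcut : ∀ s, ‖cut m (L (F s))‖ ≤ δ / 4 := by
    intro s
    have h1 := hF3 s
    have h2 : 0 ≤ ε * ‖F s‖ := by positivity
    have h3 : (4 / δ) * ‖cut m (L (F s))‖ < 1 := by linarith
    rw [div_mul_eq_mul_div, div_lt_one hδ] at h3
    linarith
  have hLh : ‖L h‖ ≤ δ / 2 := by
    refine norm_le_of (by positivity) (fun k => ?_)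
    have e1 : L h k = L (F (ψ t)) k - L (F (ψ N)) k := by
      show L (F (ψ t) - F (ψ N)) k = _
      rw [map_sub]; rfl
    rw [e1]
    by_cases hk : k < m
    · have h1 := hN t ht1 N le_rfl
      have h2 := (dist_pi_lt_iff (by positivity)).1 h1 ⟨k, hk⟩
      rw [Real.dist_eq] at h2
      exact h2.le
    · have h1 : |L (F (ψ t)) k| ≤ δ / 4 := by
        refine le_trans (le_of_eq ?_) (le_trans (abs_apply_le (cut m (L (F (ψ t)))) k) (hcut _))
        rw [cut_apply, if_neg hk]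
      have h2 : |L (F (ψ N)) k| ≤ δ / 4 := by
        refine le_trans (le_of_eq ?_) (le_trans (abs_apply_le (cut m (L (F (ψ N)))) k) (hcut _))
        rw [cut_apply, if_neg hk]
      have h3 := abs_sub (L (F (ψ t)) k) (L (F (ψ N)) k)
      linarith
  have := hL h hh
  nlinarith

/-- Hahn-Banach for the almost norming functionals -/
theorem hb_star (L : Linf ℕ →L[ℝ] Linf ℕ) (n : ℕ) (C : ℝ) (hC : 0 ≤ C) (m j : ℕ) (ε : ℝ)
    (hε : 0 ≤ ε) (H : ∀ f ∈ FS n, |f j| ≤ C * ‖cut m (L f)‖ + ε * ‖f‖) :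
    ∃ φ ψ : Linf ℕ →ₗ[ℝ] ℝ, (∀ g, |φ g| ≤ C * ‖cut m g‖) ∧ (∀ f, |ψ f| ≤ ε * ‖f‖) ∧
      ∀ f ∈ FS n, φ (L f) + ψ f = f j := by
  let V : Submodule ℝ (Linf ℕ × Linf ℕ) :=
    Submodule.map (LinearMap.prod ((cut m ∘L L : Linf ℕ →L[ℝ] Linf ℕ) : Linf ℕ →ₗ[ℝ] Linf ℕ)
      LinearMap.id) (FS n)
  let f0 : (Linf ℕ × Linf ℕ) →ₗ.[ℝ] ℝ :=
    ⟨V, ((evalL j : Linf ℕ →L[ℝ] ℝ) : Linf ℕ →ₗ[ℝ] ℝ) ∘ₗ (LinearMap.snd ℝ _ _) ∘ₗ V.subtype⟩
  obtain ⟨g, hg1, hg2⟩ := exists_extension_of_le_sublinear f0 (fun x => C * ‖x.1‖ + ε * ‖x.2‖)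
    (by
      intro a ha x
      simp only [Prod.smul_fst, Prod.smul_snd, norm_smul, Real.norm_eq_abs, abs_of_pos ha]
      ring)
    (by
      intro x y
      have h1 := norm_add_le x.1 y.1
      have h2 := norm_add_le x.2 y.2
      have h3 := mul_le_mul_of_nonneg_left h1 hC
      have h4 := mul_le_mul_of_nonneg_left h2 hε
      simp only [Prod.fst_add, Prod.snd_add]
      linarith)
    (by
      rintro ⟨x, f, hf, rfl⟩
      show f j ≤ C * ‖cut m (L f)‖ + ε * ‖f‖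
      exact le_trans (le_abs_self _) (H f hf))
  have hg3 : ∀ x, |g x| ≤ C * ‖x.1‖ + ε * ‖x.2‖ := by
    intro x
    rw [abs_le]
    constructor
    · have := hg2 (-x)
      simp only [map_neg, Prod.fst_neg, Prod.snd_neg, norm_neg] at this
      linarith
    · exact hg2 x
  refine ⟨g ∘ₗ (LinearMap.inl ℝ _ _) ∘ₗ ((cut m : Linf ℕ →L[ℝ] Linf ℕ) : Linf ℕ →ₗ[ℝ] Linf ℕ),
    g ∘ₗ (LinearMap.inr ℝ _ _), ?_, ?_, ?_⟩
  · intro u
    have := hg3 (cut m u, 0)
    simpa using this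
  · intro f
    have := hg3 (0, f)
    simpa using this
  · intro f hf
    have h1 := hg1 ⟨(cut m (L f), f), ⟨f, hf, rfl⟩⟩
    have h2 : g (cut m (L f), f) = f j := h1
    show g (cut m (L f), 0) + g (0, f) = f j
    rw [← map_add, Prod.mk_add_mk, add_zero, zero_add, h2]

/-- The left inverse modulo operators factoring through `ℓ∞`. -/
theorem exists_left (L : Linf ℕ →L[ℝ] Linf ℕ) (hL : ∀ f ∈ c0, L f ∈ c0) (n : ℕ) (δ : ℝ)
    (hδ : 0 < δ) (hb : ∀ f ∈ FS n, δ * ‖f‖ ≤ ‖L f‖) :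
    ∃ (N : Linf ℕ →L[ℝ] Linf ℕ) (_ : ∀ f ∈ c0, N f ∈ c0) (K : Q →L[ℝ] Linf ℕ),
      ∀ f, qmap f = qmap (N (L f)) + qmap (K (qmap f)) := by
  classical
  let C : ℝ := 4 / δ
  have hC : 0 ≤ C := by positivity
  let Good : ℕ → ℕ → Prop := fun m j =>
    ∀ f ∈ FS n, |f j| ≤ C * ‖cut m (L f)‖ + (1 / ((m : ℝ) + 1)) * ‖f‖
  have hG1 : ∀ m, ∀ᶠ j in atTop, Good m j := fun m => star L n δ hδ hb m _ (by positivity)
  have hG0 : ∀ j, Good 0 j := by
    intro j f hf
    have h1 := abs_apply_le f j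
    have h2 : 0 ≤ C * ‖cut 0 (L f)‖ := by positivity
    simp only [Nat.cast_zero, zero_add, div_one, one_mul]
    linarith
  let μ : ℕ → ℕ := fun j => Nat.findGreatest (fun m => Good m j) j
  have hμ1 : ∀ j, Good (μ j) j := fun j =>
    Nat.findGreatest_spec (P := fun m => Good m j) (Nat.zero_le j) (hG0 j)
  have hμ2 : Tendsto μ atTop atTop := by
    rw [tendsto_atTop]
    intro M
    filter_upwards [hG1 M, eventually_ge_atTop M] with j h1 h2
    exact Nat.le_findGreatest h2 h1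
  have hex := fun j => hb_star L n C hC (μ j) j (1 / ((μ j : ℝ) + 1)) (by positivity) (hμ1 j)
  choose φ ψ hφ hψ hφψ using hex
  have hμle : ∀ j, 1 / ((μ j : ℝ) + 1) ≤ 1 := by
    intro j
    rw [div_le_one (by positivity)]
    have : (0 : ℝ) ≤ μ j := Nat.cast_nonneg _
    linarith
  let N : Linf ℕ →L[ℝ] Linf ℕ := assemble φ C (fun j g => le_trans (hφ j g) (by
    gcongr; exact norm_cut_le _ _))
  let Ψ : Linf ℕ →L[ℝ] Linf ℕ := assemble ψ 1 (fun j f => le_trans (hψ j f) (by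
    gcongr; exact hμle j))
  have hN : ∀ f ∈ c0, N f ∈ c0 := by
    intro f hf
    rw [mem_c0'] at hf ⊢
    intro ε hε
    obtain ⟨M, hM⟩ := hf (ε / (C + 1)) (by positivity)
    obtain ⟨J, hJ⟩ := eventually_atTop.1 (tendsto_atTop.1 hμ2 M)
    refine ⟨J, fun j hj => ?_⟩
    have h1 : ‖cut (μ j) f‖ ≤ ε / (C + 1) := by
      refine norm_le_of (by positivity) (fun k => ?_)
      rw [cut_apply]
      split_ifs with hk
      · rw [abs_zero]; positivity
      · exact hM k (le_trans (hJ j hj) (by omega))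
    calc |N f j| ≤ C * ‖cut (μ j) f‖ := hφ j f
      _ ≤ (C + 1) * (ε / (C + 1)) := by gcongr; linarith
      _ = ε := by field_simp
  have hΨ : ∀ f, Ψ f ∈ c0 := by
    intro f
    rw [mem_c0]
    have h1 : Tendsto (fun j => (1 / ((μ j : ℝ) + 1)) * ‖f‖) atTop (𝓝 (0 * ‖f‖)) := by
      apply Tendsto.mul_const
      exact tendsto_one_div_add_atTop_nhds_zero_nat.comp hμ2
    rw [zero_mul] at h1
    exact squeeze_zero_norm (fun j => hψ j f) h1
  let K0 : Linf ℕ →L[ℝ] Linf ℕ := ContinuousLinearMap.id ℝ _ - N ∘L L - Ψ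
  have hK0 : ∀ f, K0 f = f - N (L f) - Ψ f := fun f => rfl
  have hK0e : ∀ i ≥ n, K0 (ind {i}) = 0 := by
    intro i hi
    ext j
    rw [hK0, sub_apply', sub_apply']
    have h1 := hφψ j (ind {i}) (ind_mem_FS hi)
    show ind {i} j - φ j (L (ind {i})) - ψ j (ind {i}) = 0
    linarith
  have hcutc : ∀ f ∈ c0, cut n f ∈ c0 := by
    intro f hf
    rw [mem_c0'] at hf ⊢
    intro ε hε
    obtain ⟨M, hM⟩ := hf ε hε
    refine ⟨M, fun k hk => ?_⟩
    rw [cut_apply]
    split_ifs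
    · rw [abs_zero]; exact hε.le
    · exact hM k hk
  have hdiff : ∀ f, cut n f - f ∈ c0 := by
    intro f
    rw [mem_c0']
    intro ε hε
    refine ⟨n, fun k hk => ?_⟩
    rw [sub_apply', cut_apply, if_neg (by omega), sub_self, abs_zero]
    exact hε.le
  refine ⟨N, hN, c0.liftQL (K0 ∘L cut n) ?_, ?_⟩
  · intro f hf
    show K0 (cut n f) = 0
    exact kill_c0 K0 n hK0e (cut n f) (hcutc f hf) (by intro i hi; rw [cut_apply, if_pos hi])
  · intro f
    have h1 : (c0.liftQL (K0 ∘L cut n) (by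
        intro f hf
        show K0 (cut n f) = 0
        exact kill_c0 K0 n hK0e (cut n f) (hcutc f hf) (by intro i hi; rw [cut_apply, if_pos hi])))
          (qmap f) = K0 (cut n f) := rfl
    rw [h1, hK0, map_sub, map_sub, qmap_eq_zero.2 (hΨ _), sub_zero]
    have h2 : qmap (cut n f) = qmap f := qmap_eq_iff.2 (hdiff f)
    have h3 : qmap (N (L (cut n f))) = qmap (N (L f)) := by
      rw [qmap_eq_iff, ← map_sub, ← map_sub]
      exact hN _ (hL _ (hdiff f))
    rw [h2, h3]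
    abel

/-- **Main theorem.** -/
theorem complemented_of_liftable_add {I : Type} [NormedAddCommGroup I] [NormedSpace ℝ I]
    (hI : IsInjectiveSpace I) (T : Q →L[ℝ] Q) (c : ℝ) (hc : 0 < c) (hT : ∀ q, c * ‖q‖ ≤ ‖T q‖)
    (L : Linf ℕ →L[ℝ] Linf ℕ) (hL : ∀ f ∈ c0, L f ∈ c0) (α : Q →L[ℝ] I) (β : I →L[ℝ] Q)
    (h : ∀ f, T (qmap f) = qmap (L f) + β (α (qmap f))) :
    ∃ P : Q →L[ℝ] Q, P ∘L P = P ∧ range P = range T := by
  obtain ⟨n, δ, hδ, hb⟩ := ess_bdd_below hI T c hc hT L hL α β h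
  obtain ⟨N, hN, K, hK⟩ := exists_left L hL n δ hδ hb
  obtain ⟨K', hK'⟩ := injective_Linf ℕ Q Q T ⟨c, hc, hT⟩ K
  obtain ⟨α', hα'⟩ := hI Q Q T ⟨c, hc, hT⟩ α
  have hK2 : ∀ q, K' (T q) = K q := fun q => congrArg (fun w => w q) hK'
  have hα2 : ∀ q, α' (T q) = α q := fun q => congrArg (fun w => w q) hα'
  let W : Q →L[ℝ] Q := indMap N hN + qmap ∘L K' - indMap N hN ∘L β ∘L α'
  have hW : ∀ q, W (T q) = q := by
    intro q
    obtain ⟨f, rfl⟩ := qmap_surj q
    show indMap N hN (T (qmap f)) + qmap (K' (T (qmap f))) - indMap N hN (β (α' (T (qmap f)))) =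
      qmap f
    rw [hK2, hα2, h, map_add, indMap_qmap]
    calc qmap (N (L f)) + indMap N hN (β (α (qmap f))) + qmap (K (qmap f)) -
          indMap N hN (β (α (qmap f))) = qmap (N (L f)) + qmap (K (qmap f)) := by abel
      _ = qmap f := (hK f).symm
  refine ⟨T ∘L W, ?_, ?_⟩
  · ext q
    show T (W (T (W q))) = T (W q)
    rw [hW]
  · ext q
    constructor
    · rintro ⟨p, rfl⟩
      exact ⟨W p, rfl⟩
    · rintro ⟨p, rfl⟩
      exact ⟨T p, by show T (W (T p)) = T p; rw [hW]⟩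

end MP4ea76a
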