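import Pool.Agent.Lib.MP_4ea76a_an.Stab

open Filter Topology Set
open scoped ENNReal

noncomputable section

namespace MP4ea76a

theorem n1_neg (w : ℕ →₀ ℝ) : n1 (-w) = n1 w := by
  rw [n1, n1, Finsupp.support_neg]
  apply Finset.sum_congr rfl
  intro j _
  rw [Finsupp.neg_apply, abs_neg]

theorem n1_sub_comm (v w : ℕ →₀ ℝ) : n1 (v - w) = n1 (w - v) := by
  rw [← n1_neg, neg_sub]

theorem exists_block_index' (κ : ℕ → ℕ) (hκ : StrictMono κ) :
    ∃ b : ℕ → ℕ, (∀ k, κ 0 ≤ k → κ (b k) ≤ k) ∧ ∀ k i, κ i ≤ k → i ≤ b k :=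
  ⟨fun k => Nat.findGreatest (fun i => κ i ≤ k) k,
    fun k hk => Nat.findGreatest_spec (P := fun i => κ i ≤ k) (Nat.zero_le k) hk,
    fun _ _ hi => Nat.le_findGreatest (le_trans hκ.le_apply hi) hi⟩

/-- an operator with a continuous lifting is given by a matrix -/
theorem exists_matrix {T : Q →L[ℝ] Q} {H : (ℕ → Bool) → ℕ → ℝ} (hH : Lift T H)
    (hc : ∀ k, Continuous (fun a => H a k)) :
    ∃ (r : ℕ → (ℕ →₀ ℝ)) (C : ℝ), 0 ≤ C ∧ (∀ k, n1 (r k) ≤ C) ∧
      Lift T (fun a k => pr (ch a) (r k)) := by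
  choose G m hG1 hG2 hG3 using fun i : ℕ => exists_stable hH hc ((1 / 2 : ℝ) ^ i) (by positivity)
  have hrow : ∀ i k : ℕ, ∃ w : ℕ →₀ ℝ, m i ≤ k →
      ∀ a : ℕ → Bool, |G i a k - pr (ch a) w| ≤ 112 * (1 / 2 : ℝ) ^ i := by
    intro i k
    by_cases hk : m i ≤ k
    · obtain ⟨w, hw⟩ := exists_row (fun a => G i a k) (hG2 i k) ((1 / 2 : ℝ) ^ i) (by positivity)
        (fun a b hab => hG3 i a b hab k hk)
      exact ⟨w, fun _ => hw⟩
    · exact ⟨0, fun h => absurd h hk⟩
  choose w hw using hrow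
  have hdiff : ∀ i : ℕ, ∀ᶠ k in atTop, n1 (w i k - w (i + 1) k) ≤ 1014 * (1 / 2 : ℝ) ^ i := by
    intro i
    have h0 : (0 : ℝ) < (1 / 2 : ℝ) ^ i := by positivity
    have h1 : ∀ a : ℕ → Bool, ∀ᶠ k in atTop,
        |pr (ch a) (w i k - w (i + 1) k)| ≤ 169 * (1 / 2 : ℝ) ^ i := by
      intro a
      obtain ⟨g, hg⟩ := qmap_surj (T (qmap (ch a)))
      have h2 := ((hG1 i).any a g hg).sub ((hG1 (i + 1)).any a g hg)
      rw [sub_zero] at h2
      have h3 := (Metric.tendsto_nhds.1 h2) _ h0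
      filter_upwards [h3, eventually_ge_atTop (m i), eventually_ge_atTop (m (i + 1))] with k h4 h5 h6
      rw [Real.dist_eq, sub_zero] at h4
      have h7 := hw i k h5 a
      have h8 := hw (i + 1) k h6 a
      rw [pow_succ] at h8
      rw [map_sub]
      rw [abs_lt] at h4
      rw [abs_le] at h7 h8 ⊢
      constructor <;> linarith [h4.1, h4.2, h7.1, h7.2, h8.1, h8.2]
    filter_upwards [schur _ _ h1] with k hk
    linarith
  have hbd : ∀ᶠ k in atTop, n1 (w 0 k) ≤ 6 * (‖T‖ + 114) := by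
    apply schur
    intro a
    obtain ⟨g, hg, hgn⟩ := Submodule.Quotient.norm_mk_lt (S := c0) (T (qmap (ch a))) one_pos
    have hg' : qmap g = T (qmap (ch a)) := hg
    have h1 : ‖g‖ ≤ ‖T‖ + 1 := by
      have h2 : ‖T (qmap (ch a))‖ ≤ ‖T‖ * 1 := by
        refine (T.le_opNorm _).trans ?_
        gcongr
        exact (Submodule.Quotient.norm_mk_le c0 _).trans (norm_ch_le a)
      linarith
    have h2 := (Metric.tendsto_nhds.1 ((hG1 0).any a g hg')) 1 one_pos
    filter_upwards [h2, eventually_ge_atTop (m 0)] with k h3 h4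
    rw [Real.dist_eq, sub_zero] at h3
    have h5 := hw 0 k h4 a
    have h6 := abs_apply_le g k
    rw [pow_zero] at h5
    rw [abs_lt] at h3
    rw [abs_le] at h5 h6 ⊢
    constructor <;> linarith [h3.1, h3.2, h5.1, h5.2, h6.1, h6.2]
  -- thresholds
  obtain ⟨K0, hK0⟩ := eventually_atTop.1 hbd
  choose Kd hKd using fun i => eventually_atTop.1 (hdiff i)
  obtain ⟨κ, κ0, κ1⟩ : ∃ κ : ℕ → ℕ, κ 0 = max K0 (m 0) ∧
      ∀ i, κ (i + 1) = max (κ i + 1) (max (Kd i) (m (i + 1))) :=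
    ⟨fun i => Nat.rec (motive := fun _ => ℕ) (max K0 (m 0))
      (fun i x => max (x + 1) (max (Kd i) (m (i + 1)))) i, rfl, fun i => rfl⟩
  have hκ : StrictMono κ := strictMono_nat_of_lt_succ (fun i => by rw [κ1]; omega)
  have hκm : ∀ i, m i ≤ κ i := by
    intro i
    cases i with
    | zero => rw [κ0]; omega
    | succ i => rw [κ1]; omega
  obtain ⟨b, hb1, hb2⟩ := exists_block_index' κ hκ
  have htel : ∀ k i j, i ≤ j → κ j ≤ k →
      n1 (w j k - w i k) ≤ 1014 * (2 * (1 / 2 : ℝ) ^ i - 2 * (1 / 2 : ℝ) ^ j) := by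
    intro k i j hij
    induction j, hij using Nat.le_induction with
    | base =>
      intro _
      rw [sub_self, n1_zero, sub_self, mul_zero]
    | succ j hij ih =>
      intro hk
      have h1 := ih (le_trans (hκ (Nat.lt_succ_self j)).le hk)
      have h2 := hKd j k (le_trans (by rw [κ1]; omega) hk)
      have h3 : w (j + 1) k - w i k = (w (j + 1) k - w j k) + (w j k - w i k) := by abel
      rw [h3]
      refine (n1_add_le _ _).trans ?_
      rw [n1_sub_comm] at h2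
      rw [pow_succ]
      linarith
  have htel2 : ∀ k i, κ i ≤ k → n1 (w (b k) k - w i k) ≤ 2028 * (1 / 2 : ℝ) ^ i := by
    intro k i hk
    have h1 := htel k i (b k) (hb2 k i hk) (hb1 k (le_trans (hκ.monotone (Nat.zero_le i)) hk))
    have h2 : (0 : ℝ) ≤ (1 / 2 : ℝ) ^ (b k) := by positivity
    linarith
  refine ⟨fun k => if κ 0 ≤ k then w (b k) k else 0, 6 * (‖T‖ + 114) + 2028, by positivity, ?_, ?_⟩
  · intro k
    dsimp only
    split_ifs with hk
    · have h1 := htel2 k 0 hk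
      have h2 := hK0 k (le_trans (by rw [κ0]; omega) hk)
      have h3 : w (b k) k = (w (b k) k - w 0 k) + w 0 k := by abel
      rw [h3]
      refine (n1_add_le _ _).trans ?_
      rw [pow_zero] at h1
      linarith
    · rw [n1_zero]; positivity
  · intro a
    obtain ⟨g, hg⟩ := qmap_surj (T (qmap (ch a)))
    refine ⟨g, hg, ?_⟩
    rw [Metric.tendsto_nhds]
    intro δ hδ
    obtain ⟨i, hi⟩ := exists_pow_lt_of_lt_one (show (0 : ℝ) < δ / 2141 by positivity)
      (show (1 / 2 : ℝ) < 1 by norm_num)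
    have h0 : (0 : ℝ) < (1 / 2 : ℝ) ^ i := by positivity
    have h2 := (Metric.tendsto_nhds.1 ((hG1 i).any a g hg)) _ h0
    filter_upwards [h2, eventually_ge_atTop (κ i)] with k h3 h4
    have hk0 : κ 0 ≤ k := le_trans (hκ.monotone (Nat.zero_le i)) h4
    rw [Real.dist_eq, sub_zero] at h3 ⊢
    rw [if_pos hk0]
    have h5 := htel2 k i h4
    have h6 := abs_pr_ch_le a (w (b k) k - w i k)
    have h7 := hw i k (le_trans (hκm i) h4) a
    rw [map_sub] at h6
    rw [lt_div_iff₀ (by norm_num)] at hi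
    have h8 := h6.trans h5
    rw [abs_lt] at h3 ⊢
    rw [abs_le] at h7 h8
    constructor <;> linarith [h3.1, h3.2, h7.1, h7.2, h8.1, h8.2]

/-- simple functions are dense in `ℓ∞` -/
theorem eq_zero_of_ch (V : Linf ℕ →L[ℝ] Q) (h : ∀ a, V (ch a) = 0) (f : Linf ℕ) : V f = 0 := by
  classical
  rw [← norm_le_zero_iff]
  refine le_of_forall_pos_le_add ?_
  intro δ hδ
  rw [zero_add]
  let ε := δ / (‖V‖ + 1)
  have hε : 0 < ε := by positivity
  obtain ⟨N, hN⟩ := exists_nat_ge (‖f‖ / ε + 1)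
  let g : Linf ℕ := ∑ j ∈ Finset.Icc (-(N : ℤ)) N, ((j : ℝ) * ε) •
    ch (fun n => decide (⌊f n / ε⌋ = j))
  have hVg : V g = 0 := by
    simp only [g, map_sum, map_smul, h, smul_zero, Finset.sum_const_zero]
  have hgv : ∀ n, g n = (⌊f n / ε⌋ : ℝ) * ε := by
    intro n
    have h1 : g n = ∑ j ∈ Finset.Icc (-(N : ℤ)) N, ((j : ℝ) * ε) *
        (if ⌊f n / ε⌋ = j then 1 else 0) := by
      simp only [g]
      rw [lp.coeFn_sum, Finset.sum_apply]
      apply Finset.sum_congr rfl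
      intro j _
      rw [smul_apply', ch_apply]
      simp
    rw [h1]
    have h2 : ⌊f n / ε⌋ ∈ Finset.Icc (-(N : ℤ)) N := by
      have h3 := abs_apply_le f n
      have h4 : |f n / ε| ≤ ‖f‖ / ε := by
        rw [abs_div, abs_of_pos hε]
        gcongr
      rw [abs_le] at h4
      rw [Finset.mem_Icc]
      constructor
      · rw [Int.le_floor]
        push_cast
        linarith [h4.1]
      · have h5 : (⌊f n / ε⌋ : ℝ) ≤ N := (Int.floor_le _).trans (by linarith [h4.2])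
        exact_mod_cast h5
    rw [Finset.sum_eq_single_of_mem _ h2]
    · simp
    · intro j _ hj
      rw [if_neg (Ne.symm hj), mul_zero]
  have h1 : ‖f - g‖ ≤ ε := by
    refine norm_le_of hε.le (fun n => ?_)
    rw [sub_apply', hgv]
    have h2 := Int.floor_le (f n / ε)
    have h3 := Int.lt_floor_add_one (f n / ε)
    have h4 : (⌊f n / ε⌋ : ℝ) * ε ≤ f n := by
      rw [le_div_iff₀ hε] at h2
      exact h2
    have h5 : f n < ((⌊f n / ε⌋ : ℝ) + 1) * ε := by
      rw [div_lt_iff₀ hε] at h3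
      exact h3
    rw [abs_le]
    constructor <;> linarith
  calc ‖V f‖ = ‖V (f - g)‖ := by rw [map_sub, hVg, sub_zero]
    _ ≤ ‖V‖ * ‖f - g‖ := V.le_opNorm _
    _ ≤ (‖V‖ + 1) * ε := by gcongr; linarith
    _ = δ := by simp only [ε]; field_simp

theorem pr_add (f g : Linf ℕ) (w : ℕ →₀ ℝ) : pr (f + g) w = pr f w + pr g w := by
  rw [pr_apply, pr_apply, pr_apply, ← Finset.sum_add_distrib]
  apply Finset.sum_congr rfl
  intro j _
  rw [add_apply']
  ring

theorem pr_smul (c : ℝ) (f : Linf ℕ) (w : ℕ →₀ ℝ) : pr (c • f) w = c * pr f w := by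
  rw [pr_apply, pr_apply, Finset.mul_sum]
  apply Finset.sum_congr rfl
  intro j _
  rw [smul_apply']
  ring

/-- **An operator on `ℓ∞/c₀` with a lifting on characteristic functions which has the Baire
property lifts to a bounded linear operator on `ℓ∞`.** -/
theorem liftable_of_baire {T : Q →L[ℝ] Q} {F : (ℕ → Bool) → ℕ → ℝ} (hF : Lift T F)
    (hB : ∀ k, ∀ O : Set ℝ, IsOpen O → BaireMeasurableSet ((fun a => F a k) ⁻¹' O)) :
    ∃ L : Linf ℕ →L[ℝ] Linf ℕ, (∀ f ∈ c0, L f ∈ c0) ∧ ∀ f, T (qmap f) = qmap (L f) := by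
  obtain ⟨H, hH, hc⟩ := exists_continuous_lift hF hB
  obtain ⟨r, C, hC, hr, hrT⟩ := exists_matrix hH hc
  let L : Linf ℕ →L[ℝ] Linf ℕ := assemble (fun k =>
    { toFun := fun f => pr f (r k)
      map_add' := fun f g => pr_add f g _
      map_smul' := fun c f => pr_smul c f _ }) C (fun k f => by
        refine (abs_pr_le f (r k)).trans ?_
        gcongr
        exact hr k)
  have hLa : ∀ f k, L f k = pr f (r k) := fun f k => rfl
  have hch : ∀ a, (T ∘L qmap - qmap ∘L L) (ch a) = 0 := by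
    intro a
    obtain ⟨g, hg, hga⟩ := hrT a
    have h1 : qmap (L (ch a)) = qmap g := by
      rw [qmap_eq_iff, mem_c0]
      exact hga
    show T (qmap (ch a)) - qmap (L (ch a)) = 0
    rw [h1, hg, sub_self]
  have hT : ∀ f, T (qmap f) = qmap (L f) := by
    intro f
    have h1 : T (qmap f) - qmap (L f) = 0 := eq_zero_of_ch _ hch f
    exact sub_eq_zero.1 h1
  refine ⟨L, fun f hf => ?_, hT⟩
  rw [← qmap_eq_zero, ← hT, qmap_eq_zero.2 hf, map_zero]

end MP4ea76a
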