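import Pool.Agent.Lib.MP_4ea76a_an.CCC
import Pool.Agent.Lib.MP_4ea76a_an.Definable

open Filter Topology Set
open scoped ENNReal

namespace MP4ea76a

/-- `T` is an isomorphic embedding. -/
def IsEmb (T : Q →L[ℝ] Q) : Prop := ∃ c > 0, ∀ q, c * ‖q‖ ≤ ‖T q‖

/-- `T` is induced by a bounded linear operator on `ℓ∞`. -/
def Liftable (T : Q →L[ℝ] Q) : Prop := ∃ L : Linf ℕ →L[ℝ] Linf ℕ, ∀ f, T (qmap f) = qmap (L f)

/-- `T` has a (possibly nonlinear) lifting on characteristic functions all of whose coordinates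
have the Baire property. -/
def BaireLiftable (T : Q →L[ℝ] Q) : Prop :=
  ∃ F : (ℕ → Bool) → ℕ → ℝ, Lift T F ∧
    ∀ k, ∀ O : Set ℝ, IsOpen O → BaireMeasurableSet ((fun a => F a k) ⁻¹' O)

/-- `T` factors through an injective Banach space. -/
def FactorsInjective (T : Q →L[ℝ] Q) : Prop :=
  ∃ (I : Type) (_ : NormedAddCommGroup I) (_ : NormedSpace ℝ I), IsInjectiveSpace I ∧
    ∃ (α : Q →L[ℝ] I) (β : I →L[ℝ] Q), ∀ q, T q = β (α q)

/-- `T` vanishes on an ideal `J` such that `P(ℕ)/J` is ccc. -/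
def VanishesCCC (T : Q →L[ℝ] Q) : Prop :=
  ∃ J : Set (Set ℕ), IsCCCIdeal J ∧
    ∀ A ∈ J, ∀ f : Linf ℕ, (∀ n ∉ A, f n = 0) → T (qmap f) = 0

/-- The range of `T` is complemented. -/
def HasComplementedRange (T : Q →L[ℝ] Q) : Prop :=
  ∃ P : Q →L[ℝ] Q, P ∘L P = P ∧ range P = range T

theorem complemented (T T₁ T₂ T₃ T₄ : Q →L[ℝ] Q) (hT : IsEmb T) (hsum : T = T₁ + T₂ + T₃ + T₄)
    (h₁ : Liftable T₁) (h₂ : BaireLiftable T₂) (h₃ : FactorsInjective T₃) (h₄ : VanishesCCC T₄) :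
    HasComplementedRange T := by
  obtain ⟨c, hc, hT⟩ := hT
  obtain ⟨L₁, hL₁⟩ := h₁
  obtain ⟨F, hF, hB⟩ := h₂
  obtain ⟨L₂, hL₂, hL₂T⟩ := liftable_of_baire hF hB
  obtain ⟨I, _, _, hI, α, β, hαβ⟩ := h₃
  obtain ⟨J, hJ, hJT⟩ := h₄
  obtain ⟨α', β', hαβ'⟩ := factor_of_vanish hJ T₄ hJT
  have : ExtremallyDisconnected (FJ J) := extremallyDisconnected_FJ hJ
  have hK : IsInjectiveSpace C(FJ J, ℝ) := injective_CK (FJ J)
  refine complemented_of_liftable_add (injective_prod hI hK) T c hc hT (L₁ + L₂) ?_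
    (α.prod α') (β ∘L (ContinuousLinearMap.fst ℝ I C(FJ J, ℝ)) +
      β' ∘L (ContinuousLinearMap.snd ℝ I C(FJ J, ℝ))) ?_
  · intro f hf
    have h1 : L₁ f ∈ c0 := by
      rw [← qmap_eq_zero, ← hL₁, qmap_eq_zero.2 hf, map_zero]
    exact c0.add_mem h1 (hL₂ f hf)
  · intro f
    rw [hsum]
    show T₁ (qmap f) + T₂ (qmap f) + T₃ (qmap f) + T₄ (qmap f) =
      qmap (L₁ f + L₂ f) + (β (α (qmap f)) + β' (α' (qmap f)))
    rw [hL₁, hL₂T, hαβ, hαβ', map_add]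
    abel

end MP4ea76a
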