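import Mathlib

/-! Existence of concentrators (random bipartite graphs), by counting. -/

open Finset

namespace MP4ea76a

theorem inv_factorial_le (s : ℕ) : ((s : ℝ)) ^ s / (s.factorial : ℝ) ≤ 3 ^ s := by
  have h1 := Real.pow_div_factorial_le_exp (x := (s : ℝ)) (Nat.cast_nonneg s) s
  have h2 : Real.exp (s : ℝ) ≤ 3 ^ s := by
    have h3 : Real.exp (s : ℝ) = Real.exp 1 ^ s := by
      rw [← Real.exp_nat_mul, mul_one]
    rw [h3]
    have h4 : Real.exp 1 ≤ 3 := by
      have := Real.exp_one_lt_d9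
      linarith
    gcongr
  exact h1.trans h2

theorem choose_le (n s : ℕ) (hs : 1 ≤ s) : ((n.choose s : ℕ) : ℝ) ≤ (3 * n / s) ^ s := by
  have h1 : ((n.choose s : ℕ) : ℝ) ≤ (n : ℝ) ^ s / (s.factorial : ℝ) := Nat.choose_le_pow_div s n
  have h2 := inv_factorial_le s
  have hs' : (0 : ℝ) < s := by exact_mod_cast hs
  have hf : (0 : ℝ) < (s.factorial : ℝ) := by exact_mod_cast s.factorial_pos
  have h3 : (n : ℝ) ^ s / (s.factorial : ℝ) = ((n : ℝ) / s) ^ s * ((s : ℝ) ^ s / (s.factorial : ℝ)) := by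
    rw [div_pow]
    field_simp
  calc ((n.choose s : ℕ) : ℝ) ≤ (n : ℝ) ^ s / (s.factorial : ℝ) := h1
    _ = ((n : ℝ) / s) ^ s * ((s : ℝ) ^ s / (s.factorial : ℝ)) := h3
    _ ≤ ((n : ℝ) / s) ^ s * 3 ^ s := by gcongr
    _ = (3 * n / s) ^ s := by rw [← mul_pow]; congr 1; ring

theorem term_le (r s : ℕ) (hs : 1 ≤ s) (hsr : 2 * s ≤ 3 * r) :
    (((3 * r).choose s : ℕ) : ℝ) * (((2 * r).choose s : ℕ) : ℝ) * (((s : ℝ) / (2 * r)) ^ 16) ^ s ≤
      (1 / 4) ^ s := by
  have hs' : (0 : ℝ) < s := by exact_mod_cast hs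
  have hr' : (0 : ℝ) < r := by
    have : 0 < r := by omega
    exact_mod_cast this
  have h1 := choose_le (3 * r) s hs
  have h2 := choose_le (2 * r) s hs
  push_cast at h1 h2
  have hx : (s : ℝ) / (2 * r) ≤ 3 / 4 := by
    rw [div_le_div_iff₀ (by positivity) (by norm_num)]
    have : (2 * s : ℝ) ≤ 3 * r := by exact_mod_cast hsr
    linarith
  have hx0 : 0 ≤ (s : ℝ) / (2 * r) := by positivity
  calc (((3 * r).choose s : ℕ) : ℝ) * (((2 * r).choose s : ℕ) : ℝ) * (((s : ℝ) / (2 * r)) ^ 16) ^ s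
      ≤ (3 * (3 * r) / s) ^ s * (3 * (2 * r) / s) ^ s * (((s : ℝ) / (2 * r)) ^ 16) ^ s := by gcongr
    _ = ((27 / 2) * ((s : ℝ) / (2 * r)) ^ 14) ^ s := by
        rw [← mul_pow, ← mul_pow]
        congr 1
        field_simp
        ring
    _ ≤ ((27 / 2) * (3 / 4) ^ 14) ^ s := by gcongr
    _ ≤ (1 / 4) ^ s := by
        gcongr
        norm_num

theorem exists_graph (r : ℕ) (hr : 1 ≤ r) (I : Type) [Fintype I] [DecidableEq I]
    (hI : Fintype.card I = 3 * r) :
    ∃ g : I → Fin 16 → Fin (2 * r), ∀ S : Finset I, 2 * S.card ≤ 3 * r →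
      S.card ≤ (S.biUnion (fun i => univ.image (g i))).card := by
  classical
  by_contra hcon
  push Not at hcon
  -- every graph is bad
  let bad : Finset I → Finset (Fin (2 * r)) → Finset (I → Fin 16 → Fin (2 * r)) := fun S T =>
    Fintype.piFinset (fun i => if i ∈ S then Fintype.piFinset (fun _ : Fin 16 => T) else univ)
  let P : Finset (Finset I) := (univ : Finset I).powerset.filter (fun S => 1 ≤ S.card ∧ 2 * S.card ≤ 3 * r)
  have hcov : (univ : Finset (I → Fin 16 → Fin (2 * r))) ⊆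
      P.biUnion (fun S => (powersetCard S.card univ).biUnion (fun T => bad S T)) := by
    intro g _
    obtain ⟨S, hS1, hS2⟩ := hcon g
    have hS0 : 1 ≤ S.card := by omega
    obtain ⟨T, hT1, hT2⟩ : ∃ T : Finset (Fin (2 * r)),
        S.biUnion (fun i => univ.image (g i)) ⊆ T ∧ T.card = S.card := by
      obtain ⟨T, h1, _, h2⟩ := exists_subsuperset_card_eq
        (subset_univ (S.biUnion (fun i => univ.image (g i)))) hS2.le (by
          rw [card_univ, Fintype.card_fin]; omega)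
      exact ⟨T, h1, h2⟩
    rw [mem_biUnion]
    refine ⟨S, by simp only [P, mem_filter, mem_powerset]; exact ⟨subset_univ _, hS0, hS1⟩, ?_⟩
    rw [mem_biUnion]
    refine ⟨T, by rw [mem_powersetCard]; exact ⟨subset_univ _, hT2⟩, ?_⟩
    rw [Fintype.mem_piFinset]
    intro i
    split_ifs with hi
    · rw [Fintype.mem_piFinset]
      intro t
      apply hT1
      rw [mem_biUnion]
      exact ⟨i, hi, mem_image_of_mem _ (mem_univ t)⟩
    · exact mem_univ _
  have hbad : ∀ S T, ((bad S T).card : ℝ) =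
      ((T.card : ℝ) ^ 16) ^ S.card * (((2 * r : ℕ) : ℝ) ^ 16) ^ (3 * r - S.card) := by
    intro S T
    have h1 : (bad S T).card = (T.card ^ 16) ^ S.card * ((2 * r) ^ 16) ^ (3 * r - S.card) := by
      rw [Fintype.card_piFinset]
      have h2 : ∀ i : I, (if i ∈ S then Fintype.piFinset (fun _ : Fin 16 => T) else
          (univ : Finset (Fin 16 → Fin (2 * r)))).card = if i ∈ S then T.card ^ 16 else (2 * r) ^ 16 := by
        intro i
        split_ifs
        · rw [Fintype.card_piFinset]; simp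
        · rw [card_univ, Fintype.card_fun]; simp
      rw [prod_congr rfl (fun i _ => h2 i), prod_ite, prod_const, prod_const]
      congr 2
      · congr 1
        ext i; simp
      · have h3 : (univ.filter (fun i => ¬ i ∈ S)) = Sᶜ := by ext i; simp
        rw [h3, card_compl, hI]
    rw [h1]; push_cast; ring
  have hr' : (0 : ℝ) < r := by exact_mod_cast hr
  have hbad2 : ∀ S ∈ P, ∀ T ∈ powersetCard S.card (univ : Finset (Fin (2 * r))),
      ((bad S T).card : ℝ) =
        (((S.card : ℝ) / (2 * r)) ^ 16) ^ S.card * (((2 * r : ℕ) : ℝ) ^ 16) ^ (3 * r) := by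
    intro S hS T hT
    have hS' : 2 * S.card ≤ 3 * r := by
      simp only [P, mem_filter] at hS
      exact hS.2.2
    rw [hbad, (mem_powersetCard.1 hT).2]
    have h1 : 3 * r = S.card + (3 * r - S.card) := by omega
    have hM : (((2 * r : ℕ) : ℝ)) = 2 * (r : ℝ) := by push_cast; ring
    have h2 : ((S.card : ℝ) / (2 * r)) * (2 * (r : ℝ)) = S.card := div_mul_cancel₀ _ (by positivity)
    have h3 : (((2 * r : ℕ) : ℝ) ^ 16) ^ (3 * r) =
        (((2 * r : ℕ) : ℝ) ^ 16) ^ S.card * (((2 * r : ℕ) : ℝ) ^ 16) ^ (3 * r - S.card) := by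
      rw [← pow_add, ← h1]
    rw [h3, ← mul_assoc, ← mul_pow, ← mul_pow, hM, h2]
  have hcard : ((Fintype.card (I → Fin 16 → Fin (2 * r)) : ℕ) : ℝ) = (((2 * r : ℕ) : ℝ) ^ 16) ^ (3 * r) := by
    rw [Fintype.card_fun, Fintype.card_fun, hI, Fintype.card_fin, Fintype.card_fin]
    push_cast
    ring
  have hle : ((Fintype.card (I → Fin 16 → Fin (2 * r)) : ℕ) : ℝ) ≤
      ∑ S ∈ P, ∑ T ∈ powersetCard S.card (univ : Finset (Fin (2 * r))), ((bad S T).card : ℝ) := by
    have h1 := card_le_card hcov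
    have h2 := h1.trans card_biUnion_le
    have h3 : ∑ S ∈ P, ((powersetCard S.card univ).biUnion (fun T => bad S T)).card ≤
        ∑ S ∈ P, ∑ T ∈ powersetCard S.card (univ : Finset (Fin (2 * r))), (bad S T).card :=
      sum_le_sum (fun S _ => card_biUnion_le)
    have h4 := h2.trans h3
    rw [card_univ] at h4
    exact_mod_cast h4
  set D : ℝ := (((2 * r : ℕ) : ℝ) ^ 16) ^ (3 * r) with hD
  have hDpos : 0 < D := by positivity
  have hsum : ∑ S ∈ P, ∑ T ∈ powersetCard S.card (univ : Finset (Fin (2 * r))), ((bad S T).card : ℝ) =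
      (∑ S ∈ P, (((2 * r).choose S.card : ℕ) : ℝ) * (((S.card : ℝ) / (2 * r)) ^ 16) ^ S.card) * D := by
    rw [sum_mul]
    apply sum_congr rfl
    intro S hS
    rw [sum_congr rfl (hbad2 S hS), sum_const, card_powersetCard, card_univ, Fintype.card_fin,
      nsmul_eq_mul]
    ring
  rw [hcard, hsum] at hle
  have hge : 1 ≤ ∑ S ∈ P, (((2 * r).choose S.card : ℕ) : ℝ) * (((S.card : ℝ) / (2 * r)) ^ 16) ^ S.card := by
    by_contra hlt
    push Not at hlt
    have := mul_lt_mul_of_pos_right hlt hDpos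
    rw [one_mul] at this
    linarith
  -- compute the sum by cardinality
  let f : ℕ → ℝ := fun s => if 1 ≤ s ∧ 2 * s ≤ 3 * r then
    (((2 * r).choose s : ℕ) : ℝ) * (((s : ℝ) / (2 * r)) ^ 16) ^ s else 0
  have h1 : ∑ S ∈ P, (((2 * r).choose S.card : ℕ) : ℝ) * (((S.card : ℝ) / (2 * r)) ^ 16) ^ S.card =
      ∑ S ∈ (univ : Finset I).powerset, f S.card := by
    simp only [P, sum_filter, f]
  rw [h1, sum_powerset_apply_card, card_univ, hI] at hge
  have h2 : ∑ m ∈ range (3 * r + 1), (3 * r).choose m • f m ≤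
      ∑ m ∈ range (3 * r + 1), (if m = 0 then 0 else (1 / 4 : ℝ) ^ m) := by
    apply sum_le_sum
    intro m _
    simp only [f]
    split_ifs with h3 h4 h4
    · omega
    · rw [nsmul_eq_mul, ← mul_assoc]
      exact term_le r m h3.1 h3.2
    · simp
    · rw [smul_zero]; positivity
  have h3 : ∑ m ∈ range (3 * r + 1), (if m = 0 then 0 else (1 / 4 : ℝ) ^ m) ≤ 1 / 3 := by
    rw [sum_range_succ']
    simp only [Nat.add_eq_zero_iff, one_ne_zero, and_false, if_false, if_true, add_zero]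
    have h4 : ∑ k ∈ range (3 * r), (1 / 4 : ℝ) ^ (k + 1) = (1 / 4) * ∑ k ∈ range (3 * r), (1 / 4 : ℝ) ^ k := by
      rw [mul_sum]
      apply sum_congr rfl
      intro k _
      rw [pow_succ]; ring
    rw [h4, geom_sum_eq (by norm_num)]
    have h5 : (0 : ℝ) ≤ (1 / 4) ^ (3 * r) := by positivity
    have h6 : ((1 / 4 : ℝ) ^ (3 * r) - 1) / (1 / 4 - 1) = (4 / 3) * (1 - (1 / 4 : ℝ) ^ (3 * r)) := by
      field_simp
      ring
    rw [h6]
    linarith
  linarith

/-- the matching form -/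
theorem exists_matching_graph (r : ℕ) (hr : 1 ≤ r) (I : Type) [Fintype I] [DecidableEq I]
    (hI : Fintype.card I = 3 * r) :
    ∃ N : I → Finset (Fin (2 * r)), (∀ i, (N i).card ≤ 16) ∧
      ∀ S : Finset I, 2 * S.card ≤ 3 * r →
        ∃ φ : I → Fin (2 * r), (∀ i ∈ S, φ i ∈ N i) ∧ Set.InjOn φ S := by
  classical
  obtain ⟨g, hg⟩ := exists_graph r hr I hI
  refine ⟨fun i => univ.image (g i), fun i => ?_, ?_⟩
  · refine card_image_le.trans ?_
    simp
  · intro S hS
    have hHall := (all_card_le_biUnion_card_iff_exists_injective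
      (fun i : S => univ.image (g i))).1 (by
      intro s
      have h1 := hg (s.map ⟨Subtype.val, Subtype.val_injective⟩) (by
        rw [card_map]
        have : s.card ≤ S.card := by
          have := card_le_univ s
          simpa using this
        omega)
      rw [card_map] at h1
      refine h1.trans (card_le_card ?_)
      intro x hx
      rw [mem_biUnion] at hx ⊢
      obtain ⟨i, hi, hxi⟩ := hx
      rw [mem_map] at hi
      obtain ⟨i', hi', rfl⟩ := hi
      exact ⟨i', hi', hxi⟩)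
    obtain ⟨φ, hφ1, hφ2⟩ := hHall
    have hne : Nonempty (Fin (2 * r)) := ⟨⟨0, by omega⟩⟩
    refine ⟨fun i => if h : i ∈ S then φ ⟨i, h⟩ else Classical.arbitrary _, ?_, ?_⟩
    · intro i hi
      have h0 : (if h : i ∈ S then φ ⟨i, h⟩ else Classical.arbitrary _) = φ ⟨i, hi⟩ := dif_pos hi
      show (if h : i ∈ S then φ ⟨i, h⟩ else Classical.arbitrary _) ∈ _
      rw [h0]
      exact hφ2 ⟨i, hi⟩
    · intro i hi k hk hik
      have hi' : i ∈ S := hi
      have hk' : k ∈ S := hk
      simp only [dif_pos hi', dif_pos hk'] at hik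
      have := hφ1 hik
      simpa using this

end MP4ea76a
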