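import Pool.Agent.Lib.MP_4ea76a_an.Graph

/-! The theorem of Kalton and Roberts on nearly additive set functions. -/

open Finset

namespace MP4ea76a

variable {X : Type} [Fintype X] [DecidableEq X]

omit [Fintype X] in
theorem empty_le (g : Finset X → ℝ) (hg : ∀ A B, Disjoint A B → |g (A ∪ B) - g A - g B| ≤ 1) :
    |g ∅| ≤ 1 := by
  have := hg ∅ ∅ (disjoint_empty_right _)
  rw [union_empty, sub_self, zero_sub, abs_neg] at this
  exact this

omit [Fintype X] in
theorem biUnion_defect (g : Finset X → ℝ)
    (hg : ∀ A B, Disjoint A B → |g (A ∪ B) - g A - g B| ≤ 1) {κ : Type} [DecidableEq κ]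
    (D : κ → Finset X) (J : Finset κ) (hD : ∀ i ∈ J, ∀ j ∈ J, i ≠ j → Disjoint (D i) (D j)) :
    |g (J.biUnion D) - ∑ j ∈ J, g (D j)| ≤ J.card + 1 := by
  induction J using Finset.induction_on with
  | empty =>
    simpa using empty_le g hg
  | insert a J ha ih =>
    have ih' := ih (fun i hi j hj => hD i (mem_insert_of_mem hi) j (mem_insert_of_mem hj))
    rw [biUnion_insert, sum_insert ha, card_insert_of_notMem ha]
    have hdis : Disjoint (D a) (J.biUnion D) := by
      rw [disjoint_biUnion_right]
      intro j hj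
      refine hD a (mem_insert_self _ _) j (mem_insert_of_mem hj) ?_
      rintro rfl
      exact ha hj
    have h1 := hg _ _ hdis
    have h2 : g (D a ∪ J.biUnion D) - (g (D a) + ∑ j ∈ J, g (D j)) =
      (g (D a ∪ J.biUnion D) - g (D a) - g (J.biUnion D)) + (g (J.biUnion D) - ∑ j ∈ J, g (D j)) := by
      ring
    rw [h2]
    push_cast
    calc _ ≤ |g (D a ∪ J.biUnion D) - g (D a) - g (J.biUnion D)| +
          |g (J.biUnion D) - ∑ j ∈ J, g (D j)| := abs_add_le _ _
      _ ≤ 1 + (J.card + 1) := by gcongr
      _ = _ := by ring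

omit [Fintype X] in
/-- the inequality obtained from the matching graph -/
theorem graph_ineq (g : Finset X → ℝ)
    (hg : ∀ A B, Disjoint A B → |g (A ∪ B) - g A - g B| ≤ 1) (B : ℝ) (hB : ∀ A, g A ≤ B)
    (r : ℕ) (hr : 1 ≤ r) (I : Type) [Fintype I] [DecidableEq I] (hI : Fintype.card I = 3 * r)
    (A : I → Finset X) (hA : ∀ x, 2 * (univ.filter (fun i => x ∈ A i)).card ≤ 3 * r) :
    ∑ i, g (A i) ≤ 2 * r * B + 101 * r := by
  classical
  obtain ⟨N, hN1, hN2⟩ := exists_matching_graph r hr I hI
  choose φ hφ1 hφ2 using fun x => hN2 (univ.filter (fun i => x ∈ A i)) (hA x)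
  let P : I → Fin (2 * r) → Finset X := fun i j => (A i).filter (fun x => φ x i = j)
  have hPd1 : ∀ i, ∀ j ∈ N i, ∀ j' ∈ N i, j ≠ j' → Disjoint (P i j) (P i j') := by
    intro i j _ j' _ hne
    rw [Finset.disjoint_left]
    intro x hx hx'
    simp only [P, mem_filter] at hx hx'
    exact hne (hx.2.symm.trans hx'.2)
  have hPu : ∀ i, (N i).biUnion (P i) = A i := by
    intro i
    ext x
    simp only [mem_biUnion, P, mem_filter]
    constructor
    · rintro ⟨_, _, hx, _⟩
      exact hx
    · intro hx
      exact ⟨φ x i, hφ1 x i (by simpa using hx), hx, rfl⟩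
  have hPd2 : ∀ j : Fin (2 * r), ∀ i ∈ univ.filter (fun i => j ∈ N i),
      ∀ i' ∈ univ.filter (fun i => j ∈ N i), i ≠ i' → Disjoint (P i j) (P i' j) := by
    intro j i _ i' _ hne
    rw [Finset.disjoint_left]
    intro x hx hx'
    simp only [P, mem_filter] at hx hx'
    apply hne
    apply hφ2 x
    · simpa using hx.1
    · simpa using hx'.1
    · exact hx.2.trans hx'.2.symm
  have h1 : ∀ i, g (A i) ≤ ∑ j ∈ N i, g (P i j) + 17 := by
    intro i
    have h2 := biUnion_defect g hg (P i) (N i) (hPd1 i)
    rw [hPu, abs_le] at h2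
    have h3 : ((N i).card : ℝ) ≤ 16 := by exact_mod_cast hN1 i
    linarith [h2.2]
  have h2 : ∀ j : Fin (2 * r), ∑ i ∈ univ.filter (fun i => j ∈ N i), g (P i j) ≤
      B + (((univ.filter (fun i => j ∈ N i)).card : ℝ) + 1) := by
    intro j
    have h3 := biUnion_defect g hg (fun i => P i j) (univ.filter (fun i => j ∈ N i)) (hPd2 j)
    rw [abs_le] at h3
    have h4 := hB ((univ.filter (fun i => j ∈ N i)).biUnion (fun i => P i j))
    linarith [h3.1]
  have h3 : ∑ i, ∑ j ∈ N i, g (P i j) =
      ∑ j : Fin (2 * r), ∑ i ∈ univ.filter (fun i => j ∈ N i), g (P i j) := by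
    apply sum_comm'
    intro x y
    simp
  have h4 : ∑ j : Fin (2 * r), (((univ.filter (fun i => j ∈ N i)).card : ℕ) : ℝ) ≤ 48 * r := by
    have h5 : ∑ j : Fin (2 * r), (univ.filter (fun i => j ∈ N i)).card = ∑ i, (N i).card := by
      have h6 : ∑ j : Fin (2 * r), ∑ i ∈ univ.filter (fun i => j ∈ N i), 1 =
          ∑ i, ∑ j ∈ N i, 1 := by
        symm
        apply sum_comm'
        intro x y
        simp
      simpa using h6
    have h7 : ∑ i, (N i).card ≤ ∑ _i : I, 16 := sum_le_sum (fun i _ => hN1 i)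
    rw [sum_const, card_univ, hI, smul_eq_mul] at h7
    have h8 : (∑ j : Fin (2 * r), (univ.filter (fun i => j ∈ N i)).card) ≤ 48 * r := by
      rw [h5]; omega
    exact_mod_cast h8
  calc ∑ i, g (A i) ≤ ∑ i, (∑ j ∈ N i, g (P i j) + 17) := sum_le_sum (fun i _ => h1 i)
    _ = ∑ j : Fin (2 * r), ∑ i ∈ univ.filter (fun i => j ∈ N i), g (P i j) + 51 * r := by
        rw [sum_add_distrib, h3, sum_const, card_univ, hI, nsmul_eq_mul]
        push_cast; ring
    _ ≤ ∑ j : Fin (2 * r), (B + (((univ.filter (fun i => j ∈ N i)).card : ℝ) + 1)) + 51 * r := by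
        gcongr with j _
        exact h2 j
    _ = 2 * r * B + ∑ j : Fin (2 * r), (((univ.filter (fun i => j ∈ N i)).card : ℕ) : ℝ) + 2 * r + 51 * r := by
        rw [sum_add_distrib, sum_add_distrib, sum_const, sum_const, card_univ, Fintype.card_fin,
          nsmul_eq_mul, nsmul_eq_mul]
        push_cast; ring
    _ ≤ 2 * r * B + 48 * r + 2 * r + 51 * r := by gcongr
    _ = 2 * r * B + 101 * r := by ring

/-- weighted form -/
theorem weighted_ineq (g : Finset X → ℝ)
    (hg : ∀ A B, Disjoint A B → |g (A ∪ B) - g A - g B| ≤ 1) (B : ℝ) (hB : ∀ A, |g A| ≤ B)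
    (w : Finset X → ℝ) (hw0 : ∀ C, 0 ≤ w C) (hw1 : ∑ C, w C ≤ 1)
    (hcov : ∀ x, ∑ C ∈ univ.filter (fun C => x ∈ C), w C ≤ 1 / 2) :
    ∑ C, w C * g C ≤ (2 * B + 104) / 3 := by
  classical
  have hB0 : 0 ≤ B := le_trans (abs_nonneg _) (hB ∅)
  -- the inequality for each `r`
  have key : ∀ r : ℕ, 1 ≤ r → 3 * r * (∑ C, w C * g C) ≤
      2 * r * B + 104 * r + (Fintype.card (Finset X)) * B := by
    intro r hr
    have hr0 : (0 : ℝ) ≤ r := Nat.cast_nonneg r
    let n : Finset X → ℕ := fun C => ⌊3 * r * w C⌋₊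
    have hn1 : ∀ C, (n C : ℝ) ≤ 3 * r * w C := fun C => Nat.floor_le (by
      have := hw0 C
      positivity)
    have hn2 : ∀ C, 3 * r * w C ≤ n C + 1 := fun C => (Nat.lt_floor_add_one _).le
    have hsum : ∑ C, n C ≤ 3 * r := by
      have h1 : ((∑ C, n C : ℕ) : ℝ) ≤ 3 * r := by
        push_cast
        calc ∑ C, (n C : ℝ) ≤ ∑ C, 3 * r * w C := sum_le_sum (fun C _ => hn1 C)
          _ = 3 * r * ∑ C, w C := by rw [mul_sum]
          _ ≤ 3 * r * 1 := by gcongr
          _ = 3 * r := mul_one _
      exact_mod_cast h1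
    let I : Type := (Σ C : Finset X, Fin (n C)) ⊕ Fin (3 * r - ∑ C, n C)
    have hI : Fintype.card I = 3 * r := by
      simp only [I, Fintype.card_sum, Fintype.card_sigma, Fintype.card_fin]
      omega
    let A : I → Finset X := fun i => Sum.elim (fun p => p.1) (fun _ => ∅) i
    have hA : ∀ x, 2 * (univ.filter (fun i => x ∈ A i)).card ≤ 3 * r := by
      intro x
      have h1 : (univ.filter (fun i => x ∈ A i)).card =
          ∑ C ∈ univ.filter (fun C => x ∈ C), n C := by
        rw [card_filter, Fintype.sum_sum_type]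
        simp only [A, Sum.elim_inl, Sum.elim_inr, notMem_empty, if_false, sum_const_zero, add_zero]
        rw [Fintype.sum_sigma, sum_filter]
        apply sum_congr rfl
        intro C _
        by_cases hx : x ∈ C
        · rw [if_pos hx]
          refine (sum_congr rfl (fun y _ => if_pos hx)).trans ?_
          simp
        · rw [if_neg hx]
          refine (sum_congr rfl (fun y _ => if_neg hx)).trans ?_
          simp
      rw [h1]
      have h2 : (2 : ℝ) * ((∑ C ∈ univ.filter (fun C => x ∈ C), n C : ℕ) : ℝ) ≤ 3 * r := by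
        push_cast
        calc 2 * ∑ C ∈ univ.filter (fun C => x ∈ C), (n C : ℝ)
            ≤ 2 * ∑ C ∈ univ.filter (fun C => x ∈ C), 3 * r * w C := by
              gcongr with C _
              exact hn1 C
          _ = 2 * (3 * r * ∑ C ∈ univ.filter (fun C => x ∈ C), w C) := by simp only [mul_sum]
          _ ≤ 2 * (3 * r * (1 / 2)) := by gcongr; exact hcov x
          _ = 3 * r := by ring
      exact_mod_cast h2
    have h1 := graph_ineq g hg B (fun A => (le_abs_self _).trans (hB A)) r hr I hI A hA
    have h2 : ∑ i, g (A i) = ∑ C, (n C : ℝ) * g C + ((3 * r - ∑ C, n C : ℕ) : ℝ) * g ∅ := by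
      rw [Fintype.sum_sum_type]
      simp only [A, Sum.elim_inl, Sum.elim_inr]
      rw [Fintype.sum_sigma]
      simp [sum_const, nsmul_eq_mul]
    have h3 : (-(3 * r : ℝ)) ≤ ((3 * r - ∑ C, n C : ℕ) : ℝ) * g ∅ := by
      have h4 := empty_le g hg
      rw [abs_le] at h4
      have h5 : ((3 * r - ∑ C, n C : ℕ) : ℝ) ≤ 3 * r := by
        have : (3 * r - ∑ C, n C : ℕ) ≤ 3 * r := Nat.sub_le _ _
        exact_mod_cast this
      have h6 : (0 : ℝ) ≤ ((3 * r - ∑ C, n C : ℕ) : ℝ) := Nat.cast_nonneg _
      nlinarith [h4.1]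
    have h4 : ∑ C, 3 * r * w C * g C - (Fintype.card (Finset X)) * B ≤ ∑ C, (n C : ℝ) * g C := by
      have h5 : ∑ C : Finset X, (3 * r * w C * g C - B) ≤ ∑ C, (n C : ℝ) * g C := by
        apply sum_le_sum
        intro C _
        have h6 := hB C
        rw [abs_le] at h6
        have h7 := hn1 C
        have h8 := hn2 C
        have h9 : |(3 * r * w C - n C) * g C| ≤ 1 * B := by
          rw [abs_mul]
          apply mul_le_mul _ (hB C) (abs_nonneg _) zero_le_one
          rw [abs_le]
          constructor <;> linarith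
        rw [abs_le] at h9
        nlinarith [h9.2]
      rw [sum_sub_distrib, sum_const, card_univ, nsmul_eq_mul] at h5
      exact h5
    have h5 : ∑ C, 3 * r * w C * g C = 3 * r * ∑ C, w C * g C := by
      rw [mul_sum]
      apply sum_congr rfl
      intro C _
      ring
    rw [h5] at h4
    rw [h2] at h1
    linarith
  -- let `r` go to infinity
  by_contra hcon
  push Not at hcon
  set W := ∑ C, w C * g C with hW
  set D : ℝ := (Fintype.card (Finset X)) * B with hD
  have hpos : 0 < 3 * W - 2 * B - 104 := by linarith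
  obtain ⟨r, hr⟩ := exists_nat_gt (D / (3 * W - 2 * B - 104))
  have h1 := key (r + 1) (by omega)
  rw [div_lt_iff₀ hpos] at hr
  push_cast at h1
  nlinarith

theorem sum_compl_eq (F : Finset X → ℝ) : ∑ C : Finset X, F Cᶜ = ∑ C, F C :=
  Fintype.sum_equiv (Equiv.mk (fun C : Finset X => Cᶜ) (fun C => Cᶜ) (fun C => compl_compl C)
    (fun C => compl_compl C)) _ _ (fun _ => rfl)

/-- one half of the duality argument -/
theorem dual_half (g : Finset X → ℝ)
    (hg : ∀ A B, Disjoint A B → |g (A ∪ B) - g A - g B| ≤ 1) (hgu : g univ = 0)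
    (B : ℝ) (hB : ∀ A, |g A| ≤ B) (c : Finset X → ℝ) (hc : ∑ A, |c A| ≤ 1)
    (hcov : ∀ x, ∑ A ∈ univ.filter (fun A => x ∈ A), c A + ∑ A, max (-c A) 0 ≤ 1 / 2) :
    ∑ A, c A * g A ≤ (2 * B + 107) / 3 := by
  have hsplit : ∀ A, c A = max (c A) 0 - max (-c A) 0 := by
    intro A
    rcases le_total 0 (c A) with h | h
    · rw [max_eq_left h, max_eq_right (by linarith)]; ring
    · rw [max_eq_right h, max_eq_left (by linarith)]; ring
  have habs : ∀ A, |c A| = max (c A) 0 + max (-c A) 0 := by
    intro A
    rcases le_total 0 (c A) with h | h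
    · rw [max_eq_left h, max_eq_right (by linarith), abs_of_nonneg h]; ring
    · rw [max_eq_right h, max_eq_left (by linarith), abs_of_nonpos h]; ring
  let w : Finset X → ℝ := fun C => max (c C) 0 + max (-c Cᶜ) 0
  have hneg : ∑ C : Finset X, max (-c Cᶜ) 0 = ∑ C, max (-c C) 0 :=
    sum_compl_eq (fun C => max (-c C) 0)
  have hw1 : ∑ C, w C ≤ 1 := by
    simp only [w]
    rw [sum_add_distrib, hneg, ← sum_add_distrib]
    rw [sum_congr rfl (fun A _ => (habs A).symm)]
    exact hc
  have hcov' : ∀ x, ∑ C ∈ univ.filter (fun C => x ∈ C), w C ≤ 1 / 2 := by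
    intro x
    simp only [w]
    rw [sum_add_distrib]
    have h1 : ∑ C ∈ univ.filter (fun C : Finset X => x ∈ C), max (-c Cᶜ) 0 =
        ∑ C ∈ univ.filter (fun C : Finset X => x ∉ C), max (-c C) 0 := by
      rw [sum_filter, sum_filter, ← sum_compl_eq]
      apply sum_congr rfl
      intro C _
      simp
    rw [h1]
    have h2 : ∑ A : Finset X, max (-c A) 0 =
        ∑ A ∈ univ.filter (fun A : Finset X => x ∈ A), max (-c A) 0 +
        ∑ A ∈ univ.filter (fun A : Finset X => x ∉ A), max (-c A) 0 :=
      (sum_filter_add_sum_filter_not _ _ _).symm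
    have h3 : ∑ A ∈ univ.filter (fun A : Finset X => x ∈ A), c A =
        ∑ A ∈ univ.filter (fun A : Finset X => x ∈ A), max (c A) 0 -
        ∑ A ∈ univ.filter (fun A : Finset X => x ∈ A), max (-c A) 0 := by
      rw [← sum_sub_distrib]
      exact sum_congr rfl (fun A _ => hsplit A)
    have h4 := hcov x
    rw [h2, h3] at h4
    linarith
  have h1 := weighted_ineq g hg B hB w (fun C => by positivity) hw1 hcov'
  have h2 : ∑ A, c A * g A ≤ ∑ C, w C * g C + 1 := by
    have h3 : ∑ C, w C * g C = ∑ C, max (c C) 0 * g C + ∑ C, max (-c C) 0 * g Cᶜ := by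
      have h4 : ∑ C : Finset X, max (-c C) 0 * g Cᶜ = ∑ C : Finset X, max (-c Cᶜ) 0 * g C := by
        rw [← sum_compl_eq]
        apply sum_congr rfl
        intro C _
        rw [compl_compl]
      rw [h4, ← sum_add_distrib]
      apply sum_congr rfl
      intro C _
      simp only [w]
      ring
    have h5 : ∑ A, c A * g A = ∑ A, max (c A) 0 * g A - ∑ A, max (-c A) 0 * g A := by
      rw [← sum_sub_distrib]
      apply sum_congr rfl
      intro A _
      conv_lhs => rw [hsplit A]
      ring
    have h6 : ∑ A : Finset X, max (-c A) 0 * (g Aᶜ + g A) ≥ ∑ A : Finset X, max (-c A) 0 * (-1) := by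
      apply sum_le_sum
      intro A _
      have h7 := hg A Aᶜ disjoint_compl_right
      rw [union_compl, hgu, abs_le] at h7
      have h8 : 0 ≤ max (-c A) 0 := le_max_right _ _
      apply mul_le_mul_of_nonneg_left _ h8
      linarith [h7.2]
    have h7 : ∑ A : Finset X, max (-c A) 0 ≤ 1 := by
      refine le_trans (sum_le_sum (fun A _ => ?_)) hc
      rw [habs]
      have : 0 ≤ max (c A) 0 := le_max_right _ _
      linarith
    have h8 : ∑ A : Finset X, max (-c A) 0 * (-1) = - ∑ A : Finset X, max (-c A) 0 := by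
      rw [← sum_neg_distrib]
      apply sum_congr rfl
      intro A _
      ring
    have h9 : ∑ A : Finset X, max (-c A) 0 * (g Aᶜ + g A) =
        ∑ A : Finset X, max (-c A) 0 * g Aᶜ + ∑ A : Finset X, max (-c A) 0 * g A := by
      rw [← sum_add_distrib]
      apply sum_congr rfl
      intro A _
      ring
    rw [h8, h9] at h6
    rw [h3, h5]
    linarith
  linarith

/-- the map sending weights to additive set functions -/
noncomputable def addMap (X : Type) [Fintype X] [DecidableEq X] :
    (X → ℝ) →ₗ[ℝ] (Finset X → ℝ) where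
  toFun w := fun A => ∑ x ∈ A, w x
  map_add' := by
    intro v w
    ext A
    simp [sum_add_distrib]
  map_smul' := by
    intro c w
    ext A
    simp [mul_sum]

/-- **Kalton-Roberts theorem**, with a non-optimal constant. -/
theorem kalton_roberts (f : Finset X → ℝ)
    (hf : ∀ A B, Disjoint A B → |f (A ∪ B) - f A - f B| ≤ 1) :
    ∃ w : X → ℝ, ∀ A, |f A - ∑ x ∈ A, w x| ≤ 111 := by
  classical
  rcases isEmpty_or_nonempty X with hX | ⟨⟨x0⟩⟩
  · refine ⟨fun _ => 0, fun A => ?_⟩
    have hA : A = ∅ := by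
      ext x
      exact (hX.false x).elim
    rw [hA, sum_empty, sub_zero]
    exact (empty_le f hf).trans (by norm_num)
  · -- normalize
    let V : Submodule ℝ (Finset X → ℝ) := Submodule.map (addMap X)
      (LinearMap.ker (∑ x : X, LinearMap.proj x : (X → ℝ) →ₗ[ℝ] ℝ))
    have hVc : IsClosed (V : Set (Finset X → ℝ)) := Submodule.closed_of_finiteDimensional V
    let w0 : X → ℝ := Pi.single x0 (f univ)
    let g0 : Finset X → ℝ := f - addMap X w0
    obtain ⟨φ, hφ1, hφ2⟩ := exists_dual_vector'' ℝ (Submodule.Quotient.mk g0 : (Finset X → ℝ) ⧸ V)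
    set M : ℝ := ‖(Submodule.Quotient.mk g0 : (Finset X → ℝ) ⧸ V)‖ with hM
    obtain ⟨g, hgm, hgn⟩ := Submodule.Quotient.norm_mk_lt (S := V)
      (Submodule.Quotient.mk g0 : (Finset X → ℝ) ⧸ V) (ε := 1) one_pos
    rw [← hM] at hgn
    have hgV : g0 - g ∈ V := (Submodule.Quotient.eq V).1 hgm.symm
    obtain ⟨w1, hw1, hw1'⟩ := hgV
    have hw1s : ∑ x, w1 x = 0 := by
      have := LinearMap.mem_ker.1 hw1
      simpa using this
    have hgval : ∀ A, g A = f A - ∑ x ∈ A, (w0 x + w1 x) := by
      intro A
      have h1 := congrFun hw1' A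
      have h2 : addMap X w1 A = ∑ x ∈ A, w1 x := rfl
      have h3 : g0 A = f A - ∑ x ∈ A, w0 x := rfl
      rw [h2, Pi.sub_apply, h3] at h1
      rw [sum_add_distrib]
      linarith
    have hgu : g univ = 0 := by
      rw [hgval, sum_add_distrib, hw1s]
      simp [w0]
    have hgd : ∀ A B, Disjoint A B → |g (A ∪ B) - g A - g B| ≤ 1 := by
      intro A B hAB
      have h1 : g (A ∪ B) - g A - g B = f (A ∪ B) - f A - f B := by
        rw [hgval, hgval, hgval, sum_union hAB]
        ring
      rw [h1]
      exact hf A B hAB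
    have hgB : ∀ A, |g A| ≤ M + 1 := by
      intro A
      have := norm_le_pi_norm g A
      rw [Real.norm_eq_abs] at this
      linarith
    -- the dual certificate
    let c : Finset X → ℝ := fun A => φ (Submodule.Quotient.mk (Pi.single A (1 : ℝ)))
    have hφsum : ∀ h : Finset X → ℝ, φ (Submodule.Quotient.mk h : (Finset X → ℝ) ⧸ V) =
        ∑ A, c A * h A := by
      intro h
      have h1 : h = ∑ A, h A • (Pi.single A (1 : ℝ) : Finset X → ℝ) := by
        ext A
        simp [Finset.sum_apply, Pi.single_apply]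
      have h2 : (Submodule.Quotient.mk h : (Finset X → ℝ) ⧸ V) =
          ∑ A, h A • (Submodule.Quotient.mk (Pi.single A (1 : ℝ)) : (Finset X → ℝ) ⧸ V) := by
        conv_lhs => rw [h1]
        have h3 := map_sum V.mkQ (fun A => h A • (Pi.single A (1 : ℝ) : Finset X → ℝ)) univ
        exact h3
      rw [h2, map_sum]
      apply sum_congr rfl
      intro A _
      rw [map_smul, smul_eq_mul, mul_comm]
    have hc1 : ∑ A, |c A| ≤ 1 := by
      let h : Finset X → ℝ := fun A => SignType.sign (c A)
      have h1 : ∑ A, |c A| = φ (Submodule.Quotient.mk h : (Finset X → ℝ) ⧸ V) := by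
        rw [hφsum]
        apply sum_congr rfl
        intro A _
        simp only [h]
        rw [mul_comm, sign_mul_self]
      have h2 : ‖h‖ ≤ 1 := by
        rw [pi_norm_le_iff_of_nonneg zero_le_one]
        intro A
        simp only [h]
        rcases lt_trichotomy (c A) 0 with h3 | h3 | h3
        · rw [sign_neg h3]; simp
        · rw [h3]; simp
        · rw [sign_pos h3]; simp
      rw [h1]
      calc φ (Submodule.Quotient.mk h : (Finset X → ℝ) ⧸ V) ≤ ‖φ (Submodule.Quotient.mk h)‖ :=
            le_abs_self _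
        _ ≤ ‖φ‖ * ‖(Submodule.Quotient.mk h : (Finset X → ℝ) ⧸ V)‖ := φ.le_opNorm _
        _ ≤ 1 * 1 := by
          gcongr
          exact (Submodule.Quotient.norm_mk_le V h).trans h2
        _ = 1 := one_mul _
    have hMval : M = ∑ A, c A * g A := by
      rw [← hφsum g]
      have h1 : (Submodule.Quotient.mk g : (Finset X → ℝ) ⧸ V) = Submodule.Quotient.mk g0 := hgm
      rw [h1, hφ2]
      simp [hM]
    -- the coverage is constant
    let κ : X → ℝ := fun x => ∑ A ∈ univ.filter (fun A => x ∈ A), c A
    have hκ : ∀ x y, κ x = κ y := by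
      intro x y
      by_cases hxy : x = y
      · rw [hxy]
      · let v : X → ℝ := Pi.single x 1 - Pi.single y 1
        have hv : addMap X v ∈ V := by
          refine ⟨v, ?_, rfl⟩
          rw [SetLike.mem_coe, LinearMap.mem_ker]
          simp [v]
        have h1 : (Submodule.Quotient.mk (addMap X v) : (Finset X → ℝ) ⧸ V) = 0 :=
          (Submodule.Quotient.mk_eq_zero V).2 hv
        have h2 := hφsum (addMap X v)
        rw [h1, map_zero] at h2
        have h3 : ∀ A, addMap X v A = (if x ∈ A then 1 else 0) - (if y ∈ A then 1 else 0) := by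
          intro A
          show ∑ z ∈ A, v z = _
          simp [v, Pi.single_apply, sum_sub_distrib]
        have h4 : ∑ A, c A * addMap X v A = κ x - κ y := by
          simp only [κ]
          rw [sum_filter, sum_filter, ← sum_sub_distrib]
          apply sum_congr rfl
          intro A _
          rw [h3]
          split_ifs <;> ring
        rw [h4] at h2
        linarith
    have habs : ∀ A, |c A| = max (c A) 0 + max (-c A) 0 := by
      intro A
      rcases le_total 0 (c A) with h | h
      · rw [max_eq_left h, max_eq_right (by linarith), abs_of_nonneg h]; ring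
      · rw [max_eq_right h, max_eq_left (by linarith), abs_of_nonpos h]; ring
    have hsum : (κ x0 + ∑ A, max (-c A) 0) + (-κ x0 + ∑ A, max (c A) 0) ≤ 1 := by
      have : ∑ A, |c A| = ∑ A, max (c A) 0 + ∑ A, max (-c A) 0 := by
        rw [← sum_add_distrib]
        exact sum_congr rfl (fun A _ => habs A)
      rw [this] at hc1
      linarith
    have hMle : M ≤ (2 * (M + 1) + 107) / 3 := by
      rcases le_total (κ x0 + ∑ A, max (-c A) 0) (1 / 2) with h | h
      · rw [hMval]
        rw [hMval] at hgB
        refine dual_half g hgd hgu _ hgB c hc1 ?_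
        intro x
        have : κ x = κ x0 := hκ x x0
        show κ x + _ ≤ _
        rw [this]
        exact h
      · have h' : -κ x0 + ∑ A, max (c A) 0 ≤ 1 / 2 := by linarith
        have h1 := dual_half (fun A => -g A) (by
          intro A B hAB
          have := hgd A B hAB
          have h2 : -g (A ∪ B) - -g A - -g B = -(g (A ∪ B) - g A - g B) := by ring
          rw [h2, abs_neg]
          exact this) (by rw [hgu, neg_zero]) (M + 1) (by
          intro A
          rw [abs_neg]
          exact hgB A) (fun A => -c A) (by simpa using hc1) (by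
          intro x
          have h2 : κ x = κ x0 := hκ x x0
          rw [sum_neg_distrib]
          show -κ x + _ ≤ _
          rw [h2]
          simpa using h')
        have h2 : ∑ A, -c A * -g A = ∑ A, c A * g A := by
          apply sum_congr rfl
          intro A _
          ring
        rw [h2, ← hMval] at h1
        exact h1
    refine ⟨fun x => w0 x + w1 x, fun A => ?_⟩
    rw [← hgval]
    have := hgB A
    linarith

end MP4ea76a
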