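import Pool.Agent.Lib.MP_4ea76a_an.Compl

open Filter Topology Set
open scoped ENNReal

noncomputable section

namespace MP4ea76a

/-- characteristic function of a subset of `ℕ` -/
def ch (a : ℕ → Bool) : Linf ℕ :=
  mkInf (fun n => if a n = true then 1 else 0) 1 (by intro n; split_ifs <;> simp)

theorem ch_apply (a : ℕ → Bool) (n : ℕ) : ch a n = if a n = true then 1 else 0 := rfl

/-- `F` is a (possibly nonlinear) lifting of the operator `T` on the characteristic functions:
for every `a ⊆ ℕ` the sequence `F a` represents the class `T [χ_a]`. -/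
def Lift (T : Q →L[ℝ] Q) (F : (ℕ → Bool) → ℕ → ℝ) : Prop :=
  ∀ a : ℕ → Bool, ∃ g : Linf ℕ, qmap g = T (qmap (ch a)) ∧
    Tendsto (fun k => F a k - g k) atTop (𝓝 0)

theorem Lift.any {T : Q →L[ℝ] Q} {F : (ℕ → Bool) → ℕ → ℝ} (h : Lift T F) (a : ℕ → Bool)
    (g : Linf ℕ) (hg : qmap g = T (qmap (ch a))) :
    Tendsto (fun k => F a k - g k) atTop (𝓝 0) := by
  obtain ⟨g', hg', hF⟩ := h a
  have h1 : Tendsto (fun k => (g' - g) k) atTop (𝓝 0) := mem_c0.1 (qmap_eq_iff.1 (hg'.trans hg.symm))
  have h2 := hF.add h1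
  rw [add_zero] at h2
  refine h2.congr (fun k => ?_)
  rw [sub_apply']
  ring

theorem Lift.rel {T : Q →L[ℝ] Q} {F : (ℕ → Bool) → ℕ → ℝ} (h : Lift T F) {ι : Type}
    (s : Finset ι) (c : ι → ℝ) (a : ι → ℕ → Bool) (hc : ∑ i ∈ s, c i • ch (a i) ∈ c0) :
    Tendsto (fun k => ∑ i ∈ s, c i * F (a i) k) atTop (𝓝 0) := by
  choose g hg using fun i => qmap_surj (T (qmap (ch (a i))))
  have h1 : ∑ i ∈ s, c i • g i ∈ c0 := by
    rw [← qmap_eq_zero, map_sum]
    have h2 : ∑ i ∈ s, qmap (c i • g i) = T (qmap (∑ i ∈ s, c i • ch (a i))) := by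
      rw [map_sum, map_sum]
      apply Finset.sum_congr rfl
      intro i _
      rw [map_smul, hg, map_smul, map_smul]
    rw [h2, qmap_eq_zero.2 hc, map_zero]
  have h2 : Tendsto (fun k => ∑ i ∈ s, c i * (F (a i) k - g i k)) atTop (𝓝 0) := by
    have h3 : Tendsto (fun k => ∑ i ∈ s, c i * (F (a i) k - g i k)) atTop
        (𝓝 (∑ i ∈ s, c i * 0)) :=
      tendsto_finsetSum s (fun i _ => (h.any (a i) (g i) (hg i)).const_mul (c i))
    simpa using h3
  have h3 := h2.add (mem_c0.1 h1)
  rw [add_zero] at h3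
  refine h3.congr (fun k => ?_)
  have h4 : (∑ i ∈ s, c i • g i : Linf ℕ) k = ∑ i ∈ s, c i * g i k := by
    rw [lp.coeFn_sum, Finset.sum_apply]
    rfl
  rw [h4, ← Finset.sum_add_distrib]
  apply Finset.sum_congr rfl
  intro i _
  ring

theorem Lift.of_sub {T : Q →L[ℝ] Q} {F H : (ℕ → Bool) → ℕ → ℝ} (h : Lift T F)
    (hFH : ∀ a, Tendsto (fun k => H a k - F a k) atTop (𝓝 0)) : Lift T H := by
  intro a
  obtain ⟨g, hg, hF⟩ := h a
  refine ⟨g, hg, ?_⟩
  have h1 := (hFH a).add hF
  rw [add_zero] at h1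
  refine h1.congr (fun k => ?_)
  ring

/-- block indices of a strictly increasing sequence starting at `0` -/
theorem exists_block_index (nn : ℕ → ℕ) (hnn : StrictMono nn) (h0 : nn 0 = 0) :
    ∃ b : ℕ → ℕ, ∀ k i, b k = i ↔ nn i ≤ k ∧ k < nn (i + 1) := by
  refine ⟨fun k => Nat.findGreatest (fun i => nn i ≤ k) k, fun k i => ?_⟩
  have hb1 : nn (Nat.findGreatest (fun i => nn i ≤ k) k) ≤ k :=
    Nat.findGreatest_spec (P := fun i => nn i ≤ k) (Nat.zero_le k) (by rw [h0]; omega)
  have hb2 : k < nn (Nat.findGreatest (fun i => nn i ≤ k) k + 1) := by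
    by_contra hcon
    push Not at hcon
    have h1 : Nat.findGreatest (fun i => nn i ≤ k) k + 1 ≤ k := le_trans hnn.le_apply hcon
    have h2 : Nat.findGreatest (fun i => nn i ≤ k) k + 1 ≤ Nat.findGreatest (fun i => nn i ≤ k) k :=
      Nat.le_findGreatest h1 hcon
    omega
  constructor
  · rintro rfl
    exact ⟨hb1, hb2⟩
  · rintro ⟨h1, h2⟩
    apply le_antisymm
    · by_contra hcon
      push Not at hcon
      have := hnn.monotone (Nat.succ_le_of_lt hcon)
      simp only [Nat.succ_eq_add_one] at this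
      omega
    · exact Nat.le_findGreatest (le_trans hnn.le_apply h1) h1

/-- A function with the Baire property is continuous on a comeager set. -/
theorem exists_residual_continuousOn (f : (ℕ → Bool) → ℝ)
    (hf : ∀ O : Set ℝ, IsOpen O → BaireMeasurableSet (f ⁻¹' O)) :
    ∃ R ∈ residual (ℕ → Bool), ContinuousOn f R := by
  let 𝓑 := TopologicalSpace.countableBasis ℝ
  have h1 : ∀ O ∈ 𝓑, ∃ u : Set (ℕ → Bool), IsOpen u ∧ f ⁻¹' O =ᵇ u := fun O hO =>
    (hf O (TopologicalSpace.isOpen_of_mem_countableBasis hO)).residualEq_isOpen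
  choose! u hu1 hu2 using h1
  refine ⟨⋂ O ∈ 𝓑, {x | x ∈ f ⁻¹' O ↔ x ∈ u O}, ?_, ?_⟩
  · rw [countable_bInter_mem (TopologicalSpace.countable_countableBasis ℝ)]
    intro O hO
    have := hu2 O hO
    exact this.mem_iff
  · intro x hx
    rw [ContinuousWithinAt, (TopologicalSpace.isBasis_countableBasis ℝ).nhds_hasBasis.tendsto_right_iff]
    rintro O ⟨hO, hxO⟩
    simp only [mem_iInter] at hx
    have hxu : x ∈ u O := (hx O hO).1 hxO
    filter_upwards [mem_nhdsWithin_of_mem_nhds ((hu1 O hO).mem_nhds hxu), self_mem_nhdsWithin]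
      with y hy1 hy2
    simp only [mem_iInter] at hy2
    exact (hy2 O hO).2 hy1

theorem exists_cylinder_subset {A : Type} [TopologicalSpace A] [DiscreteTopology A]
    {U : Set (ℕ → A)} (hU : IsOpen U) {x : ℕ → A} (hx : x ∈ U) :
    ∃ n, ∀ y : ℕ → A, (∀ i < n, y i = x i) → y ∈ U := by
  obtain ⟨v, ⟨z, n, rfl⟩, hxv, hvU⟩ :=
    (PiNat.isTopologicalBasis_cylinders (fun _ : ℕ => A)).exists_subset_of_mem_open hx hU
  refine ⟨n, fun y hy => hvU ?_⟩
  rw [PiNat.mem_cylinder_iff] at hxv ⊢
  intro i hi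
  rw [hy i hi, hxv i hi]

theorem isOpen_agree {A : Type} [TopologicalSpace A] [DiscreteTopology A] (x : ℕ → A) (n : ℕ) :
    IsOpen {y : ℕ → A | ∀ i < n, y i = x i} := by
  have : {y : ℕ → A | ∀ i < n, y i = x i} = PiNat.cylinder x n := by
    ext y
    rw [PiNat.mem_cylinder_iff]
    rfl
  rw [this]
  exact PiNat.isOpen_cylinder (fun _ => A) x n

/-- patterns forcing membership in a dense open set -/
theorem exists_pattern (U : Set (ℕ → Bool)) (hU : IsOpen U) (hUd : Dense U) (n : ℕ) :
    ∃ n' > n, ∃ t : ℕ → Bool, ∀ x : ℕ → Bool, (∀ k, n ≤ k → k < n' → x k = t k) → x ∈ U := by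
  classical
  have key : ∀ 𝒮 : Finset (Fin n → Bool), ∃ n' > n, ∃ t : ℕ → Bool, ∀ x : ℕ → Bool,
      (fun i : Fin n => x i) ∈ 𝒮 → (∀ k, n ≤ k → k < n' → x k = t k) → x ∈ U := by
    intro 𝒮
    induction 𝒮 using Finset.induction_on with
    | empty => exact ⟨n + 1, by omega, fun _ => false, fun x hx => by simp at hx⟩
    | insert s 𝒮 _ ih =>
      obtain ⟨n', hn', t, ht⟩ := ih
      let x0 : ℕ → Bool := fun k => if h : k < n then s ⟨k, h⟩ else t k
      obtain ⟨y, hy1, hy2⟩ := hUd.inter_open_nonempty _ (isOpen_agree x0 n') ⟨x0, fun i _ => rfl⟩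
      obtain ⟨n'', hn''⟩ := exists_cylinder_subset hU hy2
      refine ⟨max n' n'', by omega, y, fun x hx hxy => ?_⟩
      rcases Finset.mem_insert.1 hx with hxs | hx𝒮
      · apply hn''
        intro i hi
        by_cases hin : i < n
        · have h1 := hy1 i (by omega)
          rw [h1]
          have h2 := congrFun hxs ⟨i, hin⟩
          simp only [x0, dif_pos hin]
          exact h2
        · exact hxy i (by omega) (by omega)
      · apply ht x hx𝒮
        intro k hk1 hk2
        rw [hxy k hk1 (by omega), hy1 k hk2]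
        simp only [x0]
        rw [dif_neg (by omega)]
  obtain ⟨n', hn', t, ht⟩ := key Finset.univ
  exact ⟨n', hn', t, fun x hx => ht x (Finset.mem_univ _) hx⟩

/-- From a lifting with the Baire property to a continuous lifting. -/
theorem exists_continuous_lift {T : Q →L[ℝ] Q} {F : (ℕ → Bool) → ℕ → ℝ} (hF : Lift T F)
    (hB : ∀ k, ∀ O : Set ℝ, IsOpen O → BaireMeasurableSet ((fun a => F a k) ⁻¹' O)) :
    ∃ H : (ℕ → Bool) → ℕ → ℝ, Lift T H ∧ ∀ k, Continuous (fun a => H a k) := by
  -- a comeager set on which all coordinates are continuous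
  choose R hR1 hR2 using fun k => exists_residual_continuousOn (fun a => F a k) (hB k)
  have hR : (⋂ k, R k) ∈ residual (ℕ → Bool) := by
    rw [countable_iInter_mem]
    exact hR1
  obtain ⟨t, htR, htG, htd⟩ := mem_residual.1 hR
  obtain ⟨U, hUo, hUt⟩ := isGδ_iff_eq_iInter_nat.1 htG
  let W : ℕ → Set (ℕ → Bool) := fun i => ⋂ j ∈ Finset.range (i + 1), U j
  have hWo : ∀ i, IsOpen (W i) := fun i => isOpen_biInter_finset (fun j _ => hUo j)
  have hWd : ∀ i, Dense (W i) := by
    intro i
    refine htd.mono ?_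
    rw [hUt]
    intro x hx
    simp only [W, mem_iInter] at hx ⊢
    intro j _
    exact hx j
  choose nxt hnxt pat hpat using fun i n => exists_pattern (W i) (hWo i) (hWd i) n
  let nn : ℕ → ℕ := fun i => Nat.rec (motive := fun _ => ℕ) 0 (fun i m => nxt i m) i
  have nn0 : nn 0 = 0 := rfl
  have nn1 : ∀ i, nn (i + 1) = nxt i (nn i) := fun i => rfl
  have hnn : StrictMono nn := strictMono_nat_of_lt_succ (fun i => by rw [nn1]; exact hnxt _ _)
  obtain ⟨b, hb⟩ := exists_block_index nn hnn nn0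
  let tt : ℕ → Bool := fun k => pat (b k) (nn (b k)) k
  have hmemW : ∀ x : ℕ → Bool, ∀ i, (∀ k, b k = i → x k = tt k) → x ∈ W i := by
    intro x i hx
    apply hpat i (nn i)
    intro k hk1 hk2
    rw [← nn1] at hk2
    have hbk : b k = i := (hb k i).2 ⟨hk1, hk2⟩
    rw [hx k hbk]
    simp only [tt, hbk]
  have hmem : ∀ x : ℕ → Bool, (∀ j, ∃ i ≥ j, ∀ k, b k = i → x k = tt k) → x ∈ t := by
    intro x hx
    rw [hUt, mem_iInter]
    intro j
    obtain ⟨i, hij, hi⟩ := hx j
    have h1 := hmemW x i hi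
    simp only [W, mem_iInter] at h1
    exact h1 j (Finset.mem_range.2 (by omega))
  let e0 : (ℕ → Bool) → (ℕ → Bool) := fun a k => if Even (b k) then a k else tt k
  let e1 : (ℕ → Bool) → (ℕ → Bool) := fun a k => if Even (b k) then tt k else a k
  have he0 : ∀ a, e0 a ∈ t := by
    intro a
    apply hmem
    intro j
    refine ⟨2 * j + 1, by omega, fun k hk => ?_⟩
    simp only [e0]
    rw [if_neg]
    rw [hk]
    intro h
    have := Nat.even_iff.1 h
    omega
  have he1 : ∀ a, e1 a ∈ t := by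
    intro a
    apply hmem
    intro j
    refine ⟨2 * j, by omega, fun k hk => ?_⟩
    simp only [e1]
    rw [if_pos]
    rw [hk]
    exact even_two_mul j
  have hc0 : Continuous e0 := by
    apply continuous_pi
    intro k
    by_cases h : Even (b k)
    · simp only [e0, if_pos h]; exact continuous_apply k
    · simp only [e0, if_neg h]; exact continuous_const
  have hc1 : Continuous e1 := by
    apply continuous_pi
    intro k
    by_cases h : Even (b k)
    · simp only [e1, if_pos h]; exact continuous_const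
    · simp only [e1, if_neg h]; exact continuous_apply k
  let z : ℕ → Bool := fun _ => false
  refine ⟨fun a k => F (e0 a) k - F (e0 z) k + F (e1 a) k - F (e1 z) k, ?_, ?_⟩
  · apply hF.of_sub
    intro a
    have h1 := hF.rel (Finset.univ : Finset (Fin 5)) ![1, -1, 1, -1, -1] ![e0 a, e0 z, e1 a, e1 z, a]
      (by
        have h2 : ∑ i : Fin 5, (![1, -1, 1, -1, -1] : Fin 5 → ℝ) i •
            ch ((![e0 a, e0 z, e1 a, e1 z, a] : Fin 5 → ℕ → Bool) i) = 0 := by
          rw [Fin.sum_univ_five]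
          ext n
          show (1 * ch (e0 a) n + -1 * ch (e0 z) n + 1 * ch (e1 a) n + -1 * ch (e1 z) n +
            -1 * ch a n) = 0
          simp only [ch_apply, e0, e1, z]
          by_cases h : Even (b n)
          · simp only [if_pos h]
            split_ifs <;> simp_all
          · simp only [if_neg h]
            split_ifs <;> simp_all
        rw [h2]
        exact c0.zero_mem)
    refine h1.congr (fun k => ?_)
    rw [Fin.sum_univ_five]
    show 1 * F (e0 a) k + -1 * F (e0 z) k + 1 * F (e1 a) k + -1 * F (e1 z) k + -1 * F a k = _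
    ring
  · intro k
    have hk : ContinuousOn (fun a => F a k) t := (hR2 k).mono (fun x hx => by
      have := htR hx
      rw [mem_iInter] at this
      exact this k)
    have h0 : Continuous (fun a => F (e0 a) k) := hk.comp_continuous hc0 he0
    have h1 : Continuous (fun a => F (e1 a) k) := hk.comp_continuous hc1 he1
    exact ((h0.sub continuous_const).add h1).sub continuous_const

end MP4ea76a
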