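import Pool.Agent.Lib.MP_4ea76a_an.Basic

open Filter Topology Set
open scoped ENNReal

noncomputable section

namespace MP4ea76a

theorem add_smul_apply {ι : Type} (f g : Linf ι) (s : ℝ) (k : ι) :
    (f + s • g) k = f k + s * g k := rfl

/-- operator induced on the quotient -/
def indMap (L : Linf ℕ →L[ℝ] Linf ℕ) (h : ∀ f ∈ c0, L f ∈ c0) : Q →L[ℝ] Q :=
  c0.liftQL (qmap ∘L L) (by
    intro f hf
    show qmap (L f) = 0
    exact qmap_eq_zero.2 (h f hf))

@[simp] theorem indMap_qmap (L : Linf ℕ →L[ℝ] Linf ℕ) (h : ∀ f ∈ c0, L f ∈ c0) (f : Linf ℕ) :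
    indMap L h (qmap f) = qmap (L f) := rfl

theorem norm_indMap_le (L : Linf ℕ →L[ℝ] Linf ℕ) (h : ∀ f ∈ c0, L f ∈ c0) (C : ℝ) (hC : 0 ≤ C)
    (hL : ∀ f, ‖L f‖ ≤ C * ‖f‖) (q : Q) : ‖indMap L h q‖ ≤ C * ‖q‖ := by
  have key : ∀ ε > 0, ‖indMap L h q‖ ≤ C * (‖q‖ + ε) := by
    intro ε hε
    obtain ⟨f, hf, hfn⟩ := Submodule.Quotient.norm_mk_lt (S := c0) q hε
    have hf' : qmap f = q := hf
    rw [← hf', indMap_qmap, hf']
    calc ‖qmap (L f)‖ ≤ ‖L f‖ := Submodule.Quotient.norm_mk_le c0 (L f)
      _ ≤ C * ‖f‖ := hL f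
      _ ≤ C * (‖q‖ + ε) := by gcongr
  by_cases hC0 : C = 0
  · have := key 1 one_pos
    rw [hC0] at this ⊢
    simpa using this
  · refine le_of_forall_pos_le_add ?_
    intro ε hε
    have hCp : 0 < C := lt_of_le_of_ne hC (Ne.symm hC0)
    have := key (ε / C) (by positivity)
    have h2 : C * (‖q‖ + ε / C) = C * ‖q‖ + ε := by field_simp
    linarith

/-- composition with a strictly increasing sequence -/
def compOp (a : ℕ → ℕ) : Linf ℕ →L[ℝ] Linf ℕ :=
  assemble (fun i => { toFun := fun f => f (a i), map_add' := by simp, map_smul' := by simp }) 1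
    (by intro i f; rw [one_mul]; exact abs_apply_le f (a i))

@[simp] theorem compOp_apply (a : ℕ → ℕ) (f : Linf ℕ) (i : ℕ) : compOp a f i = f (a i) := rfl

theorem compOp_c0 (a : ℕ → ℕ) (ha : StrictMono a) : ∀ f ∈ c0, compOp a f ∈ c0 := by
  intro f hf
  rw [mem_c0] at hf ⊢
  exact hf.comp ha.tendsto_atTop

theorem norm_compOp_le (a : ℕ → ℕ) (f : Linf ℕ) : ‖compOp a f‖ ≤ 1 * ‖f‖ := by
  rw [one_mul]
  exact norm_le_of (norm_nonneg _) (fun i => abs_apply_le f (a i))

/-- index set of the almost disjoint family -/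
abbrev Gam : Type := ℕ → Bool

/-- the branch of `γ` in the binary tree of positive integers -/
def code (γ : Gam) : ℕ → ℕ
  | 0 => 1
  | (n + 1) => 2 * code γ n + (if γ n then 1 else 0)

theorem code_pos (γ : Gam) (n : ℕ) : 1 ≤ code γ n := by
  induction n with
  | zero => simp [code]
  | succ n ih => simp only [code]; omega

theorem code_strictMono (γ : Gam) : StrictMono (code γ) := by
  apply strictMono_nat_of_lt_succ
  intro n
  have := code_pos γ n
  simp only [code]
  omega

theorem code_inj (γ γ' : Gam) : ∀ n m, code γ n = code γ' m → n = m ∧ ∀ i < n, γ i = γ' i := by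
  intro n
  induction n with
  | zero =>
    intro m h
    cases m with
    | zero => exact ⟨rfl, by intro i hi; omega⟩
    | succ m =>
      exfalso
      have := code_pos γ' m
      simp only [code] at h
      omega
  | succ n ih =>
    intro m h
    cases m with
    | zero =>
      exfalso
      have := code_pos γ n
      simp only [code] at h
      omega
    | succ m =>
      simp only [code] at h
      have h1 : code γ n = code γ' m := by
        split_ifs at h <;> omega
      obtain ⟨h2, h3⟩ := ih m h1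
      subst h2
      refine ⟨rfl, ?_⟩
      intro i hi
      rcases Nat.lt_succ_iff_lt_or_eq.1 hi with hi' | hi'
      · exact h3 i hi'
      · subst hi'
        split_ifs at h with a b b
        · rw [a, b]
        · omega
        · omega
        · simp only [Bool.not_eq_true] at a b
          rw [a, b]

theorem code_ad (γ γ' : Gam) (h : γ ≠ γ') :
    ∃ N, ∀ k ≥ N, ¬ (k ∈ range (code γ) ∧ k ∈ range (code γ')) := by
  obtain ⟨i, hi⟩ : ∃ i, γ i ≠ γ' i := by
    by_contra hcon
    push Not at hcon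
    exact h (funext hcon)
  refine ⟨code γ (i + 1), ?_⟩
  rintro k hk ⟨⟨n, hn⟩, ⟨m, hm⟩⟩
  have h1 : i + 1 ≤ n := by
    rw [← hn] at hk
    exact (code_strictMono γ).le_iff_le.1 hk
  exact hi ((code_inj γ γ' n m (hn.trans hm.symm)).2 i h1)

open Classical in
/-- characteristic function of the branch -/
def chi (γ : Gam) : Linf ℕ :=
  mkInf (fun k => if k ∈ range (code γ) then 1 else 0) 1 (by intro k; split_ifs <;> simp)

def one : Linf ℕ := mkInf (fun _ => 1) 1 (by intro k; simp)

theorem norm_qmap_one : ‖qmap one‖ = 1 := by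
  apply le_antisymm
  · refine norm_qmap_le zero_le_one ?_
    intro ε hε
    refine ⟨0, fun n _ => ?_⟩
    simp only [one, mkInf_apply, abs_one]
    linarith
  · by_contra hcon
    push Not at hcon
    obtain ⟨r, h1, h2⟩ := exists_between hcon
    obtain ⟨N, hN⟩ := eventually_le_of_norm_qmap_lt h1
    have := hN N le_rfl
    simp only [one, mkInf_apply, abs_one] at this
    linarith

theorem compOp_chi_self (γ : Gam) : compOp (code γ) (chi γ) = one := by
  ext i
  simp [chi, one]

theorem compOp_chi_ne (γ γ' : Gam) (h : γ ≠ γ') : compOp (code γ) (chi γ') ∈ c0 := by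
  rw [mem_c0']
  intro ε hε
  obtain ⟨N, hN⟩ := code_ad γ γ' h
  refine ⟨N, fun n hn => ?_⟩
  have h1 : N ≤ code γ n := le_trans hn (code_strictMono γ).le_apply
  have h2 := hN _ h1
  have h3 : code γ n ∉ range (code γ') := fun h4 => h2 ⟨⟨n, rfl⟩, h4⟩
  simp only [compOp_apply, chi, mkInf_apply]
  rw [if_neg h3]
  simpa using hε.le

open Classical in
/-- the coordinate functionals of the almost disjoint family -/
theorem exists_coord : ∃ J : Q →L[ℝ] Linf Gam, (∀ q, ‖J q‖ ≤ ‖q‖) ∧
    ∀ γ γ', J (qmap (chi γ')) γ = if γ = γ' then 1 else 0 := by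
  obtain ⟨g, hg1, hg2⟩ := exists_dual_vector'' ℝ (qmap one)
  rw [norm_qmap_one] at hg2
  let φ : Gam → Q →ₗ[ℝ] ℝ := fun γ =>
    ((g ∘L (indMap (compOp (code γ)) (compOp_c0 _ (code_strictMono γ))) : Q →L[ℝ] ℝ) : Q →ₗ[ℝ] ℝ)
  have hφ : ∀ γ q, |φ γ q| ≤ 1 * ‖q‖ := by
    intro γ q
    have h1 : |φ γ q| ≤ ‖g‖ * ‖indMap (compOp (code γ)) (compOp_c0 _ (code_strictMono γ)) q‖ :=
      g.le_opNorm _
    have h2 := norm_indMap_le (compOp (code γ)) (compOp_c0 _ (code_strictMono γ)) 1 zero_le_one
      (norm_compOp_le _) q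
    calc |φ γ q| ≤ _ := h1
      _ ≤ 1 * (1 * ‖q‖) := by gcongr
      _ = 1 * ‖q‖ := by ring
  refine ⟨assemble φ 1 hφ, ?_, ?_⟩
  · intro q
    refine norm_le_of (norm_nonneg _) ?_
    intro γ
    have := hφ γ q
    rw [one_mul] at this
    exact this
  · intro γ γ'
    rw [assemble_apply]
    show g (indMap (compOp (code γ)) _ (qmap (chi γ'))) = _
    rw [indMap_qmap]
    split_ifs with h
    · subst h
      rw [compOp_chi_self]
      simpa using hg2
    · rw [qmap_eq_zero.2 (compOp_chi_ne γ γ' h)]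
      simp

theorem norm_finsupp_le (c : Gam →₀ ℝ) (r : ℝ) (hr : 0 ≤ r) (hc : ∀ γ, |c γ| ≤ r) :
    ‖c.sum (fun γ a => a • qmap (chi γ))‖ ≤ r := by
  classical
  have h0 : c.sum (fun γ a => a • qmap (chi γ)) = qmap (∑ γ ∈ c.support, c γ • chi γ) := by
    rw [Finsupp.sum, map_sum]
    apply Finset.sum_congr rfl
    intro γ _
    rw [map_smul]
  rw [h0]
  refine norm_qmap_le hr ?_
  intro ε hε
  have h1 : ∀ᶠ n in atTop, ∀ γ ∈ c.support, ∀ γ' ∈ c.support, γ ≠ γ' →
      ¬ (n ∈ range (code γ) ∧ n ∈ range (code γ')) := by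
    rw [eventually_all_finset]
    intro γ _
    rw [eventually_all_finset]
    intro γ' _
    by_cases h : γ = γ'
    · exact Eventually.of_forall (fun n h' => absurd h h')
    · obtain ⟨N, hN⟩ := code_ad γ γ' h
      filter_upwards [eventually_ge_atTop N] with n hn _
      exact hN n hn
  obtain ⟨N, hN⟩ := eventually_atTop.1 h1
  refine ⟨N, fun n hn => ?_⟩
  have h2 : (∑ γ ∈ c.support, c γ • chi γ : Linf ℕ) n = ∑ γ ∈ c.support, c γ * chi γ n := by
    rw [lp.coeFn_sum, Finset.sum_apply]
    apply Finset.sum_congr rfl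
    intro γ _
    simp
  rw [h2]
  by_cases h3 : ∃ γ ∈ c.support, n ∈ range (code γ)
  · obtain ⟨γ, hγ, hγn⟩ := h3
    rw [Finset.sum_eq_single_of_mem γ hγ]
    · simp only [chi, mkInf_apply]
      rw [if_pos hγn, mul_one]
      have := hc γ
      linarith
    · intro γ' hγ' hne
      have h4 := hN n hn γ hγ γ' hγ' (Ne.symm hne)
      have h5 : n ∉ range (code γ') := fun h => h4 ⟨hγn, h⟩
      simp only [chi, mkInf_apply]
      rw [if_neg h5, mul_zero]
  · push Not at h3
    rw [Finset.sum_eq_zero]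
    · simp; linarith
    · intro γ hγ
      simp only [chi, mkInf_apply]
      rw [if_neg (h3 γ hγ), mul_zero]

/-- Rosenthal's lemma for an index set of size equal to its square. -/
theorem rosenthal {G : Type} (e : G × G → G) (he : Function.Injective e)
    (ν : G → (Linf G →ₗ[ℝ] ℝ)) (δ : ℝ) (hδ : 0 ≤ δ) :
    ∀ n : ℕ, ∀ θ : G → G, Function.Injective θ →
      (∀ γ, ∀ f : Linf G, (∀ i, i ∉ range θ → f i = 0) → ‖f‖ ≤ 1 → |ν (θ γ) f| ≤ n * δ) →
      ∃ θ' : G → G, Function.Injective θ' ∧
        ∀ γ, ∀ f : Linf G, (∀ i, (i ∉ range θ' ∨ i = θ' γ) → f i = 0) → ‖f‖ ≤ 1 →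
          |ν (θ' γ) f| ≤ δ := by
  intro n
  induction n with
  | zero =>
    intro θ hθ h
    refine ⟨θ, hθ, ?_⟩
    intro γ f hf hf1
    have := h γ f (fun i hi => hf i (Or.inl hi)) hf1
    simp only [CharP.cast_eq_zero, zero_mul] at this
    linarith
  | succ n ih =>
    intro θ hθ h
    by_cases hex : ∃ i : G, ∀ γ, ∀ f : Linf G,
        (∀ k, (k ∉ range (fun γ => θ (e (i, γ))) ∨ k = θ (e (i, γ))) → f k = 0) → ‖f‖ ≤ 1 →
          |ν (θ (e (i, γ))) f| ≤ δ
    · obtain ⟨i, hi⟩ := hex
      refine ⟨fun γ => θ (e (i, γ)), ?_, hi⟩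
      intro a b hab
      have := he (hθ hab)
      simpa using this
    · push Not at hex
      choose g F hF1 hF2 hF3 using hex
      have hinj : Function.Injective (fun i => θ (e (i, g i))) := by
        intro a b hab
        have := he (hθ hab)
        simp only [Prod.mk.injEq] at this
        exact this.1
      apply ih (fun i => θ (e (i, g i))) hinj
      intro i f hf hf1
      -- supports of f and F i are disjoint
      have hdisj : ∀ k, f k = 0 ∨ F i k = 0 := by
        intro k
        by_cases hk : k ∈ range (fun i => θ (e (i, g i)))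
        · right
          obtain ⟨i', hi'⟩ := hk
          apply hF1
          by_cases hii : i' = i
          · right
            subst hii
            exact hi'.symm
          · left
            rintro ⟨γ, hγ⟩
            have := he (hθ (hγ.trans hi'.symm))
            simp only [Prod.mk.injEq] at this
            exact hii this.1.symm
        · left
          exact hf k hk
      have hsupp : ∀ k, k ∉ range θ → f k = 0 ∧ F i k = 0 := by
        intro k hk
        constructor
        · apply hf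
          rintro ⟨i', hi'⟩
          exact hk ⟨_, hi'⟩
        · apply hF1
          left
          rintro ⟨γ, hγ⟩
          exact hk ⟨_, hγ⟩
      have habs : ∀ (s : ℝ), |s| = 1 → |ν (θ (e (i, g i))) (f + s • F i)| ≤ (n + 1 : ℕ) * δ := by
        intro s hs
        apply h
        · intro k hk
          have := hsupp k hk
          rw [add_smul_apply, this.1, this.2]
          simp
        · apply norm_le_of zero_le_one
          intro k
          rw [add_smul_apply]
          rcases hdisj k with h2 | h2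
          · rw [h2, zero_add, abs_mul, hs, one_mul]
            exact le_trans (abs_apply_le _ k) (hF2 i)
          · rw [h2, mul_zero, add_zero]
            exact le_trans (abs_apply_le _ k) hf1
      have h1 := habs 1 (by simp)
      have h2 := habs (-1) (by simp)
      have h3 := hF3 i
      have e1 : ν (θ (e (i, g i))) (f + (1 : ℝ) • F i) =
        ν (θ (e (i, g i))) f + ν (θ (e (i, g i))) (F i) := by simp
      have e2 : ν (θ (e (i, g i))) (f + (-1 : ℝ) • F i) =
        ν (θ (e (i, g i))) f - ν (θ (e (i, g i))) (F i) := by simp [sub_eq_add_neg]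
      rw [e1] at h1
      rw [e2] at h2
      push_cast at h1 h2
      generalize ν (θ (e (i, g i))) f = A at h1 h2 ⊢
      generalize ν (θ (e (i, g i))) (F i) = B at h1 h2 h3
      rw [abs_le] at h1 h2 ⊢
      rcases le_or_gt 0 B with hB | hB
      · rw [abs_of_nonneg hB] at h3
        constructor <;> nlinarith
      · rw [abs_of_neg hB] at h3
        constructor <;> nlinarith

theorem exists_inj_pair : ∃ e : Gam × Gam → Gam, Function.Injective e := by
  have h : Cardinal.mk (Gam × Gam) = Cardinal.mk Gam := by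
    have h1 : Cardinal.mk Gam = Cardinal.continuum := by
      simp [Gam]
    rw [Cardinal.mk_prod, h1]
    simp
  obtain ⟨e⟩ := Cardinal.eq.1 h
  exact ⟨e, e.injective⟩

theorem exists_inj_Q : ∃ e : Q → Gam, Function.Injective e := by
  have h1 : Cardinal.mk Gam = Cardinal.continuum := by
    simp [Gam]
  have h2 : Cardinal.mk (ℕ → ℝ) = Cardinal.continuum := by
    rw [← Cardinal.power_def, Cardinal.mk_real, Cardinal.mk_nat]
    exact Cardinal.continuum_power_aleph0
  obtain ⟨e⟩ := Cardinal.eq.1 (h2.trans h1.symm)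
  refine ⟨fun q => e (fun n => (Classical.choose (qmap_surj q)) n), ?_⟩
  intro a b hab
  have h3 := e.injective hab
  have h4 : Classical.choose (qmap_surj a) = Classical.choose (qmap_surj b) := by
    ext n
    exact congrFun h3 n
  rw [← Classical.choose_spec (qmap_surj a), ← Classical.choose_spec (qmap_surj b), h4]

theorem norm_qmap_chi (γ : Gam) : 1 ≤ ‖qmap (chi γ)‖ := by
  by_contra hcon
  push Not at hcon
  obtain ⟨r, h1, h2⟩ := exists_between hcon
  obtain ⟨N, hN⟩ := eventually_le_of_norm_qmap_lt h1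
  have := hN (code γ N) (code_strictMono γ).le_apply
  simp only [chi, mkInf_apply] at this
  rw [if_pos ⟨N, rfl⟩, abs_one] at this
  linarith

open Classical in
/-- the characteristic function of a set in `ℓ∞(G)` -/
def ind {G : Type} (S : Set G) : Linf G :=
  mkInf (fun k => if k ∈ S then 1 else 0) 1 (by intro k; split_ifs <;> simp)

theorem ind_apply_mem {G : Type} {S : Set G} {k : G} (h : k ∈ S) : ind S k = 1 := by
  simp [ind, h]

theorem ind_apply_notMem {G : Type} {S : Set G} {k : G} (h : k ∉ S) : ind S k = 0 := by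
  simp [ind, h]

theorem ext_from_closed {I : Type} [NormedAddCommGroup I] [NormedSpace ℝ I]
    (hI : IsInjectiveSpace I) (X : Submodule ℝ Q) (hXc : IsClosed (X : Set Q))
    (J : Q →L[ℝ] Linf Gam) (hX : ∀ x ∈ X, ‖x‖ ≤ ‖J x‖) (α : Q →L[ℝ] I) :
    ∃ v : Linf Gam →L[ℝ] I, ∀ x ∈ X, v (J x) = α x := by
  have : CompleteSpace X := hXc.completeSpace_coe
  obtain ⟨v, hv⟩ := hI X (Linf Gam) (J ∘L X.subtypeL) ⟨1, one_pos, by
    rintro ⟨x, hx⟩
    rw [one_mul]
    exact hX x hx⟩ (α ∘L X.subtypeL)
  refine ⟨v, fun x hx => ?_⟩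
  exact congrArg (fun w => w ⟨x, hx⟩) hv

open Classical in
/-- the coordinates are isometric on the closed span of the almost disjoint family -/
theorem norm_le_on_span (J : Q →L[ℝ] Linf Gam)
    (hJ2 : ∀ γ γ' : Gam, J (qmap (chi γ')) γ = if γ = γ' then 1 else 0)
    (x : Q) (hx : x ∈ (Submodule.span ℝ (range (fun γ => qmap (chi γ)))).topologicalClosure) :
    ‖x‖ ≤ ‖J x‖ := by
  have hcl : IsClosed {q : Q | ‖q‖ ≤ ‖J q‖} :=
    isClosed_le continuous_norm (J.continuous.norm)
  have hsub : ((Submodule.span ℝ (range (fun γ => qmap (chi γ))) : Submodule ℝ Q) : Set Q) ⊆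
      {q : Q | ‖q‖ ≤ ‖J q‖} := by
    intro q hq
    obtain ⟨co, rfl⟩ := (Finsupp.mem_span_range_iff_exists_finsupp).1 hq
    show ‖(co.sum fun γ a => a • qmap (chi γ))‖ ≤ ‖J (co.sum fun γ a => a • qmap (chi γ))‖
    apply norm_finsupp_le co _ (norm_nonneg _)
    intro γ
    refine le_trans (le_of_eq ?_) (abs_apply_le _ γ)
    congr 1
    rw [Finsupp.sum, map_sum, lp.coeFn_sum, Finset.sum_apply]
    have h1 : ∀ γ' ∈ co.support, (J (co γ' • qmap (chi γ'))) γ = if γ = γ' then co γ' else 0 := by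
      intro γ' _
      rw [map_smul]
      show co γ' * (J (qmap (chi γ'))) γ = _
      rw [hJ2]
      split_ifs <;> simp
    rw [Finset.sum_congr rfl h1]
    rw [Finset.sum_ite_eq]
    split_ifs with h2
    · rfl
    · simpa using h2
  exact closure_minimal hsub hcl hx

/-- No isomorphic embedding of `ℓ∞/c₀` into itself factors through an injective space. -/
theorem no_factor {I : Type} [NormedAddCommGroup I] [NormedSpace ℝ I] (hI : IsInjectiveSpace I)
    (S : Q →L[ℝ] Q) (c : ℝ) (hc : 0 < c) (hS : ∀ q, c * ‖q‖ ≤ ‖S q‖) (α : Q →L[ℝ] I)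
    (β : I →L[ℝ] Q) (h : ∀ q, S q = β (α q)) : False := by
  obtain ⟨J, hJ1, hJ2⟩ := exists_coord
  obtain ⟨v, hv⟩ := ext_from_closed hI
    (Submodule.span ℝ (range (fun γ => qmap (chi γ)))).topologicalClosure
    (Submodule.isClosed_topologicalClosure _) J (norm_le_on_span J (by intro a b; rw [hJ2])) α
  have hmem : ∀ γ, qmap (chi γ) ∈
      (Submodule.span ℝ (range (fun γ => qmap (chi γ)))).topologicalClosure := fun γ =>
    Submodule.le_topologicalClosure _ (Submodule.subset_span ⟨γ, rfl⟩)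
  have hJchi : ∀ γ, J (qmap (chi γ)) = ind {γ} := by
    intro γ
    ext γ'
    rw [hJ2]
    by_cases hγ : γ' = γ
    · rw [if_pos hγ, ind_apply_mem (by simpa using hγ)]
    · rw [if_neg hγ, ind_apply_notMem (by simpa using hγ)]
  have hve : ∀ γ, β (v (ind {γ})) = S (qmap (chi γ)) := by
    intro γ
    have h2 : v (J (qmap (chi γ))) = α (qmap (chi γ)) := hv _ (hmem γ)
    rw [h, ← h2, hJchi]
  have hge : ∀ γ, c ≤ ‖β (v (ind {γ}))‖ := by
    intro γ
    rw [hve]
    have h1 := hS (qmap (chi γ))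
    have h2 := norm_qmap_chi γ
    nlinarith
  have hg : ∀ γ : Gam, ∃ g : StrongDual ℝ Q, ‖g‖ ≤ 1 ∧ g (β (v (ind {γ}))) = ‖β (v (ind {γ}))‖ := by
    intro γ
    obtain ⟨g, hg1, hg2⟩ := exists_dual_vector'' ℝ (β (v (ind {γ})))
    exact ⟨g, hg1, by simpa using hg2⟩
  choose g hg1 hg2 using hg
  let V : Linf Gam →L[ℝ] Q := β ∘L v
  let ν : Gam → (Linf Gam →ₗ[ℝ] ℝ) := fun γ => (((g γ) ∘L V : Linf Gam →L[ℝ] ℝ) : Linf Gam →ₗ[ℝ] ℝ)
  have hν : ∀ γ f, |ν γ f| ≤ ‖V‖ * ‖f‖ := by
    intro γ f
    calc |ν γ f| ≤ ‖g γ‖ * ‖V f‖ := (g γ).le_opNorm _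
      _ ≤ 1 * (‖V‖ * ‖f‖) := by
        gcongr
        · exact hg1 γ
        · exact V.le_opNorm f
      _ = _ := by ring
  obtain ⟨n, hn⟩ := exists_nat_ge (‖V‖ / (c / 2))
  obtain ⟨e, he⟩ := exists_inj_pair
  obtain ⟨θ, hθ, hθ2⟩ := rosenthal e he ν (c / 2) (by positivity) n id Function.injective_id (by
    intro γ f _ hf1
    calc |ν (id γ) f| ≤ ‖V‖ * ‖f‖ := hν _ f
      _ ≤ ‖V‖ * 1 := by gcongr
      _ = (‖V‖ / (c / 2)) * (c / 2) := by field_simp
      _ ≤ n * (c / 2) := by gcongr)
  -- the injection of the power set of `Gam` into `Q`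
  have hinj : Function.Injective (fun S : Set Gam => V (ind (θ '' S))) := by
    have main : ∀ (A B : Set Gam) (γ : Gam), γ ∈ A → γ ∉ B → V (ind (θ '' A)) ≠ V (ind (θ '' B)) := by
      intro A B γ hA hB heq
      have h1 : ν (θ γ) (ind (θ '' A) - ind (θ '' B)) = 0 := by
        show g (θ γ) (V (ind (θ '' A) - ind (θ '' B))) = 0
        rw [map_sub, heq, sub_self, map_zero]
      set f : Linf Gam := (ind (θ '' A) - ind (θ '' B)) - ind {θ γ} with hf
      have hval : ∀ k, f k = ind (θ '' A) k - ind (θ '' B) k - ind {θ γ} k := fun k => rfl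
      have hmA : ∀ δ, θ δ ∈ θ '' A ↔ δ ∈ A := fun δ => hθ.mem_set_image
      have hmB : ∀ δ, θ δ ∈ θ '' B ↔ δ ∈ B := fun δ => hθ.mem_set_image
      have h2 := hθ2 γ f (by
        intro k hk
        rw [hval]
        rcases hk with hk | hk
        · have k1 : k ∉ θ '' A := fun h => hk (image_subset_range _ _ h)
          have k2 : k ∉ θ '' B := fun h => hk (image_subset_range _ _ h)
          have k3 : k ∉ ({θ γ} : Set Gam) := fun h => hk ⟨γ, h.symm⟩
          rw [ind_apply_notMem k1, ind_apply_notMem k2, ind_apply_notMem k3]; simp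
        · subst hk
          rw [ind_apply_mem ((hmA γ).2 hA), ind_apply_notMem (fun h => hB ((hmB γ).1 h)),
            ind_apply_mem (mem_singleton _)]; simp) (by
        apply norm_le_of zero_le_one
        intro k
        rw [hval]
        by_cases hk : k = θ γ
        · subst hk
          rw [ind_apply_mem ((hmA γ).2 hA), ind_apply_notMem (fun h => hB ((hmB γ).1 h)),
            ind_apply_mem (mem_singleton _)]; simp
        · rw [ind_apply_notMem (S := {θ γ}) (by simpa using hk)]
          by_cases k1 : k ∈ θ '' A <;> by_cases k2 : k ∈ θ '' B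
          · rw [ind_apply_mem k1, ind_apply_mem k2]; simp
          · rw [ind_apply_mem k1, ind_apply_notMem k2]; simp
          · rw [ind_apply_notMem k1, ind_apply_mem k2]; simp
          · rw [ind_apply_notMem k1, ind_apply_notMem k2]; simp)
      have h3 : ν (θ γ) (ind {θ γ}) = ‖β (v (ind {θ γ}))‖ := hg2 (θ γ)
      have h4 : ν (θ γ) f = - ν (θ γ) (ind {θ γ}) := by
        rw [hf, map_sub, h1, zero_sub]
      rw [h4, h3, abs_neg, abs_of_nonneg (norm_nonneg _)] at h2
      have := hge (θ γ)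
      linarith
    intro A B hAB
    by_contra hne
    have : ∃ γ, (γ ∈ A ∧ γ ∉ B) ∨ (γ ∈ B ∧ γ ∉ A) := by
      by_contra hcon
      push Not at hcon
      apply hne
      ext γ
      exact ⟨(hcon γ).1, (hcon γ).2⟩
    obtain ⟨γ, h1 | h1⟩ := this
    · exact main A B γ h1.1 h1.2 hAB
    · exact main B A γ h1.1 h1.2 hAB.symm
  obtain ⟨q, hq⟩ := exists_inj_Q
  exact Function.cantor_injective _ (hq.comp hinj)

end MP4ea76a
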