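import Pool.Agent.Lib.MP_4ea76a_an.Lifts
import Pool.Agent.Lib.MP_4ea76a_an.KR

open Filter Topology Set
open scoped ENNReal

noncomputable section

namespace MP4ea76a

theorem cont_decide {A : Type} [TopologicalSpace A] [DiscreteTopology A] (p : A → Prop)
    [DecidablePred p] : Continuous (fun (z : ℕ → A) (n : ℕ) => decide (p (z n))) :=
  continuous_pi (fun n => (continuous_of_discreteTopology (f := fun x : A => decide (p x))).comp
    (continuous_apply n))

/-- stabilization of a continuous lifting -/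
theorem exists_stable {T : Q →L[ℝ] Q} {H : (ℕ → Bool) → ℕ → ℝ} (hH : Lift T H)
    (hc : ∀ k, Continuous (fun a => H a k)) (ε : ℝ) (hε : 0 < ε) :
    ∃ (G : (ℕ → Bool) → ℕ → ℝ) (m : ℕ), Lift T G ∧ (∀ k, Continuous (fun a => G a k)) ∧
      ∀ a b : ℕ → Bool, (∀ n, ¬ (a n = true ∧ b n = true)) → ∀ k ≥ m,
        |G (fun n => a n || b n) k - G a k - G b k| ≤ ε := by
  let A1 : (ℕ → Fin 3) → ℕ → Bool := fun z n => decide (z n = 1)
  let A2 : (ℕ → Fin 3) → ℕ → Bool := fun z n => decide (z n = 2)
  let A0 : (ℕ → Fin 3) → ℕ → Bool := fun z n => decide (z n ≠ 0)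
  have hA1 : Continuous A1 := cont_decide (fun x : Fin 3 => x = 1)
  have hA2 : Continuous A2 := cont_decide (fun x : Fin 3 => x = 2)
  have hA0 : Continuous A0 := cont_decide (fun x : Fin 3 => x ≠ 0)
  let C : ℕ → Set (ℕ → Fin 3) := fun m =>
    {z | ∀ k ≥ m, |H (A0 z) k - H (A1 z) k - H (A2 z) k| ≤ ε / 4}
  have hCc : ∀ m, IsClosed (C m) := by
    intro m
    have : C m = ⋂ k, ⋂ (_ : k ≥ m), {z | |H (A0 z) k - H (A1 z) k - H (A2 z) k| ≤ ε / 4} := by
      ext z
      simp [C]
    rw [this]
    refine isClosed_iInter (fun k => isClosed_iInter (fun _ => isClosed_le ?_ continuous_const))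
    exact ((((hc k).comp hA0).sub ((hc k).comp hA1)).sub ((hc k).comp hA2)).abs
  have hCu : ⋃ m, C m = univ := by
    rw [eq_univ_iff_forall]
    intro z
    have h1 := hH.rel (Finset.univ : Finset (Fin 3)) ![1, -1, -1] ![A0 z, A1 z, A2 z] (by
      have h2 : ∑ i : Fin 3, (![1, -1, -1] : Fin 3 → ℝ) i •
          ch ((![A0 z, A1 z, A2 z] : Fin 3 → ℕ → Bool) i) = 0 := by
        rw [Fin.sum_univ_three]
        ext n
        show (1 * ch (A0 z) n + -1 * ch (A1 z) n + -1 * ch (A2 z) n) = 0
        simp only [ch_apply, A0, A1, A2]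
        generalize z n = x
        fin_cases x <;> simp
      rw [h2]
      exact c0.zero_mem)
    rw [Metric.tendsto_atTop] at h1
    obtain ⟨m, hm⟩ := h1 (ε / 4) (by linarith)
    rw [mem_iUnion]
    refine ⟨m, fun k hk => ?_⟩
    have h2 := hm k hk
    rw [Fin.sum_univ_three, Real.dist_eq, sub_zero] at h2
    have h3 : (1 * H (A0 z) k + -1 * H (A1 z) k + -1 * H (A2 z) k) =
      H (A0 z) k - H (A1 z) k - H (A2 z) k := by ring
    have h4 : |1 * H (A0 z) k + -1 * H (A1 z) k + -1 * H (A2 z) k| < ε / 4 := h2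
    rw [h3] at h4
    exact h4.le
  obtain ⟨m, z0, hz0⟩ := nonempty_interior_of_iUnion_of_closed hCc hCu
  obtain ⟨l, hl⟩ := exists_cylinder_subset isOpen_interior hz0
  have hl' : ∀ y : ℕ → Fin 3, (∀ i < l, y i = z0 i) → ∀ k ≥ m,
      |H (A0 y) k - H (A1 y) k - H (A2 y) k| ≤ ε / 4 := fun y hy => interior_subset (hl y hy)
  -- the shifted lifting
  let p : (ℕ → Bool) → (ℕ → Bool) := fun a n => if n < l then decide (z0 n ≠ 0) else a n
  have hp : Continuous p := by
    apply continuous_pi
    intro n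
    by_cases h : n < l
    · simp only [p, if_pos h]; exact continuous_const
    · simp only [p, if_neg h]; exact continuous_apply n
  let z : ℕ → Bool := fun _ => false
  refine ⟨fun a k => H (p a) k - H (p z) k, m, ?_, ?_, ?_⟩
  · apply hH.of_sub
    intro a
    have h1 := hH.rel (Finset.univ : Finset (Fin 3)) ![1, -1, -1] ![p a, p z, a] (by
      rw [mem_c0']
      intro δ hδ
      refine ⟨l, fun n hn => ?_⟩
      rw [Fin.sum_univ_three]
      have h2 : (1 * ch (p a) n + -1 * ch (p z) n + -1 * ch a n) = 0 := by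
        have hnl : ¬ n < l := by omega
        simp only [ch_apply, p, z, if_neg hnl]
        cases a n <;> simp
      have h3 : ((![1, -1, -1] : Fin 3 → ℝ) 0 • ch ((![p a, p z, a] : Fin 3 → ℕ → Bool) 0) +
        (![1, -1, -1] : Fin 3 → ℝ) 1 • ch ((![p a, p z, a] : Fin 3 → ℕ → Bool) 1) +
        (![1, -1, -1] : Fin 3 → ℝ) 2 • ch ((![p a, p z, a] : Fin 3 → ℕ → Bool) 2)) n =
        (1 * ch (p a) n + -1 * ch (p z) n + -1 * ch a n) := rfl
      rw [h3, h2, abs_zero]
      exact hδ.le)
    refine h1.congr (fun k => ?_)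
    rw [Fin.sum_univ_three]
    show 1 * H (p a) k + -1 * H (p z) k + -1 * H a k = _
    ring
  · intro k
    exact ((hc k).comp hp).sub continuous_const
  · intro a b hab k hk
    let y : (ℕ → Bool) → (ℕ → Bool) → (ℕ → Fin 3) := fun a b n =>
      if n < l then z0 n else if a n = true then 1 else if b n = true then 2 else 0
    have hy : ∀ a b, ∀ i < l, y a b i = z0 i := by
      intro a b i hi
      simp only [y, if_pos hi]
    have hy1 : ∀ a b b', A1 (y a b) = A1 (y a b') := by
      intro a b b'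
      ext n
      simp only [A1, y]
      by_cases h : n < l
      · simp only [if_pos h]
      · simp only [if_neg h]
        by_cases h1 : a n = true
        · simp only [if_pos h1]
        · simp only [if_neg h1]
          split_ifs <;> simp
    have hy2 : ∀ a a' b, (∀ n, ¬ (a n = true ∧ b n = true)) → (∀ n, ¬ (a' n = true ∧ b n = true)) →
        A2 (y a b) = A2 (y a' b) := by
      intro a a' b hab hab'
      ext n
      simp only [A2, y]
      by_cases h : n < l
      · simp only [if_pos h]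
      · simp only [if_neg h]
        have h1 := hab n
        have h2 := hab' n
        split_ifs <;> simp_all
    have hy0 : ∀ a b, A0 (y a b) = p (fun n => a n || b n) := by
      intro a b
      ext n
      simp only [A0, y, p]
      by_cases h : n < l
      · simp only [if_pos h]
      · simp only [if_neg h]
        split_ifs <;> simp_all
    have e1 := hl' (y a b) (hy a b) k hk
    have e2 := hl' (y a z) (hy a z) k hk
    have e3 := hl' (y z b) (hy z b) k hk
    have e4 := hl' (y z z) (hy z z) k hk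
    have f1 : p (fun n => a n || z n) = p a := by simp [z]
    have f2 : p (fun n => z n || b n) = p b := by simp [z]
    have f3 : p (fun n => z n || z n) = p z := by simp
    rw [hy0] at e1 e2 e3 e4
    rw [f1] at e2
    rw [f2] at e3
    rw [f3] at e4
    rw [hy1 a z b, hy2 a z z (by simp [z]) (by simp [z])] at e2
    rw [hy2 z a b (by simp [z]) hab] at e3
    rw [hy1 z b z] at e3
    rw [abs_le] at e1 e2 e3 e4 ⊢
    constructor <;> linarith [e1.1, e1.2, e2.1, e2.2, e3.1, e3.2, e4.1, e4.2]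

/-- uniform continuity on the Cantor space -/
theorem exists_unif (g : (ℕ → Bool) → ℝ) (hg : Continuous g) (ε : ℝ) (hε : 0 < ε) :
    ∃ n, ∀ x y : ℕ → Bool, (∀ i < n, x i = y i) → |g x - g y| ≤ ε := by
  have h1 : ∀ x : ℕ → Bool, ∃ n, ∀ y : ℕ → Bool, (∀ i < n, y i = x i) → |g y - g x| < ε / 2 := by
    intro x
    have h2 : IsOpen {y | |g y - g x| < ε / 2} :=
      isOpen_lt ((hg.sub continuous_const).abs) continuous_const
    exact exists_cylinder_subset h2 (by simp; linarith)
  choose N hN using h1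
  obtain ⟨t, ht⟩ := isCompact_univ.elim_finite_subcover
    (fun x : ℕ → Bool => {y : ℕ → Bool | ∀ i < N x, y i = x i}) (fun x => isOpen_agree x (N x))
    (fun y _ => mem_iUnion.2 ⟨y, fun i _ => rfl⟩)
  refine ⟨t.sup N, fun x y hxy => ?_⟩
  obtain ⟨w, hw⟩ := mem_iUnion.1 (ht (mem_univ x))
  obtain ⟨hwt, hxw⟩ := mem_iUnion.1 hw
  have h2 : N w ≤ t.sup N := Finset.le_sup hwt
  have h3 := hN w x hxw
  have h4 := hN w y (fun i hi => by rw [← hxy i (by omega), hxw i hi])
  have h5 : g x - g y = (g x - g w) - (g y - g w) := by ring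
  rw [h5]
  have := abs_sub (g x - g w) (g y - g w)
  linarith

/-- pairing of a finitely supported row with a bounded sequence -/
def pr (f : Linf ℕ) : (ℕ →₀ ℝ) →ₗ[ℝ] ℝ := Finsupp.linearCombination ℝ (fun j => f j)

theorem pr_apply (f : Linf ℕ) (w : ℕ →₀ ℝ) : pr f w = ∑ j ∈ w.support, w j * f j := by
  simp [pr, Finsupp.linearCombination_apply, Finsupp.sum]

/-- the `ℓ₁` norm -/
def n1 (w : ℕ →₀ ℝ) : ℝ := ∑ j ∈ w.support, |w j|

theorem n1_nonneg (w : ℕ →₀ ℝ) : 0 ≤ n1 w := Finset.sum_nonneg (fun _ _ => abs_nonneg _)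

theorem n1_eq {w : ℕ →₀ ℝ} {s : Finset ℕ} (h : w.support ⊆ s) : n1 w = ∑ j ∈ s, |w j| := by
  refine Finset.sum_subset h (fun j _ hj => ?_)
  rw [Finsupp.notMem_support_iff.1 hj, abs_zero]

theorem n1_add_le (v w : ℕ →₀ ℝ) : n1 (v + w) ≤ n1 v + n1 w := by
  classical
  have h1 := n1_eq (w := v + w) Finsupp.support_add
  have h2 := n1_eq (w := v) (Finset.subset_union_left (s₂ := w.support))
  have h3 := n1_eq (w := w) (Finset.subset_union_right (s₁ := v.support))
  rw [h1, h2, h3, ← Finset.sum_add_distrib]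
  exact Finset.sum_le_sum (fun j _ => abs_add_le _ _)

theorem n1_zero : n1 0 = 0 := by simp [n1]

theorem abs_pr_le (f : Linf ℕ) (w : ℕ →₀ ℝ) : |pr f w| ≤ n1 w * ‖f‖ := by
  rw [pr_apply, n1, Finset.sum_mul]
  refine (Finset.abs_sum_le_sum_abs _ _).trans (Finset.sum_le_sum (fun j _ => ?_))
  rw [abs_mul]
  exact mul_le_mul_of_nonneg_left (abs_apply_le f j) (abs_nonneg _)

theorem norm_ch_le (a : ℕ → Bool) : ‖ch a‖ ≤ 1 :=
  norm_le_of zero_le_one (fun i => by rw [ch_apply]; split_ifs <;> simp)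

theorem abs_pr_ch_le (a : ℕ → Bool) (w : ℕ →₀ ℝ) : |pr (ch a) w| ≤ n1 w := by
  refine (abs_pr_le _ _).trans ?_
  have := mul_le_mul_of_nonneg_left (norm_ch_le a) (n1_nonneg w)
  linarith

theorem n1_le_of (w : ℕ →₀ ℝ) (η : ℝ) (h : ∀ a : ℕ → Bool, |pr (ch a) w| ≤ η) : n1 w ≤ 2 * η := by
  classical
  have h1 := h (fun j => decide (0 ≤ w j))
  have h2 := h (fun j => decide (w j < 0))
  have h3 : n1 w = pr (ch (fun j => decide (0 ≤ w j))) w - pr (ch (fun j => decide (w j < 0))) w := by
    rw [pr_apply, pr_apply, ← Finset.sum_sub_distrib, n1]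
    apply Finset.sum_congr rfl
    intro j _
    simp only [ch_apply, decide_eq_true_eq]
    rcases le_or_gt 0 (w j) with h4 | h4
    · rw [if_pos h4, if_neg (not_lt.2 h4), abs_of_nonneg h4]; ring
    · rw [if_neg (not_le.2 h4), if_pos h4, abs_of_neg h4]; ring
  rw [h3]
  rw [abs_le] at h1 h2
  linarith [h1.2, h2.1]

theorem continuous_pr (w : ℕ →₀ ℝ) : Continuous (fun a : ℕ → Bool => pr (ch a) w) := by
  have : (fun a : ℕ → Bool => pr (ch a) w) =
      fun a => ∑ j ∈ w.support, w j * (if a j = true then 1 else 0) := by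
    ext a
    rw [pr_apply]
    rfl
  rw [this]
  refine continuous_finsetSum _ (fun j _ => continuous_const.mul ?_)
  exact (continuous_of_discreteTopology (f := fun x : Bool => if x = true then (1 : ℝ) else 0)).comp
    (continuous_apply j)

/-- quantitative Schur property -/
theorem schur (v : ℕ → (ℕ →₀ ℝ)) (η : ℝ)
    (h : ∀ a : ℕ → Bool, ∀ᶠ k in atTop, |pr (ch a) (v k)| ≤ η) :
    ∀ᶠ k in atTop, n1 (v k) ≤ 6 * η := by
  classical
  let C : ℕ → Set (ℕ → Bool) := fun m => {a | ∀ k ≥ m, |pr (ch a) (v k)| ≤ η}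
  have hCc : ∀ m, IsClosed (C m) := by
    intro m
    have : C m = ⋂ k, ⋂ (_ : k ≥ m), {a | |pr (ch a) (v k)| ≤ η} := by
      ext a
      simp [C]
    rw [this]
    exact isClosed_iInter (fun k => isClosed_iInter (fun _ =>
      isClosed_le (continuous_pr _).abs continuous_const))
  have hCu : ⋃ m, C m = univ := by
    rw [eq_univ_iff_forall]
    intro a
    obtain ⟨m, hm⟩ := eventually_atTop.1 (h a)
    exact mem_iUnion.2 ⟨m, hm⟩
  obtain ⟨m, z0, hz0⟩ := nonempty_interior_of_iUnion_of_closed hCc hCu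
  obtain ⟨l, hl⟩ := exists_cylinder_subset isOpen_interior hz0
  have hl' : ∀ y : ℕ → Bool, (∀ i < l, y i = z0 i) → ∀ k ≥ m, |pr (ch y) (v k)| ≤ η :=
    fun y hy => interior_subset (hl y hy)
  -- the finitely many sets contained in `[0,l)`
  have hfin : ∀ᶠ k in atTop, ∀ s : Finset (Fin l),
      |pr (ch (fun n => decide (∃ h : n < l, (⟨n, h⟩ : Fin l) ∈ s))) (v k)| ≤ η := by
    rw [eventually_all]
    intro s
    exact h _
  filter_upwards [eventually_ge_atTop m, hfin] with k hk hfk
  have key : ∀ a : ℕ → Bool, |pr (ch a) (v k)| ≤ 3 * η := by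
    intro a
    let s : Finset (Fin l) := Finset.univ.filter (fun i => a i = true)
    have h1 := hfk s
    have h2 := hl' (fun n => if n < l then z0 n else a n) (fun i hi => by simp only [if_pos hi]) k hk
    have h3 := hl' (fun n => if n < l then z0 n else false) (fun i hi => by simp only [if_pos hi]) k hk
    have h4 : pr (ch a) (v k) =
        pr (ch (fun n => decide (∃ h : n < l, (⟨n, h⟩ : Fin l) ∈ s))) (v k) +
        (pr (ch (fun n => if n < l then z0 n else a n)) (v k) -
          pr (ch (fun n => if n < l then z0 n else false)) (v k)) := by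
      rw [pr_apply, pr_apply, pr_apply, pr_apply, ← Finset.sum_sub_distrib, ← Finset.sum_add_distrib]
      apply Finset.sum_congr rfl
      intro j _
      simp only [ch_apply, decide_eq_true_eq]
      by_cases hj : j < l
      · have h5 : (∃ h : j < l, (⟨j, h⟩ : Fin l) ∈ s) ↔ a j = true := by
          constructor
          · rintro ⟨_, h6⟩
            simpa [s] using h6
          · intro h6
            exact ⟨hj, by simpa [s] using h6⟩
        simp only [h5, if_pos hj]
        ring
      · have h5 : ¬ (∃ h : j < l, (⟨j, h⟩ : Fin l) ∈ s) := fun ⟨h6, _⟩ => hj h6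
        simp only [h5, if_neg hj, if_false, Bool.false_eq_true]
        ring
    rw [h4]
    rw [abs_le] at h1 h2 h3 ⊢
    constructor <;> linarith [h1.1, h1.2, h2.1, h2.2, h3.1, h3.2]
  have := n1_le_of (v k) (3 * η) key
  linarith

/-- the rows given by the Kalton-Roberts theorem -/
theorem exists_row (g : (ℕ → Bool) → ℝ) (hg : Continuous g) (ε : ℝ) (hε : 0 < ε)
    (hadd : ∀ a b : ℕ → Bool, (∀ n, ¬ (a n = true ∧ b n = true)) →
      |g (fun n => a n || b n) - g a - g b| ≤ ε) :
    ∃ w : ℕ →₀ ℝ, ∀ a : ℕ → Bool, |g a - pr (ch a) w| ≤ 112 * ε := by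
  classical
  obtain ⟨n, hn⟩ := exists_unif g hg ε hε
  let ext : Finset (Fin n) → (ℕ → Bool) := fun s k => decide (∃ h : k < n, (⟨k, h⟩ : Fin n) ∈ s)
  let f : Finset (Fin n) → ℝ := fun s => g (ext s) / ε
  obtain ⟨w, hw⟩ := kalton_roberts f (by
    intro A B hAB
    have h1 := hadd (ext A) (ext B) (by
      intro k ⟨h1, h2⟩
      simp only [ext, decide_eq_true_eq] at h1 h2
      obtain ⟨h3, h4⟩ := h1
      obtain ⟨h5, h6⟩ := h2
      exact (Finset.disjoint_left.1 hAB) h4 h6)
    have h2 : (fun k => ext A k || ext B k) = ext (A ∪ B) := by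
      ext k
      rw [Bool.eq_iff_iff]
      simp only [ext, Bool.or_eq_true, decide_eq_true_eq, Finset.mem_union]
      constructor
      · rintro (⟨h, h'⟩ | ⟨h, h'⟩)
        · exact ⟨h, Or.inl h'⟩
        · exact ⟨h, Or.inr h'⟩
      · rintro ⟨h, h' | h'⟩
        · exact Or.inl ⟨h, h'⟩
        · exact Or.inr ⟨h, h'⟩
    rw [h2] at h1
    have h3 : f (A ∪ B) - f A - f B = (g (ext (A ∪ B)) - g (ext A) - g (ext B)) / ε := by
      simp only [f]; ring
    rw [h3, abs_div, abs_of_pos hε, div_le_one hε]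
    exact h1)
  -- the row
  let W : ℕ →₀ ℝ := Finsupp.onFinset (Finset.range n)
    (fun k => if h : k < n then ε * w ⟨k, h⟩ else 0) (by
      intro k hk
      rw [Finset.mem_range]
      by_contra hcon
      exact hk (dif_neg hcon))
  refine ⟨W, fun a => ?_⟩
  let s : Finset (Fin n) := Finset.univ.filter (fun i => a i = true)
  have h1 : |g a - g (ext s)| ≤ ε := by
    apply hn
    intro i hi
    simp only [ext, s]
    have : (∃ h : i < n, (⟨i, h⟩ : Fin n) ∈ Finset.univ.filter (fun i : Fin n => a i = true)) ↔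
        a i = true := by
      constructor
      · rintro ⟨_, h⟩; simpa using h
      · intro h; exact ⟨hi, by simpa using h⟩
    simp only [this]
    cases a i <;> simp
  have h2 : pr (ch a) W = ε * ∑ x ∈ s, w x := by
    have h3 : pr (ch a) W = ∑ j ∈ Finset.range n, W j * ch a j := by
      rw [pr_apply]
      refine Finset.sum_subset Finsupp.support_onFinset_subset (fun j _ hj => ?_)
      rw [Finsupp.notMem_support_iff.1 hj, zero_mul]
    rw [h3, Finset.sum_range, Finset.mul_sum, Finset.sum_filter]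
    apply Finset.sum_congr rfl
    intro i _
    have h4 : W (i : ℕ) = ε * w i := by
      show (if h : (i : ℕ) < n then ε * w ⟨i, h⟩ else 0) = _
      rw [dif_pos i.2]
    rw [h4, ch_apply]
    split_ifs <;> simp
  have h3 := hw s
  have h4 : |g (ext s) - ε * ∑ x ∈ s, w x| ≤ 111 * ε := by
    have h5 : g (ext s) - ε * ∑ x ∈ s, w x = ε * (f s - ∑ x ∈ s, w x) := by
      simp only [f]
      field_simp
    rw [h5, abs_mul, abs_of_pos hε]
    have := mul_le_mul_of_nonneg_left h3 hε.le
    linarith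
  rw [h2]
  have h5 : g a - ε * ∑ x ∈ s, w x = (g a - g (ext s)) + (g (ext s) - ε * ∑ x ∈ s, w x) := by ring
  rw [h5]
  have := abs_add_le (g a - g (ext s)) (g (ext s) - ε * ∑ x ∈ s, w x)
  linarith

end MP4ea76a
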