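import Pool.Agent.Lib.MP_4ea76a_an.Final

open Filter Topology Set
open scoped ENNReal

noncomputable section

namespace MP4ea76aS

/-- The Banach space `ℓ∞` of bounded real sequences, with the supremum norm. -/
def EllInf : Type := lp (fun _ : ℕ => ℝ) ∞

instance : NormedAddCommGroup EllInf := lp.normedAddCommGroup (E := fun _ : ℕ => ℝ) (p := ∞)

instance : NormedSpace ℝ EllInf := lp.instNormedSpace (𝕜 := ℝ) (E := fun _ : ℕ => ℝ) (p := ∞)

/-- The `n`-th coordinate of an element of `ℓ∞`. -/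
def EllInf.at (f : EllInf) (n : ℕ) : ℝ := (show lp (fun _ : ℕ => ℝ) ∞ from f) n

/-- The subspace `c₀` of `ℓ∞` of all null sequences. -/
def NullSeq : Submodule ℝ EllInf where
  carrier := {f | Tendsto f.at atTop (𝓝 0)}
  add_mem' := fun {f g} hf hg => MP4ea76a.c0.add_mem (x := f) (y := g) hf hg
  zero_mem' := MP4ea76a.c0.zero_mem
  smul_mem' := fun c f hf => MP4ea76a.c0.smul_mem c (x := f) hf

instance isClosed_NullSeq : IsClosed (NullSeq : Set EllInf) := MP4ea76a.isClosed_c0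

/-- The Banach space `ℓ∞/c₀`, with the quotient norm. -/
def EllInfModC0 : Type := EllInf ⧸ NullSeq

instance : NormedAddCommGroup EllInfModC0 := Submodule.Quotient.normedAddCommGroup NullSeq

instance : NormedSpace ℝ EllInfModC0 := Submodule.Quotient.normedSpace NullSeq ℝ

/-- The quotient map `ℓ∞ → ℓ∞/c₀`. -/
def quo : EllInf →L[ℝ] EllInfModC0 := NullSeq.mkQL

/-- Bounded linear operators on `ℓ∞/c₀`. -/
abbrev Op : Type := EllInfModC0 →L[ℝ] EllInfModC0

/-- The characteristic function of a subset of `ℕ` (given by `a : ℕ → Bool`), in `ℓ∞`. -/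
def chr (a : ℕ → Bool) : EllInf := MP4ea76a.ch a

/-- `T` is an isomorphic embedding. -/
def IsEmbedding (T : Op) : Prop := ∃ c > 0, ∀ q, c * ‖q‖ ≤ ‖T q‖

/-- `T` is induced by a bounded linear operator on `ℓ∞`. -/
def Liftable (T : Op) : Prop := ∃ L : EllInf →L[ℝ] EllInf, ∀ f, T (quo f) = quo (L f)

/-- `T` has a (possibly nonlinear) lifting `F` on characteristic functions all of whose coordinates
have the Baire property. -/
def BaireLiftable (T : Op) : Prop :=
  ∃ F : (ℕ → Bool) → ℕ → ℝ,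
    (∀ a, ∃ g : EllInf, quo g = T (quo (chr a)) ∧ Tendsto (fun k => F a k - g.at k) atTop (𝓝 0)) ∧
    ∀ k, ∀ O : Set ℝ, IsOpen O → BaireMeasurableSet ((fun a => F a k) ⁻¹' O)

/-- The Banach space `I` is injective: every bounded operator `u : X → I` extends along every
isomorphic embedding `j : X → Y` of Banach spaces. -/
def IsInjective (I : Type) [NormedAddCommGroup I] [NormedSpace ℝ I] : Prop :=
  ∀ (X Y : Type) [NormedAddCommGroup X] [NormedSpace ℝ X] [CompleteSpace X]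
    [NormedAddCommGroup Y] [NormedSpace ℝ Y] [CompleteSpace Y] (j : X →L[ℝ] Y),
    (∃ c > 0, ∀ x, c * ‖x‖ ≤ ‖j x‖) → ∀ u : X →L[ℝ] I, ∃ v : Y →L[ℝ] I, ∀ x, v (j x) = u x

/-- `T` factors through an injective Banach space. -/
def FactorsThroughInjective (T : Op) : Prop :=
  ∃ (I : Type) (_ : NormedAddCommGroup I) (_ : NormedSpace ℝ I), IsInjective I ∧
    ∃ (α : EllInfModC0 →L[ℝ] I) (β : I →L[ℝ] EllInfModC0), ∀ q, T q = β (α q)

/-- `J` is an ideal of subsets of `ℕ` containing the finite sets for which `P(ℕ)/J` satisfies the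
countable chain condition: every family of sets outside `J` with pairwise intersections in `J` is
countable. (`J` may be all of `P(ℕ)`.) -/
structure IsCCCIdeal (J : Set (Set ℕ)) : Prop where
  fin : ∀ A : Set ℕ, A.Finite → A ∈ J
  down : ∀ A B : Set ℕ, A ⊆ B → B ∈ J → A ∈ J
  union : ∀ A B : Set ℕ, A ∈ J → B ∈ J → A ∪ B ∈ J
  ccc : ∀ 𝒜 : Set (Set ℕ), (∀ A ∈ 𝒜, A ∉ J) → (∀ A ∈ 𝒜, ∀ B ∈ 𝒜, A ≠ B → A ∩ B ∈ J) →
    𝒜.Countable

/-- `T` vanishes on an ideal `J` such that `P(ℕ)/J` is ccc: `T [f] = 0` for every `f ∈ ℓ∞` which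
is supported in a member of `J`. -/
def VanishesOnCCCIdeal (T : Op) : Prop :=
  ∃ J : Set (Set ℕ), IsCCCIdeal J ∧
    ∀ A ∈ J, ∀ f : EllInf, (∀ n ∉ A, f.at n = 0) → T (quo f) = 0

/-- The range of `T` is complemented: it is the range of a bounded projection. -/
def HasComplementedRange (T : Op) : Prop :=
  ∃ P : Op, (∀ q, P (P q) = P q) ∧ range P = range T

theorem complemented (T T₁ T₂ T₃ T₄ : Op) (hT : IsEmbedding T) (hsum : T = T₁ + T₂ + T₃ + T₄)
    (h₁ : Liftable T₁) (h₂ : BaireLiftable T₂) (h₃ : FactorsThroughInjective T₃)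
    (h₄ : VanishesOnCCCIdeal T₄) : HasComplementedRange T := by
  obtain ⟨I, _, _, hI, hI'⟩ := h₃
  obtain ⟨J, hJ, hJ'⟩ := h₄
  obtain ⟨P, hP1, hP2⟩ := MP4ea76a.complemented T T₁ T₂ T₃ T₄ hT hsum h₁ h₂
    ⟨I, _, _, fun X Y _ _ _ _ _ _ j hj u => by
      obtain ⟨v, hv⟩ := hI X Y j hj u
      exact ⟨v, ContinuousLinearMap.ext hv⟩, hI'⟩ ⟨J, ⟨hJ.fin, hJ.down, hJ.union, hJ.ccc⟩, hJ'⟩
  exact ⟨P, fun q => congrArg (fun w => w q) hP1, hP2⟩

end MP4ea76aS
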